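import Mathlib

/-
Amenability of finitely generated (locally finite)-by-cyclic groups, and Hamming distance estimates.
-/

set_option autoImplicit false

namespace Pool.Agent.Lib.MP_7bd500_al

open Filter Topology

theorem amenable_of_gens {G : Type} [Group G] (t : G) (X : Set G)
    (hgen : Subgroup.closure (insert t X) = ⊤)
    (hlf : ∀ L : ℕ, ((Subgroup.closure {y | ∃ j : ℕ, j < L ∧ ∃ x ∈ X, y = (t ^ j)⁻¹ * x * t ^ j} :
      Subgroup G) : Set G).Finite) :
    ∃ μ : Set G → ℝ, (∀ A, 0 ≤ μ A) ∧ μ Set.univ = 1 ∧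
      (∀ A B : Set G, Disjoint A B → μ (A ∪ B) = μ A + μ B) ∧
      ∀ (g : G) (A : Set G), μ ((fun x => g * x) '' A) = μ A := by
  let N : ℕ → Subgroup G := fun L =>
    Subgroup.closure {y | ∃ j : ℕ, j < L + 1 ∧ ∃ x ∈ X, y = (t ^ j)⁻¹ * x * t ^ j}
  have hN : ∀ L, (N L : Set G).Finite := fun L => hlf (L + 1)
  have hNpos : ∀ L, (0 : ℝ) < (N L : Set G).ncard := by
    intro L
    exact_mod_cast (Set.ncard_pos (hN L)).2 ⟨1, one_mem _⟩
  let c : ℕ → ℕ → Set G → ℝ := fun L j A =>
    (({n | n ∈ N L ∧ t ^ j * n ∈ A} : Set G).ncard : ℝ) / (N L : Set G).ncard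
  have hsub : ∀ L j (A : Set G), ({n | n ∈ N L ∧ t ^ j * n ∈ A} : Set G) ⊆ N L :=
    fun L j A n hn => hn.1
  have hc0 : ∀ L j A, 0 ≤ c L j A := fun L j A => by positivity
  have hc1 : ∀ L j A, c L j A ≤ 1 := by
    intro L j A
    rw [div_le_one (hNpos L)]
    exact_mod_cast Set.ncard_le_ncard (hsub L j A) (hN L)
  have hcu : ∀ L j, c L j Set.univ = 1 := by
    intro L j
    have : ({n | n ∈ N L ∧ t ^ j * n ∈ (Set.univ : Set G)} : Set G) = N L := by
      ext n; simp
    simp only [c, this]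
    exact div_self (hNpos L).ne'
  have hcadd : ∀ L j (A B : Set G), Disjoint A B → c L j (A ∪ B) = c L j A + c L j B := by
    intro L j A B hAB
    have : ({n | n ∈ N L ∧ t ^ j * n ∈ A ∪ B} : Set G)
        = {n | n ∈ N L ∧ t ^ j * n ∈ A} ∪ {n | n ∈ N L ∧ t ^ j * n ∈ B} := by
      ext n
      simp only [Set.mem_union, Set.mem_setOf_eq]
      tauto
    simp only [c, this]
    rw [Set.ncard_union_eq _ ((hN L).subset (hsub L j A)) ((hN L).subset (hsub L j B))]
    · push_cast
      ring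
    · rw [Set.disjoint_left]
      intro n h1 h2
      exact Set.disjoint_left.1 hAB h1.2 h2.2
  have hcx : ∀ L j, j < L + 1 → ∀ x ∈ X, ∀ A : Set G, c L j {y | x * y ∈ A} = c L j A := by
    intro L j hj x hx A
    have hu : (t ^ j)⁻¹ * x * t ^ j ∈ N L := Subgroup.subset_closure ⟨j, hj, x, hx, rfl⟩
    have : ({n | n ∈ N L ∧ t ^ j * n ∈ A} : Set G)
        = (fun n => ((t ^ j)⁻¹ * x * t ^ j) * n) '' {n | n ∈ N L ∧ t ^ j * n ∈ {y | x * y ∈ A}} := by
      ext n
      constructor
      · rintro ⟨h1, h2⟩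
        refine ⟨((t ^ j)⁻¹ * x * t ^ j)⁻¹ * n, ⟨mul_mem (inv_mem hu) h1, ?_⟩, by group⟩
        change x * (t ^ j * (((t ^ j)⁻¹ * x * t ^ j)⁻¹ * n)) ∈ A
        convert h2 using 1
        group
      · rintro ⟨n', ⟨h1, h2⟩, rfl⟩
        refine ⟨mul_mem hu h1, ?_⟩
        change x * (t ^ j * n') ∈ A at h2
        convert h2 using 1
        group
    simp only [c]
    rw [this, Set.ncard_image_of_injective _ (mul_right_injective _)]
  have hct : ∀ L j (A : Set G), c L j {y | t * y ∈ A} = c L (j + 1) A := by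
    intro L j A
    simp only [c, Set.mem_setOf_eq, pow_succ', mul_assoc]
  let d : ℕ → Set G → ℝ := fun L A => (∑ j ∈ Finset.range (L + 1), c L j A) / (L + 1)
  have hLpos : ∀ L : ℕ, (0 : ℝ) < L + 1 := fun L => by positivity
  have hd01 : ∀ L A, d L A ∈ Set.Icc (0 : ℝ) 1 := by
    intro L A
    refine ⟨div_nonneg (Finset.sum_nonneg fun j _ => hc0 L j A) (hLpos L).le, ?_⟩
    rw [div_le_one (hLpos L)]
    calc ∑ j ∈ Finset.range (L + 1), c L j A ≤ ∑ _j ∈ Finset.range (L + 1), (1 : ℝ) :=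
          Finset.sum_le_sum fun j _ => hc1 L j A
      _ = L + 1 := by simp
  let U : Ultrafilter ℕ := hyperfilter ℕ
  have hU : (U : Filter ℕ) ≤ atTop := by
    rw [← Nat.cofinite_eq_atTop]
    exact hyperfilter_le_cofinite
  have hlim : ∀ A, ∃ a, Tendsto (fun L => d L A) U (𝓝 a) := by
    intro A
    obtain ⟨a, -, ha⟩ := isCompact_Icc.ultrafilter_le_nhds' (U.map (fun L => d L A))
      (mem_map.2 (Eventually.of_forall fun L => hd01 L A))
    exact ⟨a, ha⟩
  choose μ hμ using hlim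
  have hinv : ∀ g : G, ∀ A : Set G, μ {y | g * y ∈ A} = μ A := by
    intro g
    have hg : g ∈ Subgroup.closure (insert t X) := hgen ▸ Subgroup.mem_top g
    induction hg using Subgroup.closure_induction with
    | mem x hx =>
      intro A
      rcases hx with rfl | hx
      · have h1 : Tendsto (fun L => d L {y | x * y ∈ A} - d L A) atTop (𝓝 0) := by
          refine squeeze_zero_norm (a := fun L : ℕ => 1 / ((L : ℝ) + 1)) ?_
            tendsto_one_div_add_atTop_nhds_zero_nat
          intro L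
          have h2 : d L {y | x * y ∈ A} - d L A = (c L (L + 1) A - c L 0 A) / (L + 1) := by
            simp only [d, hct]
            rw [← sub_div, ← Finset.sum_sub_distrib,
              Finset.sum_range_sub (fun j => c L j A)]
          rw [h2, norm_div, Real.norm_eq_abs, Real.norm_eq_abs, abs_of_pos (hLpos L)]
          refine div_le_div_of_nonneg_right ?_ (hLpos L).le
          have := hc0 L (L + 1) A
          have := hc1 L (L + 1) A
          have := hc0 L 0 A
          have := hc1 L 0 A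
          rw [abs_le]
          constructor <;> linarith
        have h3 := tendsto_nhds_unique ((hμ _).sub (hμ A)) (h1.mono_left hU)
        exact sub_eq_zero.1 h3
      · refine tendsto_nhds_unique (hμ _) ((hμ A).congr fun L => ?_)
        simp only [d]
        congr 1
        exact Finset.sum_congr rfl fun j hj => (hcx L j (Finset.mem_range.1 hj) x hx A).symm
    | one => intro A; simp
    | mul x y _ _ hx hy =>
      intro A
      rw [← hx A, ← hy {z | x * z ∈ A}]
      simp only [Set.mem_setOf_eq, mul_assoc]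
    | inv x _ hx =>
      intro A
      rw [← hx {y | x⁻¹ * y ∈ A}]
      simp
  refine ⟨μ, fun A => ?_, ?_, fun A B hAB => ?_, fun g A => ?_⟩
  · exact ge_of_tendsto' (hμ A) fun L => (hd01 L A).1
  · refine tendsto_nhds_unique (hμ _) (tendsto_const_nhds.congr fun L => ?_)
    simp only [d, hcu]
    simp [(hLpos L).ne']
  · refine tendsto_nhds_unique (hμ _) (((hμ A).add (hμ B)).congr fun L => ?_)
    simp only [d, hcadd _ _ A B hAB, Finset.sum_add_distrib, add_div]
  · rw [← hinv g⁻¹ A]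
    congr 1
    ext y
    simp

/-- The number of points where two permutations differ. -/
noncomputable def dif {X : Type} (σ τ : Equiv.Perm X) : ℕ := {x | σ x ≠ τ x}.ncard

section
variable {X : Type} [Finite X]

theorem dif_triangle (σ τ ρ : Equiv.Perm X) : dif σ ρ ≤ dif σ τ + dif τ ρ := by
  refine le_trans (Set.ncard_le_ncard ?_ (Set.toFinite _)) (Set.ncard_union_le _ _)
  intro x hx
  by_contra h
  simp only [Set.mem_union, Set.mem_setOf_eq, not_or, not_not] at h
  exact hx (h.1.trans h.2)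

omit [Finite X] in
theorem dif_comm (σ τ : Equiv.Perm X) : dif σ τ = dif τ σ := by
  simp only [dif, ne_comm]

omit [Finite X] in
theorem dif_mul_left (a σ τ : Equiv.Perm X) : dif (a * σ) (a * τ) = dif σ τ := by
  simp [dif]

omit [Finite X] in
theorem dif_mul_right (a σ τ : Equiv.Perm X) : dif (σ * a) (τ * a) = dif σ τ := by
  have : {x | σ x ≠ τ x} = a '' {x | (σ * a) x ≠ (τ * a) x} := by
    ext x
    constructor
    · intro hx
      exact ⟨a⁻¹ x, by simpa using hx, by simp⟩
    · rintro ⟨y, hy, rfl⟩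
      exact hy
  rw [dif, dif, this, Set.ncard_image_of_injective _ a.injective]

theorem dif_mul (σ σ' τ τ' : Equiv.Perm X) : dif (σ * τ) (σ' * τ') ≤ dif σ σ' + dif τ τ' := by
  have := dif_triangle (σ * τ) (σ' * τ) (σ' * τ')
  rwa [dif_mul_right, dif_mul_left] at this

omit [Finite X] in
theorem dif_inv (σ τ : Equiv.Perm X) : dif σ⁻¹ τ⁻¹ = dif σ τ := by
  rw [← dif_mul_left σ, ← dif_mul_right τ, dif_comm]
  simp

theorem dif_commutator (a b : Equiv.Perm X) : dif (a * b * a⁻¹ * b⁻¹) 1 ≤ 2 * dif a 1 := by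
  have h1 := dif_mul a 1 (b * a⁻¹ * b⁻¹) 1
  have h2 : dif (b * a⁻¹ * b⁻¹) 1 = dif a 1 := by
    rw [← dif_mul_right b, ← dif_mul_left b⁻¹, ← dif_inv a 1]
    simp
  rw [h2, one_mul] at h1
  simp only [← mul_assoc] at h1
  omega

end

theorem not_stable {S G : Type} [Group G] (π : FreeGroup S →* G) (hπ : Function.Surjective π)
    (h z : G)
    (hcomm : ∀ (X : Type) [Finite X] (ψ : G →* Equiv.Perm X),
      ∃ v, ψ z = ψ (h * v * h⁻¹ * v⁻¹))
    (X : ℕ → Type) [∀ n, Finite (X n)] [∀ n, Nonempty (X n)]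
    (φ : ∀ n, FreeGroup S →* Equiv.Perm (X n))
    (h1 : ∀ w, π w = h → ∀ᶠ n in atTop, φ n w = 1)
    (h2 : ∀ w, π w = z → ∀ᶠ n in atTop, ∀ x, φ n w x ≠ x) :
    ¬ ∃ ψ : ∀ n, FreeGroup S →* Equiv.Perm (X n), (∀ n, π.ker ≤ (ψ n).ker) ∧
      ∀ s, Tendsto (fun n => (dif (φ n (FreeGroup.of s)) (ψ n (FreeGroup.of s)) : ℝ)
        / Nat.card (X n)) atTop (𝓝 0) := by
  rintro ⟨ψ, hker, hclose⟩
  have hpos : ∀ n, (0 : ℝ) < Nat.card (X n) := fun n => by exact_mod_cast Nat.card_pos
  have hall : ∀ w, Tendsto (fun n => (dif (φ n w) (ψ n w) : ℝ) / Nat.card (X n)) atTop (𝓝 0) := by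
    intro w
    induction w using FreeGroup.induction_on with
    | C1 => simp [dif]
    | of s => exact hclose s
    | inv_of s ih => simpa only [map_inv, dif_inv] using ih
    | mul a b ha hb =>
      have := ha.add hb
      rw [add_zero] at this
      refine squeeze_zero (fun n => by positivity) (fun n => ?_) this
      rw [← add_div, map_mul, map_mul]
      refine div_le_div_of_nonneg_right ?_ (hpos n).le
      exact_mod_cast dif_mul _ _ _ _
  obtain ⟨wh, hwh⟩ := hπ h
  obtain ⟨wz, hwz⟩ := hπ z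
  have hkey : ∀ n, dif (ψ n wz) 1 ≤ 2 * dif (ψ n wh) 1 := by
    intro n
    let ψ' : G →* Equiv.Perm (X n) := π.liftOfSurjective hπ ⟨ψ n, hker n⟩
    have hψ' : ∀ w, ψ' (π w) = ψ n w := fun w => π.liftOfRightInverse_comp_apply _ _ _ w
    obtain ⟨v, hv⟩ := hcomm (X n) ψ'
    rw [← hψ' wz, ← hψ' wh, hwz, hwh, hv]
    simp only [map_mul, map_inv]
    exact dif_commutator _ _
  have e1 := (hall wh).eventually (gt_mem_nhds (show (0 : ℝ) < 1 / 4 by norm_num))
  have e2 := (hall wz).eventually (gt_mem_nhds (show (0 : ℝ) < 1 / 4 by norm_num))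
  obtain ⟨n, ⟨⟨a1, a2⟩, a3⟩, a4⟩ := (((e1.and e2).and (h1 wh hwh)).and (h2 wz hwz)).exists
  rw [div_lt_iff₀ (hpos n)] at a1 a2
  have b1 : dif (φ n wz) 1 = Nat.card (X n) := by
    have : {x | φ n wz x ≠ (1 : Equiv.Perm (X n)) x} = Set.univ :=
      Set.eq_univ_of_forall fun x => a4 x
    rw [dif, this, Set.ncard_univ]
  have b2 := dif_triangle (φ n wz) (ψ n wz) 1
  have b3 := hkey n
  rw [a3, dif_comm] at a1
  have b4 : (Nat.card (X n) : ℝ) ≤ dif (φ n wz) (ψ n wz) + 2 * dif (ψ n wh) 1 := by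
    exact_mod_cast (by omega : Nat.card (X n) ≤ dif (φ n wz) (ψ n wz) + 2 * dif (ψ n wh) 1)
  have := hpos n
  linarith

end Pool.Agent.Lib.MP_7bd500_al
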