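import Pool.Agent.Lib.MP_7bd500_al.Ring

/-
A Heisenberg type central extension of a lamplighter group.
-/

set_option autoImplicit false

namespace Pool.Agent.Lib.MP_7bd500_al

open LaurentPolynomial

variable {K : Type} [Field K]

/-- The shift by `n`, multiplication by `T^n`. -/
noncomputable def sh (n : ℤ) : V K →ₗ[K] V K where
  toFun v := (T n : R K) • v
  map_add' := smul_add _
  map_smul' a v := smul_comm _ a v

theorem sh_apply (n : ℤ) (v : V K) : sh n v = (T n : R K) • v := rfl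

@[simp] theorem sh_fst (n : ℤ) (v : V K) : (sh n v).1 = T n * v.1 := by
  rw [sh_apply, Prod.smul_fst, smul_eq_mul]

@[simp] theorem sh_snd (n : ℤ) (v : V K) : (sh n v).2 = T n * v.2 := by
  rw [sh_apply, Prod.smul_snd, smul_eq_mul]

@[simp] theorem sh_zero (v : V K) : sh 0 v = v := by rw [sh_apply, T_zero, one_smul]

theorem sh_sh (m n : ℤ) (v : V K) : sh m (sh n v) = sh (m + n) v := by
  rw [sh_apply, sh_apply, sh_apply, smul_smul, T_add]

theorem sh_mem_J {m : ℕ} (n : ℤ) {v : V K} (hv : v ∈ J K m) : sh n v ∈ J K m :=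
  smul_mem_J _ hv

theorem sh_sub_mem_J {m : ℕ} {n : ℤ} (h : (m : ℤ) ∣ n) (v : V K) : sh n v - v ∈ J K m := by
  have : sh n v - v = ((T n : R K) - 1) • v := by rw [sub_smul, one_smul, sh_apply]
  rw [this]
  exact smul_mem_J_of_mem_I (T_sub_one_mem h) v

/-- The alternating cocycle. -/
noncomputable def cf : V K →ₗ[K] V K →ₗ[K] V K :=
  LinearMap.mk₂ K
    (fun v v' => (invert v.1 * v'.2 - invert v'.1 * v.2, invert v.2 * v'.2 - invert v'.2 * v.2))
    (by
      intro a b c
      refine Prod.ext ?_ ?_ <;> simp only [Prod.fst_add, Prod.snd_add, map_add] <;> ring)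
    (by
      intro a b c
      refine Prod.ext ?_ ?_ <;>
        simp only [Prod.smul_fst, Prod.smul_snd, map_smul, smul_sub, smul_mul_assoc,
          mul_smul_comm])
    (by
      intro a b c
      refine Prod.ext ?_ ?_ <;> simp only [Prod.fst_add, Prod.snd_add, map_add] <;> ring)
    (by
      intro a b c
      refine Prod.ext ?_ ?_ <;>
        simp only [Prod.smul_fst, Prod.smul_snd, map_smul, smul_sub, smul_mul_assoc,
          mul_smul_comm])

theorem cf_fst (v v' : V K) : (cf v v').1 = invert v.1 * v'.2 - invert v'.1 * v.2 := rfl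

theorem cf_snd (v v' : V K) : (cf v v').2 = invert v.2 * v'.2 - invert v'.2 * v.2 := rfl

@[simp] theorem cf_self (v : V K) : cf v v = 0 := by
  refine Prod.ext ?_ ?_
  · rw [cf_fst, sub_self]; rfl
  · rw [cf_snd, sub_self]; rfl

theorem cf_swap (v v' : V K) : cf v v' = -cf v' v := by
  refine Prod.ext ?_ ?_
  · rw [Prod.fst_neg, cf_fst, cf_fst]; ring
  · rw [Prod.snd_neg, cf_snd, cf_snd]; ring

theorem T_neg_mul (n : ℤ) : (T (-n) : R K) * T n = 1 := by rw [← T_add]; simp

@[simp] theorem cf_sh_sh (n : ℤ) (v v' : V K) : cf (sh n v) (sh n v') = cf v v' := by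
  have := T_neg_mul (K := K) n
  refine Prod.ext ?_ ?_
  · simp only [cf_fst, sh_fst, sh_snd, map_mul, invert_T]
    linear_combination (invert v.1 * v'.2 - invert v'.1 * v.2) * this
  · simp only [cf_snd, sh_snd, map_mul, invert_T]
    linear_combination (invert v.2 * v'.2 - invert v'.2 * v.2) * this

theorem cf_mem_J_right {m : ℕ} (v : V K) {v' : V K} (h : v' ∈ J K m) : cf v v' ∈ J K m := by
  rw [mem_J, cf_fst, cf_snd]
  exact ⟨sub_mem (Ideal.mul_mem_left _ _ h.2) (Ideal.mul_mem_right _ _ (invert_mem_I h.1)),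
    sub_mem (Ideal.mul_mem_left _ _ h.2) (Ideal.mul_mem_right _ _ (invert_mem_I h.2))⟩

theorem cf_mem_J_left {m : ℕ} {v : V K} (h : v ∈ J K m) (v' : V K) : cf v v' ∈ J K m := by
  rw [cf_swap]
  exact neg_mem (cf_mem_J_right _ h)

theorem sy_smul_cf (d : ℤ) (v v' : V K) :
    sy K d • cf v v' = cf (sh d v) v' + cf (sh (-d) v) v' := by
  refine Prod.ext ?_ ?_
  · simp only [Prod.smul_fst, smul_eq_mul, Prod.fst_add, cf_fst, sh_fst, sh_snd, map_mul,
      invert_T, sy, neg_neg]
    ring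
  · simp only [Prod.smul_snd, smul_eq_mul, Prod.snd_add, cf_snd, sh_snd, map_mul,
      invert_T, sy, neg_neg]
    ring

variable (K) in
/-- The underlying type of the big group. -/
@[ext] structure Gam where
  /-- lamp component -/
  v : V K
  /-- central component -/
  w : V K
  /-- shift component -/
  n : ℤ

noncomputable instance : Mul (Gam K) :=
  ⟨fun g h => ⟨g.v + sh g.n h.v, g.w + h.w + cf g.v (sh g.n h.v), g.n + h.n⟩⟩

noncomputable instance : One (Gam K) := ⟨⟨0, 0, 0⟩⟩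

noncomputable instance : Inv (Gam K) := ⟨fun g => ⟨-sh (-g.n) g.v, -g.w, -g.n⟩⟩

@[simp] theorem mul_v (g h : Gam K) : (g * h).v = g.v + sh g.n h.v := rfl
@[simp] theorem mul_w (g h : Gam K) : (g * h).w = g.w + h.w + cf g.v (sh g.n h.v) := rfl
@[simp] theorem mul_n (g h : Gam K) : (g * h).n = g.n + h.n := rfl
@[simp] theorem one_v : (1 : Gam K).v = 0 := rfl
@[simp] theorem one_w : (1 : Gam K).w = 0 := rfl
@[simp] theorem one_n : (1 : Gam K).n = 0 := rfl
@[simp] theorem inv_v (g : Gam K) : (g⁻¹).v = -sh (-g.n) g.v := rfl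
@[simp] theorem inv_w (g : Gam K) : (g⁻¹).w = -g.w := rfl
@[simp] theorem inv_n (g : Gam K) : (g⁻¹).n = -g.n := rfl

noncomputable instance : Group (Gam K) :=
  Group.ofLeftAxioms
    (by
      intro a b c
      refine Gam.ext ?_ ?_ ?_
      · simp only [mul_v, mul_n, map_add, sh_sh]
        abel
      · simp only [mul_v, mul_w, mul_n, map_add, LinearMap.add_apply]
        rw [← sh_sh a.n b.n, cf_sh_sh]
        abel
      · simp only [mul_n]
        ring)
    (by
      intro a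
      refine Gam.ext ?_ ?_ ?_ <;> simp)
    (by
      intro a
      refine Gam.ext ?_ ?_ ?_ <;> simp)

/-- The shift component as a homomorphism. -/
noncomputable def chi : Gam K →* Multiplicative ℤ where
  toFun g := Multiplicative.ofAdd g.n
  map_one' := rfl
  map_mul' _ _ := rfl

theorem zpow_n (g : Gam K) (j : ℤ) : (g ^ j).n = j * g.n := by
  have := map_zpow (chi (K := K)) g j
  have h2 := congrArg Multiplicative.toAdd this
  simpa [chi] using h2

theorem conj_v (g b : Gam K) (hb : b.n = 0) : (g * b * g⁻¹).v = sh g.n b.v := by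
  simp [hb, sh_sh]

theorem conj_n (g b : Gam K) : (g * b * g⁻¹).n = b.n := by
  simp

theorem conj_w (g b : Gam K) (hb : b.n = 0) :
    (g * b * g⁻¹).w = b.w + (cf g.v (sh g.n b.v) + cf g.v (sh g.n b.v)) := by
  simp only [mul_w, mul_v, mul_n, inv_w, inv_v, hb, add_zero, map_neg, sh_sh, add_neg_cancel,
    sh_zero, map_add, LinearMap.add_apply, cf_self]
  rw [cf_swap (sh g.n b.v) g.v]
  abel

/-- Central elements. -/
noncomputable def cen (w : V K) : Gam K := ⟨0, w, 0⟩

@[simp] theorem cen_v (w : V K) : (cen w).v = 0 := rfl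
@[simp] theorem cen_w (w : V K) : (cen w).w = w := rfl
@[simp] theorem cen_n (w : V K) : (cen w).n = 0 := rfl

theorem cen_add (w w' : V K) : cen (w + w') = cen w * cen w' := by
  refine Gam.ext ?_ ?_ ?_ <;> simp

theorem cen_zero : cen (0 : V K) = 1 := rfl

theorem cen_neg (w : V K) : cen (-w) = (cen w)⁻¹ := by
  refine Gam.ext ?_ ?_ ?_ <;> simp

theorem cen_comm (w : V K) (g : Gam K) : cen w * g = g * cen w := by
  refine Gam.ext ?_ ?_ ?_ <;> simp [add_comm]

theorem eq_cen {g : Gam K} (hv : g.v = 0) (hn : g.n = 0) : g = cen g.w :=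
  Gam.ext hv rfl hn

theorem commutator_eq (a b : Gam K) (ha : a.n = 0) (hb : b.n = 0) :
    a * b * a⁻¹ * b⁻¹ = cen (cf a.v b.v + cf a.v b.v) := by
  refine Gam.ext ?_ ?_ ?_
  · rw [mul_v, conj_v a b hb, conj_n]
    simp [ha, hb]
  · rw [mul_w, conj_w a b hb, conj_v a b hb, conj_n]
    simp [ha, hb]
  · simp

/-- The central subgroup attached to a subspace. -/
noncomputable def cenSub (S : Submodule K (V K)) : Subgroup (Gam K) where
  carrier := {g | g.v = 0 ∧ g.w ∈ S ∧ g.n = 0}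
  mul_mem' := by
    rintro a b ⟨h1, h2, h3⟩ ⟨h4, h5, h6⟩
    refine ⟨by simp [h1, h4], ?_, by simp [h3, h6]⟩
    simpa [h1] using add_mem h2 h5
  one_mem' := ⟨rfl, zero_mem _, rfl⟩
  inv_mem' := by
    rintro a ⟨h1, h2, h3⟩
    exact ⟨by simp [h1], neg_mem h2, by simp [h3]⟩

theorem mem_cenSub {S : Submodule K (V K)} {g : Gam K} :
    g ∈ cenSub S ↔ g.v = 0 ∧ g.w ∈ S ∧ g.n = 0 := Iff.rfl

theorem cen_mem_cenSub {S : Submodule K (V K)} {w : V K} : cen w ∈ cenSub S ↔ w ∈ S := by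
  simp [mem_cenSub]

instance (S : Submodule K (V K)) : (cenSub S).Normal := by
  refine ⟨fun a ha g => ?_⟩
  rw [eq_cen ha.1 ha.2.2, ← cen_comm, mul_inv_cancel_right]
  exact cen_mem_cenSub.2 ha.2.1

variable (K) in
/-- The congruence subgroup of level `m`. -/
noncomputable def Cong (m : ℕ) : Subgroup (Gam K) where
  carrier := {g | g.v ∈ J K m ∧ g.w ∈ J K m ∧ (m : ℤ) ∣ g.n}
  mul_mem' := by
    rintro a b ⟨h1, h2, h3⟩ ⟨h4, h5, h6⟩
    exact ⟨add_mem h1 (sh_mem_J _ h4), add_mem (add_mem h2 h5) (cf_mem_J_left h1 _),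
      dvd_add h3 h6⟩
  one_mem' := ⟨zero_mem _, zero_mem _, dvd_zero _⟩
  inv_mem' := by
    rintro a ⟨h1, h2, h3⟩
    exact ⟨neg_mem (sh_mem_J _ h1), neg_mem h2, Dvd.dvd.neg_right h3⟩

theorem mem_Cong {m : ℕ} {g : Gam K} :
    g ∈ Cong K m ↔ g.v ∈ J K m ∧ g.w ∈ J K m ∧ (m : ℤ) ∣ g.n := Iff.rfl

theorem Cong_anti {m m' : ℕ} (h : m ∣ m') {g : Gam K} (hg : g ∈ Cong K m') : g ∈ Cong K m :=
  ⟨J_anti h hg.1, J_anti h hg.2.1, (Int.natCast_dvd_natCast.2 h).trans hg.2.2⟩

instance (m : ℕ) : (Cong K m).Normal := by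
  refine ⟨fun a ha g => ?_⟩
  obtain ⟨h1, h2, h3⟩ := ha
  have e : g.n + a.n + -g.n = a.n := by ring
  have h4 := sh_sub_mem_J h3 g.v
  refine ⟨?_, ?_, ?_⟩
  · simp only [mul_v, mul_n, inv_v, map_neg, sh_sh, e]
    have : g.v + sh g.n a.v + -sh a.n g.v = sh g.n a.v - (sh a.n g.v - g.v) := by abel
    rw [this]
    exact sub_mem (sh_mem_J _ h1) h4
  · simp only [mul_w, mul_v, mul_n, inv_w, inv_v, map_neg, sh_sh, e, map_add,
      LinearMap.add_apply]
    have h5 : cf g.v (sh a.n g.v) ∈ J K m := by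
      have : cf g.v (sh a.n g.v) = cf g.v (sh a.n g.v - g.v) := by simp
      rw [this]
      exact cf_mem_J_right _ h4
    have h6 : cf g.v (sh g.n a.v) ∈ J K m := cf_mem_J_right _ (sh_mem_J _ h1)
    have h7 : cf (sh g.n a.v) (sh a.n g.v) ∈ J K m := cf_mem_J_left (sh_mem_J _ h1) _
    convert add_mem (add_mem h2 h6) (neg_mem (add_mem h5 h7)) using 1
    abel
  · simp only [mul_n, inv_n, e]
    exact h3

theorem finite_of_factor {α β γ : Type*} [Finite β] (f : α → β) (q : α → γ)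
    (hq : Function.Surjective q) (h : ∀ a a', f a = f a' → q a = q a') : Finite γ := by
  refine Finite.of_surjective (fun b : Set.range f => q b.2.choose) ?_
  intro c
  obtain ⟨a, rfl⟩ := hq c
  exact ⟨⟨f a, a, rfl⟩, h _ _ (Exists.choose_spec (⟨a, rfl⟩ : f a ∈ Set.range f))⟩

theorem finiteIndex_Cong [Finite K] {m : ℕ} (hm : 0 < m) : (Cong K m).FiniteIndex := by
  have := finite_quot_I (K := K) hm
  have : NeZero m := ⟨hm.ne'⟩
  have : Finite (Gam K ⧸ Cong K m) := by
    let mk := Ideal.Quotient.mk (I K m)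
    refine finite_of_factor
      (fun g : Gam K => ((mk g.v.1, mk g.v.2, mk g.w.1, mk g.w.2), (g.n : ZMod m)))
      (fun g => (g : Gam K ⧸ Cong K m)) QuotientGroup.mk_surjective ?_
    intro a b hab
    simp only [Prod.mk.injEq] at hab
    obtain ⟨⟨h1, h2, h3, h4⟩, h5⟩ := hab
    have hv : b.v - a.v ∈ J K m :=
      mem_J.2 ⟨(Ideal.Quotient.eq (I := I K m)).1 h1.symm,
        (Ideal.Quotient.eq (I := I K m)).1 h2.symm⟩
    have hw : b.w - a.w ∈ J K m :=
      mem_J.2 ⟨(Ideal.Quotient.eq (I := I K m)).1 h3.symm,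
        (Ideal.Quotient.eq (I := I K m)).1 h4.symm⟩
    rw [QuotientGroup.eq]
    refine ⟨?_, ?_, ?_⟩
    · simp only [mul_v, inv_v, inv_n]
      have : -sh (-a.n) a.v + sh (-a.n) b.v = sh (-a.n) (b.v - a.v) := by
        rw [map_sub]; abel
      rw [this]
      exact sh_mem_J _ hv
    · simp only [mul_w, inv_w, inv_v, inv_n, map_neg, LinearMap.neg_apply, cf_sh_sh]
      have : cf a.v b.v = cf a.v (b.v - a.v) := by simp
      rw [this]
      convert sub_mem hw (cf_mem_J_right a.v hv) using 1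
      abel
    · simp only [mul_n, inv_n]
      have := (ZMod.intCast_eq_intCast_iff_dvd_sub a.n b.n m).1 h5
      rwa [sub_eq_neg_add] at this
  exact Subgroup.finiteIndex_of_finite_quotient

/-- A subgroup of the kernel of `chi` cut out by two subspaces. -/
noncomputable def box (E F : Submodule K (V K)) (h : ∀ v ∈ E, ∀ v' ∈ E, cf v v' ∈ F) :
    Subgroup (Gam K) where
  carrier := {g | g.v ∈ E ∧ g.w ∈ F ∧ g.n = 0}
  mul_mem' := by
    rintro a b ⟨h1, h2, h3⟩ ⟨h4, h5, h6⟩
    refine ⟨?_, ?_, by simp [h3, h6]⟩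
    · simpa [h3] using add_mem h1 h4
    · simpa [h3] using add_mem (add_mem h2 h5) (h _ h1 _ h4)
  one_mem' := ⟨zero_mem _, zero_mem _, rfl⟩
  inv_mem' := by
    rintro a ⟨h1, h2, h3⟩
    exact ⟨by simpa [h3] using h1, neg_mem h2, by simp [h3]⟩

theorem finite_of_fg [Finite K] {S : Submodule K (V K)} (hS : S.FG) : (S : Set (V K)).Finite := by
  obtain ⟨X, rfl⟩ := hS
  exact finite_span X.finite_toSet

/-- The kernel of `chi` is locally finite. -/
theorem closure_finite [Finite K] {X : Set (Gam K)} (hX : X.Finite) (h0 : ∀ x ∈ X, x.n = 0) :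
    ((Subgroup.closure X : Subgroup (Gam K)) : Set (Gam K)).Finite := by
  let E : Submodule K (V K) := Submodule.span K ((fun g : Gam K => g.v) '' X)
  let F : Submodule K (V K) :=
    Submodule.span K ((fun g : Gam K => g.w) '' X) ⊔ Submodule.map₂ cf E E
  have hE : E.FG := Submodule.fg_span (hX.image _)
  have hF : F.FG := (Submodule.fg_span (hX.image _)).sup (hE.map₂ cf hE)
  have hEF : ∀ v ∈ E, ∀ v' ∈ E, cf v v' ∈ F := fun v hv v' hv' =>
    Submodule.mem_sup_right (Submodule.apply_mem_map₂ cf hv hv')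
  have hle : Subgroup.closure X ≤ box E F hEF := by
    rw [Subgroup.closure_le]
    intro x hx
    exact ⟨Submodule.subset_span ⟨x, hx, rfl⟩,
      Submodule.mem_sup_left (Submodule.subset_span ⟨x, hx, rfl⟩), h0 x hx⟩
  refine Set.Finite.subset (((finite_of_fg hE).prod (finite_of_fg hF)).image
    (fun p : V K × V K => (⟨p.1, p.2, 0⟩ : Gam K))) ?_
  intro g hg
  obtain ⟨h1, h2, h3⟩ := hle hg
  exact ⟨(g.v, g.w), ⟨h1, h2⟩, Gam.ext rfl rfl h3.symm⟩

end Pool.Agent.Lib.MP_7bd500_al
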