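import Pool.Agent.Lib.MP_7bd500_al.Heis

/-
Separation of finitely generated subgroups by congruence subgroups.
-/

set_option autoImplicit false

namespace Pool.Agent.Lib.MP_7bd500_al

open LaurentPolynomial

/-- Prime fields of odd characteristic. -/
class PrimeOdd (K : Type) [Field K] : Prop where
  cast : ∀ a : K, ∃ n : ℕ, a = n
  two : (2 : K) ≠ 0

variable {K : Type} [Field K]

/-- Over a prime field every additive subgroup is a subspace. -/
def toSub [PrimeOdd K] (A : AddSubgroup (V K)) : Submodule K (V K) where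
  carrier := A
  add_mem' := A.add_mem
  zero_mem' := A.zero_mem
  smul_mem' := by
    intro a x hx
    obtain ⟨n, rfl⟩ := PrimeOdd.cast a
    rw [Nat.cast_smul_eq_nsmul]
    exact A.nsmul_mem hx n

/-- Lamp components of the elements of `A` without shift. -/
noncomputable def BV [PrimeOdd K] (A : Subgroup (Gam K)) : Submodule K (V K) :=
  toSub
    { carrier := {v | ∃ g ∈ A, g.n = 0 ∧ g.v = v}
      add_mem' := by
        rintro _ _ ⟨a, ha, h1, rfl⟩ ⟨b, hb, h2, rfl⟩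
        exact ⟨a * b, mul_mem ha hb, by simp [h1, h2], by simp [h1]⟩
      zero_mem' := ⟨1, one_mem _, rfl, rfl⟩
      neg_mem' := by
        rintro _ ⟨a, ha, h1, rfl⟩
        exact ⟨a⁻¹, inv_mem ha, by simp [h1], by simp [h1]⟩ }

theorem mem_BV [PrimeOdd K] {A : Subgroup (Gam K)} {v : V K} :
    v ∈ BV A ↔ ∃ g ∈ A, g.n = 0 ∧ g.v = v := Iff.rfl

/-- Central elements of `A`. -/
noncomputable def CW [PrimeOdd K] (A : Subgroup (Gam K)) : Submodule K (V K) :=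
  toSub
    { carrier := {w | cen w ∈ A}
      add_mem' := by
        intro a b ha hb
        change cen (a + b) ∈ A
        rw [cen_add]
        exact mul_mem ha hb
      zero_mem' := one_mem A
      neg_mem' := by
        intro a ha
        change cen (-a) ∈ A
        rw [cen_neg]
        exact inv_mem ha }

theorem mem_CW [PrimeOdd K] {A : Subgroup (Gam K)} {w : V K} : w ∈ CW A ↔ cen w ∈ A := Iff.rfl

theorem shift_dichotomy (A : Subgroup (Gam K)) :
    (∀ a ∈ A, a.n = 0) ∨ ∃ τ ∈ A, 0 < τ.n ∧ ∀ a ∈ A, τ.n ∣ a.n := by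
  classical
  by_cases h : ∀ a ∈ A, a.n = 0
  · exact Or.inl h
  right
  push Not at h
  have hex : ∃ d : ℕ, 0 < d ∧ ∃ τ ∈ A, τ.n = d := by
    obtain ⟨a, ha, hn⟩ := h
    rcases lt_or_gt_of_ne hn with h' | h'
    · exact ⟨(-a.n).toNat, by omega, a⁻¹, inv_mem ha, by rw [inv_n]; omega⟩
    · exact ⟨a.n.toNat, by omega, a, ha, by omega⟩
  obtain ⟨hd, τ, hτ, hτn⟩ := Nat.find_spec hex
  have hpos : 0 < τ.n := by omega
  refine ⟨τ, hτ, hpos, fun a ha => ?_⟩
  by_contra hnd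
  have h1 : 0 ≤ a.n % τ.n := Int.emod_nonneg _ hpos.ne'
  have h2 : a.n % τ.n < τ.n := Int.emod_lt_of_pos _ hpos
  have h3 : a.n % τ.n ≠ 0 := fun h0 => hnd (Int.dvd_of_emod_eq_zero h0)
  refine Nat.find_min hex (m := (a.n % τ.n).toNat) (by omega) ⟨by omega,
    a * τ ^ (-(a.n / τ.n)), mul_mem ha (zpow_mem hτ _), ?_⟩
  rw [mul_n, zpow_n, Int.toNat_of_nonneg h1, Int.emod_def]
  ring

theorem sh_mem_BV [PrimeOdd K] {A : Subgroup (Gam K)} {g : Gam K}
    (hg : ∀ a ∈ A, g * a * g⁻¹ ∈ A) {v : V K} (hv : v ∈ BV A) : sh g.n v ∈ BV A := by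
  obtain ⟨a, ha, h1, rfl⟩ := hv
  exact ⟨g * a * g⁻¹, hg a ha, by rw [conj_n, h1], conj_v g a h1⟩

theorem sy_smul (d : ℤ) (v : V K) : sy K d • v = sh d v + sh (-d) v := by
  rw [sy, add_smul, sh_apply, sh_apply]

theorem closed_BV [Finite K] [PrimeOdd K] {A : Subgroup (Gam K)} (hA : A.FG)
    (N : Subgroup (Gam K)) [hN : N.Normal] : Closed (BV (A ⊓ N)) := by
  rcases shift_dichotomy A with h | ⟨τ, hτ, hpos, -⟩
  · obtain ⟨X, rfl⟩ := hA
    have hfin := closure_finite X.finite_toSet (fun x hx => h x (Subgroup.subset_closure hx))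
    have : (BV (Subgroup.closure (X : Set (Gam K)) ⊓ N) : Set (V K)).Finite := by
      refine (hfin.image (fun g => g.v)).subset ?_
      rintro _ ⟨a, ha, -, rfl⟩
      exact ⟨a, ha.1, rfl⟩
    simpa using closed_bot.sup_finite this
  · refine closed_of_stable hpos _ fun v hv => ?_
    rw [sy_smul]
    have key : ∀ g ∈ A, ∀ a ∈ A ⊓ N, g * a * g⁻¹ ∈ A ⊓ N := fun g hg a ha =>
      ⟨A.mul_mem (A.mul_mem hg ha.1) (A.inv_mem hg), hN.conj_mem a ha.2 g⟩
    exact add_mem (sh_mem_BV (key τ hτ) hv) (sh_mem_BV (key τ⁻¹ (inv_mem hτ)) hv)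

/-- `g` is congruent to an element of `A * Rel` modulo every level. -/
def InCl (A : Subgroup (Gam K)) (Rel : Submodule K (V K)) (g : Gam K) : Prop :=
  ∀ m : ℕ, 0 < m → ∃ a ∈ A, ∃ ρ ∈ Rel, ∃ γ ∈ Cong K m, g = a * cen ρ * γ

theorem InCl.mul_left {A : Subgroup (Gam K)} {Rel : Submodule K (V K)} {g a : Gam K}
    (h : InCl A Rel g) (ha : a ∈ A) : InCl A Rel (a * g) := by
  intro m hm
  obtain ⟨b, hb, ρ, hρ, γ, hγ, rfl⟩ := h m hm
  exact ⟨a * b, mul_mem ha hb, ρ, hρ, γ, hγ, by group⟩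

theorem InCl.exists_shift {A : Subgroup (Gam K)} {Rel : Submodule K (V K)} {g : Gam K}
    (h : InCl A Rel g) : ∃ a ∈ A, (a * g).n = 0 := by
  rcases shift_dichotomy A with h0 | ⟨τ, hτ, hpos, hdvd⟩
  · refine ⟨1, one_mem _, ?_⟩
    rw [one_mul]
    obtain ⟨b, hb, ρ, hρ, γ, hγ, hg⟩ := h (g.n.natAbs + 1) (Nat.succ_pos _)
    have h1 : g.n = γ.n := by rw [hg]; simp [h0 b hb]
    have h2 := hγ.2.2
    rw [← h1] at h2
    exact Int.eq_zero_of_abs_lt_dvd h2 (by rw [Int.abs_eq_natAbs]; push_cast; omega)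
  · obtain ⟨b, hb, ρ, hρ, γ, hγ, hg⟩ := h τ.n.toNat (by omega)
    have h1 : g.n = b.n + γ.n := by rw [hg]; simp
    have h2 := hγ.2.2
    rw [Int.toNat_of_nonneg hpos.le] at h2
    obtain ⟨j, hj⟩ : τ.n ∣ g.n := by rw [h1]; exact dvd_add (hdvd b hb) h2
    refine ⟨τ ^ (-j), zpow_mem hτ _, ?_⟩
    rw [mul_n, zpow_n, hj]
    ring

theorem InCl.no_shift [Finite K] {A : Subgroup (Gam K)} {Rel : Submodule K (V K)} {g : Gam K}
    (h : InCl A Rel g) (hg0 : g.n = 0) (m : ℕ) (hm : 0 < m) :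
    ∃ b ∈ A, b.n = 0 ∧ ∃ ρ ∈ Rel, ∃ γ ∈ Cong K m, g = b * cen ρ * γ := by
  rcases shift_dichotomy A with h0 | ⟨τ, hτ, hpos, -⟩
  · obtain ⟨b, hb, ρ, hρ, γ, hγ, hg⟩ := h m hm
    exact ⟨b, hb, h0 b hb, ρ, hρ, γ, hγ, hg⟩
  · have hfi := finiteIndex_Cong (K := K) hm
    have ho : 0 < (Cong K m).index := Nat.pos_of_ne_zero hfi.index_ne_zero
    have hτo : τ ^ (Cong K m).index ∈ Cong K m := Subgroup.pow_index_mem _ τ
    set o := (Cong K m).index
    obtain ⟨b, hb, ρ, hρ, γ, hγ, hg⟩ := h (m * (τ.n.toNat * o))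
      (Nat.mul_pos hm (Nat.mul_pos (by omega) ho))
    have h1 : b.n + γ.n = 0 := by rw [← hg0, hg]; simp
    obtain ⟨j, hj⟩ : ((τ.n.toNat * o : ℕ) : ℤ) ∣ γ.n :=
      (Int.natCast_dvd_natCast.2 (Dvd.intro_left m rfl)).trans hγ.2.2
    push_cast at hj
    rw [Int.toNat_of_nonneg hpos.le] at hj
    refine ⟨b * (τ ^ o) ^ j, mul_mem hb (zpow_mem (pow_mem hτ _) _), ?_, ρ, hρ,
      ((τ ^ o) ^ j)⁻¹ * γ, mul_mem (inv_mem (zpow_mem hτo _)) (Cong_anti (Dvd.intro _ rfl) hγ), ?_⟩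
    · rw [mul_n, ← zpow_natCast, zpow_n, zpow_n]
      linear_combination h1 - hj
    · rw [hg, mul_assoc b ((τ ^ o) ^ j), ← cen_comm ρ ((τ ^ o) ^ j)]
      group

theorem exists_level [Finite K] [PrimeOdd K] {A : Subgroup (Gam K)} (hA : A.FG) {m' : ℕ}
    (hm' : 0 < m') : ∃ m : ℕ, 0 < m ∧ ∀ v ∈ BV A, v ∈ J K m → v ∈ BV (A ⊓ Cong K m') := by
  have hfi := finiteIndex_Cong (K := K) hm'
  have hrep : ∀ q : Gam K ⧸ Cong K m', ∃ b : Gam K,
      (∃ a ∈ A, a.n = 0 ∧ (a : Gam K ⧸ Cong K m') = q) →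
        b ∈ A ∧ b.n = 0 ∧ (b : Gam K ⧸ Cong K m') = q := by
    intro q
    by_cases hq : ∃ a ∈ A, a.n = 0 ∧ (a : Gam K ⧸ Cong K m') = q
    · obtain ⟨a, ha⟩ := hq
      exact ⟨a, fun _ => ha⟩
    · exact ⟨1, fun h => absurd h hq⟩
  choose rep hrep using hrep
  obtain ⟨m, hm, h⟩ := (closed_BV hA (Cong K m')).exists_good
    (Set.finite_range (fun q => (rep q).v))
  refine ⟨m, hm, ?_⟩
  rintro _ ⟨b, hb, hb0, rfl⟩ hv
  obtain ⟨h1, h2, h3⟩ := hrep (b : Gam K ⧸ Cong K m') ⟨b, hb, hb0, rfl⟩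
  set c := rep (b : Gam K ⧸ Cong K m')
  have h4 : b.v - c.v ∈ BV (A ⊓ Cong K m') := by
    refine ⟨c⁻¹ * b, ⟨A.mul_mem (A.inv_mem h1) hb, QuotientGroup.eq.1 h3⟩, by simp [h2, hb0], ?_⟩
    simp [h2, sub_eq_neg_add]
  have h5 : c.v ∈ BV (A ⊓ Cong K m') := by
    apply h _ ⟨_, rfl⟩
    refine Submodule.mem_sup.2 ⟨-(b.v - c.v), neg_mem h4, b.v, hv, by abel⟩
  simpa using add_mem h4 h5

theorem InCl.mem [Finite K] [PrimeOdd K] {A : Subgroup (Gam K)} (hA : A.FG)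
    {Rel : Submodule K (V K)} (hcl : Closed (CW A ⊔ Rel)) {g : Gam K} (h : InCl A Rel g) :
    ∃ a ∈ A, ∃ ρ ∈ Rel, g = a * cen ρ := by
  obtain ⟨a1, ha1, hn1⟩ := h.exists_shift
  have h1 := h.mul_left ha1
  have hv : (a1 * g).v ∈ BV A := by
    have := closed_BV hA ⊤
    rw [inf_top_eq] at this
    apply this
    intro m hm
    obtain ⟨b, hb, hb0, ρ, hρ, γ, hγ, hg⟩ := h1.no_shift hn1 m hm
    refine Submodule.mem_sup.2 ⟨b.v, ⟨b, hb, hb0, rfl⟩, γ.v, hγ.1, ?_⟩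
    rw [hg]
    simp [hb0]
  obtain ⟨a2, ha2, hn2, hv2⟩ := hv
  have h2 := h1.mul_left (inv_mem ha2)
  set g' := a2⁻¹ * (a1 * g) with hg'
  have hn3 : g'.n = 0 := by rw [hg', mul_n, inv_n, hn1, hn2]; simp
  have hv3 : g'.v = 0 := by rw [hg', mul_v, inv_v, inv_n, hn2, hv2]; simp
  have hw : g'.w ∈ CW A ⊔ Rel := by
    apply hcl
    intro m' hm'
    obtain ⟨m, hm, hlev⟩ := exists_level hA hm'
    obtain ⟨b, hb, hb0, ρ, hρ, γ, hγ, hg⟩ := h2.no_shift hn3 (m * m') (Nat.mul_pos hm hm')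
    have hbv : b.v = -γ.v := by
      have := congrArg Gam.v hg
      rw [hv3] at this
      simp only [mul_v, mul_n, cen_v, cen_n, map_zero, add_zero, hb0, sh_zero] at this
      exact eq_neg_of_add_eq_zero_left this.symm
    have hbJ : b.v ∈ J K m := by
      rw [hbv]
      exact neg_mem (J_anti (Dvd.intro _ rfl) hγ.1)
    obtain ⟨a', ha'', ha'0, ha'v⟩ := hlev b.v ⟨b, hb, hb0, rfl⟩ hbJ
    obtain ⟨ha', ha'c⟩ := Subgroup.mem_inf.1 ha''
    have hc : b * a'⁻¹ = cen (b * a'⁻¹).w := eq_cen (by simp [hb0, ha'0, ha'v]) (by simp [hb0, ha'0])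
    have hδ : a' * γ ∈ Cong K m' := mul_mem ha'c (Cong_anti (Dvd.intro_left _ rfl) hγ)
    have hg2 : g' = cen (b * a'⁻¹).w * cen ρ * (a' * γ) := by
      rw [← hc, hg, mul_assoc b a'⁻¹, ← cen_comm ρ a'⁻¹]
      group
    have hw2 := congrArg Gam.w hg2
    simp only [← cen_add, mul_w (cen _), cen_w, cen_v, map_zero, LinearMap.zero_apply,
      add_zero] at hw2
    rw [hw2]
    refine add_mem (Submodule.mem_sup_left (add_mem (Submodule.mem_sup_left ?_)
      (Submodule.mem_sup_right hρ))) (Submodule.mem_sup_right hδ.2.1)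
    rw [mem_CW, ← hc]
    exact mul_mem hb (inv_mem ha')
  obtain ⟨c, hc, ρ, hρ, hcρ⟩ := Submodule.mem_sup.1 hw
  refine ⟨a1⁻¹ * a2 * cen c, mul_mem (mul_mem (inv_mem ha1) ha2) hc, ρ, hρ, ?_⟩
  rw [mul_assoc _ (cen c), ← cen_add, hcρ, ← eq_cen hv3 hn3, hg']
  group

/-- The conjugation action on the linearised group modulo a central subspace. -/
noncomputable def conjRep (S : Submodule K (V K)) :
    Gam K →* Module.End K (V K × (V K ⧸ S)) where
  toFun g := LinearMap.prod ((sh g.n).comp (LinearMap.fst _ _ _))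
    (LinearMap.snd _ _ _ + S.mkQ.comp (((cf g.v + cf g.v).comp (sh g.n)).comp
      (LinearMap.fst _ _ _)))
  map_one' := by
    refine LinearMap.ext fun y => Prod.ext ?_ ?_ <;> simp
  map_mul' g h := by
    refine LinearMap.ext fun y => Prod.ext ?_ ?_
    · simp [sh_sh]
    · change y.2 + S.mkQ (cf (g * h).v (sh (g * h).n y.1) + cf (g * h).v (sh (g * h).n y.1))
        = y.2 + S.mkQ (cf h.v (sh h.n y.1) + cf h.v (sh h.n y.1))
          + S.mkQ (cf g.v (sh g.n (sh h.n y.1)) + cf g.v (sh g.n (sh h.n y.1)))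
      simp only [mul_v, mul_n, LinearMap.add_apply, map_add, ← sh_sh, cf_sh_sh]
      abel

theorem conjRep_fst (S : Submodule K (V K)) (g : Gam K) (y : V K × (V K ⧸ S)) :
    (conjRep S g y).1 = sh g.n y.1 := rfl

theorem conjRep_snd (S : Submodule K (V K)) (g : Gam K) (y : V K × (V K ⧸ S)) :
    (conjRep S g y).2 = y.2 + S.mkQ (cf g.v (sh g.n y.1) + cf g.v (sh g.n y.1)) := rfl

/-- Linearisation of an element. -/
noncomputable def tl (S : Submodule K (V K)) (g : Gam K) : V K × (V K ⧸ S) := (g.v, S.mkQ g.w)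

theorem tl_conj (S : Submodule K (V K)) (g b : Gam K) (hb : b.n = 0) :
    tl S (g * b * g⁻¹) = conjRep S g (tl S b) := by
  refine Prod.ext ?_ ?_
  · rw [conjRep_fst]
    exact conj_v g b hb
  · rw [conjRep_snd]
    change S.mkQ (g * b * g⁻¹).w = S.mkQ b.w + S.mkQ _
    rw [conj_w g b hb, map_add]
    rfl

theorem tl_mul (S : Submodule K (V K)) (a b : Gam K) (ha : a.n = 0) (h : cf a.v b.v ∈ S) :
    tl S (a * b) = tl S a + tl S b := by
  refine Prod.ext ?_ ?_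
  · simp [tl, ha]
  · have : S.mkQ (cf a.v b.v) = 0 := (Submodule.Quotient.mk_eq_zero S).2 h
    change S.mkQ (a * b).w = S.mkQ a.w + S.mkQ b.w
    rw [mul_w, ha, sh_zero, map_add, map_add, this, add_zero]

theorem tl_inv (S : Submodule K (V K)) (a : Gam K) (ha : a.n = 0) : tl S a⁻¹ = -tl S a := by
  refine Prod.ext ?_ ?_ <;> simp [tl, ha]

theorem conjRep_of_fst_zero (S : Submodule K (V K)) (g : Gam K) (y : V K × (V K ⧸ S))
    (hy : y.1 = 0) : conjRep S g y = y := by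
  refine Prod.ext ?_ ?_
  · rw [conjRep_fst, hy, map_zero]
  · rw [conjRep_snd, hy]
    simp

/-- The commutator subspace of `A`. -/
noncomputable def SW [PrimeOdd K] (A : Subgroup (Gam K)) : Submodule K (V K) :=
  Submodule.map₂ cf (BV A) (BV A)

theorem SW_le_CW [PrimeOdd K] (A : Subgroup (Gam K)) : SW A ≤ CW A := by
  rw [SW, Submodule.map₂_le]
  rintro _ ⟨a, ha, ha0, rfl⟩ _ ⟨b, hb, hb0, rfl⟩
  have h1 : cf a.v b.v + cf a.v b.v ∈ CW A := by
    rw [mem_CW, ← commutator_eq a b ha0 hb0]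
    exact mul_mem (mul_mem (mul_mem ha hb) (inv_mem ha)) (inv_mem hb)
  rw [← two_smul K] at h1
  exact (Submodule.smul_mem_iff _ PrimeOdd.two).1 h1

theorem SW_stable [PrimeOdd K] {A : Subgroup (Gam K)} {τ : Gam K} (hτ : τ ∈ A) :
    ∀ x ∈ SW A, sy K τ.n • x ∈ SW A := by
  have key : ∀ g ∈ A, ∀ a ∈ A, g * a * g⁻¹ ∈ A := fun g hg a ha =>
    mul_mem (mul_mem hg ha) (inv_mem hg)
  let L : V K →ₗ[K] V K := sh τ.n + sh (-τ.n)
  have hL : ∀ x, L x = sy K τ.n • x := fun x => (sy_smul _ _).symm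
  have : SW A ≤ (SW A).comap L := by
    rw [SW, Submodule.map₂_le]
    intro v hv v' hv'
    rw [Submodule.mem_comap, hL, sy_smul_cf]
    exact add_mem (Submodule.apply_mem_map₂ cf (sh_mem_BV (key τ hτ) hv) hv')
      (Submodule.apply_mem_map₂ cf (sh_mem_BV (key τ⁻¹ (inv_mem hτ)) hv) hv')
  intro x hx
  rw [← hL]
  exact this hx

theorem exists_finite_CW [PrimeOdd K] {A : Subgroup (Gam K)} (hA : A.FG) {τ : Gam K}
    (hτ : τ ∈ A) (hpos : 0 < τ.n) (hdvd : ∀ a ∈ A, τ.n ∣ a.n) :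
    ∃ E : Set (V K), E.Finite ∧ CW A = SW A ⊔ Submodule.span K E := by
  classical
  obtain ⟨X, hX⟩ := hA
  let S := SW A
  let M := V K × (V K ⧸ S)
  let Λ : R K →ₐ[K] Module.End K M :=
    AddMonoidAlgebra.lift K (Module.End K M) ℤ ((conjRep S).comp (zpowersHom (Gam K) τ))
  have hΛ : ∀ j : ℤ, Λ (T j) = conjRep S (τ ^ j) := by
    intro j
    change AddMonoidAlgebra.lift K (Module.End K M) ℤ _ (AddMonoidAlgebra.single j 1) = _
    rw [AddMonoidAlgebra.lift_single, one_smul]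
    rfl
  have hΛ0 : ∀ (r : R K) (y : M), y.1 = 0 → Λ r y ∈ Submodule.span K {y} := by
    intro r y hy
    induction r using LaurentPolynomial.induction_on' with
    | add p q hp hq =>
      rw [map_add, LinearMap.add_apply]
      exact add_mem hp hq
    | C_mul_T n a =>
      rw [← smul_eq_C_mul, map_smul, hΛ, LinearMap.smul_apply, conjRep_of_fst_zero S _ y hy]
      exact Submodule.smul_mem _ _ (Submodule.subset_span rfl)
  have hXA : ∀ x ∈ X, x ∈ A := fun x hx => hX ▸ Subgroup.subset_closure hx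
  let bx : Gam K → Gam K := fun x => x * τ ^ (-(x.n / τ.n))
  have hbx0 : ∀ x ∈ A, (bx x).n = 0 := by
    intro x hx
    obtain ⟨j, hj⟩ := hdvd x hx
    change (x * τ ^ (-(x.n / τ.n))).n = 0
    rw [mul_n, zpow_n, hj, Int.mul_ediv_cancel_left _ hpos.ne']
    ring
  have hbxA : ∀ x ∈ A, bx x ∈ A := fun x hx => mul_mem hx (zpow_mem hτ _)
  let Φ : (X → R K) →ₗ[K] M :=
    { toFun := fun κ => ∑ i : X, Λ (κ i) (tl S (bx i))
      map_add' := by
        intro a b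
        simp [Finset.sum_add_distrib]
      map_smul' := by
        intro a b
        simp [Finset.smul_sum] }
  have hΦ : ∀ (r : R K) (κ : X → R K), Φ (r • κ) = Λ r (Φ κ) := by
    intro r κ
    change ∑ i : X, Λ (r * κ i) (tl S (bx i)) = Λ r (∑ i : X, Λ (κ i) (tl S (bx i)))
    rw [map_sum]
    simp
  have hcf : ∀ a ∈ A, a.n = 0 → ∀ b ∈ A, b.n = 0 → cf a.v b.v ∈ S := fun a ha h0 b hb h1 =>
    Submodule.apply_mem_map₂ cf ⟨a, ha, h0, rfl⟩ ⟨b, hb, h1, rfl⟩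
  have hrange : ∀ a ∈ A, ∃ j : ℤ, ∃ b ∈ A, b.n = 0 ∧ a = b * τ ^ j ∧
      tl S b ∈ LinearMap.range Φ := by
    intro a ha
    rw [← hX] at ha
    induction ha using Subgroup.closure_induction with
    | mem x hx =>
      refine ⟨x.n / τ.n, bx x, hbxA x (hXA x hx), hbx0 x (hXA x hx), ?_,
        Pi.single (⟨x, hx⟩ : X) 1, ?_⟩
      · change x = x * τ ^ (-(x.n / τ.n)) * τ ^ (x.n / τ.n)
        group
      · change ∑ i : X, Λ ((Pi.single (⟨x, hx⟩ : X) (1 : R K) : X → R K) i) (tl S (bx i)) = _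
        rw [Finset.sum_eq_single (⟨x, hx⟩ : X)]
        · simp
        · intro i _ hi
          simp [Pi.single_eq_of_ne hi]
        · simp
    | one =>
      refine ⟨0, 1, one_mem _, rfl, by simp, ?_⟩
      have : tl S (1 : Gam K) = 0 := by simp [tl]
      rw [this]
      exact zero_mem _
    | mul x y _ _ hx hy =>
      obtain ⟨j, b, hb, hb0, rfl, hbΦ⟩ := hx
      obtain ⟨j', b', hb', hb0', rfl, κ, hκ⟩ := hy
      have hc : τ ^ j * b' * (τ ^ j)⁻¹ ∈ A :=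
        mul_mem (mul_mem (zpow_mem hτ _) hb') (inv_mem (zpow_mem hτ _))
      have hc0 : (τ ^ j * b' * (τ ^ j)⁻¹).n = 0 := by rw [conj_n, hb0']
      refine ⟨j + j', b * (τ ^ j * b' * (τ ^ j)⁻¹), mul_mem hb hc, by rw [mul_n, hb0, hc0]; rfl,
        by group, ?_⟩
      rw [tl_mul S _ _ hb0 (hcf _ hb hb0 _ hc hc0), tl_conj S _ _ hb0', ← hΛ, ← hκ, ← hΦ]
      exact add_mem hbΦ ⟨_, rfl⟩
    | inv x _ hx =>
      obtain ⟨j, b, hb, hb0, rfl, κ, hκ⟩ := hx
      have hi0 : (b⁻¹).n = 0 := by rw [inv_n, hb0]; rfl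
      refine ⟨-j, τ ^ (-j) * b⁻¹ * (τ ^ (-j))⁻¹,
        mul_mem (mul_mem (zpow_mem hτ _) (inv_mem hb)) (inv_mem (zpow_mem hτ _)),
        by rw [conj_n, hi0], by group, ?_⟩
      rw [tl_conj S _ _ hi0, tl_inv S _ hb0, ← hΛ, ← hκ, ← map_neg, ← hΦ]
      exact ⟨_, rfl⟩
  let Kr : Submodule (R K) (X → R K) :=
    { carrier := {κ | (Φ κ).1 = 0}
      add_mem' := by
        intro a b ha hb
        change (Φ (a + b)).1 = 0
        rw [map_add, Prod.fst_add, ha, hb, add_zero]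
      zero_mem' := by
        change (Φ 0).1 = 0
        rw [map_zero]
        rfl
      smul_mem' := by
        intro r κ hκ
        change (Φ (r • κ)).1 = 0
        rw [hΦ]
        obtain ⟨c, hc⟩ := Submodule.mem_span_singleton.1 (hΛ0 r (Φ κ) hκ)
        rw [← hc, Prod.smul_fst, hκ, smul_zero] }
  have : IsNoetherianRing (R K) := Algebra.FiniteType.isNoetherianRing K (R K)
  obtain ⟨G0, hG0⟩ : Kr.FG := IsNoetherian.noetherian Kr
  have hspan : ∀ κ ∈ Kr, Φ κ ∈ Submodule.span K (Φ '' (G0 : Set (X → R K))) := by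
    intro κ hκ
    rw [← hG0] at hκ
    induction hκ using Submodule.span_induction with
    | mem x hx => exact Submodule.subset_span ⟨x, hx, rfl⟩
    | zero => rw [map_zero]; exact zero_mem _
    | add x y _ _ hx hy => rw [map_add]; exact add_mem hx hy
    | smul r x hx ih =>
      rw [hG0] at hx
      rw [hΦ]
      obtain ⟨c, hc⟩ := Submodule.mem_span_singleton.1 (hΛ0 r (Φ x) hx)
      rw [← hc]
      exact Submodule.smul_mem _ _ ih
  have hfg : ((CW A).map S.mkQ).FG := by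
    have hfg0 : ((Submodule.span K (Φ '' (G0 : Set (X → R K)))).map
        (LinearMap.snd K (V K) (V K ⧸ S))).FG :=
      (Submodule.fg_span (G0.finite_toSet.image _)).map _
    refine Submodule.FG.of_le hfg0 ?_
    rintro _ ⟨w, hw, rfl⟩
    obtain ⟨j, b, hb, hb0, hbj, κ, hκ⟩ := hrange (cen w) hw
    have hj : j = 0 := by
      have := congrArg Gam.n hbj
      rw [mul_n, zpow_n, hb0, cen_n, zero_add] at this
      rcases mul_eq_zero.1 this.symm with h | h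
      · exact h
      · omega
    rw [hj, zpow_zero, mul_one] at hbj
    rw [← hbj] at hκ
    have hκK : κ ∈ Kr := by
      change (Φ κ).1 = 0
      rw [hκ]
      rfl
    refine ⟨Φ κ, hspan κ hκK, ?_⟩
    rw [hκ]
    rfl
  obtain ⟨Y, hY⟩ := hfg
  have hlift : ∀ y ∈ Y, ∃ w ∈ CW A, S.mkQ w = y := by
    intro y hy
    have : y ∈ (CW A).map S.mkQ := hY ▸ Submodule.subset_span hy
    exact this
  choose! lf hlf1 hlf2 using hlift
  refine ⟨lf '' Y, Y.finite_toSet.image _, le_antisymm ?_ (sup_le (SW_le_CW A) ?_)⟩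
  · intro w hw
    have h1 : S.mkQ w ∈ (Submodule.span K (lf '' Y)).map S.mkQ := by
      have : S.mkQ w ∈ Submodule.span K (Y : Set (V K ⧸ S)) := hY ▸ ⟨w, hw, rfl⟩
      refine Submodule.span_le.2 ?_ this
      intro y hy
      exact ⟨lf y, Submodule.subset_span ⟨y, hy, rfl⟩, hlf2 y hy⟩
    obtain ⟨e, he, hew⟩ := h1
    refine Submodule.mem_sup.2 ⟨w - e, ?_, e, he, by abel⟩
    exact (Submodule.Quotient.eq S).1 hew.symm
  · rw [Submodule.span_le]
    rintro _ ⟨y, hy, rfl⟩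
    exact hlf1 y hy

end Pool.Agent.Lib.MP_7bd500_al
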