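import Pool.Agent.Lib.MP_7bd500_al.Rel
import Pool.Agent.Lib.MP_7bd500_al.Amen

/-
The finitely generated group and its properties.
-/

set_option autoImplicit false

namespace Pool.Agent.Lib.MP_7bd500_al

open LaurentPolynomial Filter Topology

variable {K : Type} [Field K]

variable (K) in
/-- The shift generator. -/
noncomputable def gt : Gam K := ⟨0, 0, 1⟩

variable (K) in
/-- The first lamp generator. -/
noncomputable def gh : Gam K := ⟨hh K, 0, 0⟩

variable (K) in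
/-- The second lamp generator. -/
noncomputable def ge : Gam K := ⟨ee K, 0, 0⟩

variable (K) in
/-- The subgroup generated by the three generators. -/
noncomputable def G0 : Subgroup (Gam K) := Subgroup.closure {gt K, gh K, ge K}

theorem gt_mem : gt K ∈ G0 K := Subgroup.subset_closure (by simp)
theorem gh_mem : gh K ∈ G0 K := Subgroup.subset_closure (by simp)
theorem ge_mem : ge K ∈ G0 K := Subgroup.subset_closure (by simp)

theorem gt_zpow_n (j : ℤ) : (gt K ^ j).n = j := by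
  rw [zpow_n]
  exact mul_one j

theorem solvable_Gam : Group.IsSolvable (Gam K) := by
  refine ⟨⟨3, ?_⟩⟩
  have h1 : derivedSeries (Gam K) 1 ≤ (chi (K := K)).ker := by
    rw [derivedSeries_succ, Subgroup.commutator_le]
    intro a _ b _
    rw [MonoidHom.mem_ker, map_commutatorElement, commutatorElement_eq_one_iff_mul_comm, mul_comm]
  have h2 : derivedSeries (Gam K) 2 ≤ cenSub ⊤ := by
    rw [derivedSeries_succ, Subgroup.commutator_le]
    intro a ha b hb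
    have ha0 : a.n = 0 := h1 ha
    have hb0 : b.n = 0 := h1 hb
    rw [commutatorElement_def, commutator_eq a b ha0 hb0]
    exact cen_mem_cenSub.2 Submodule.mem_top
  rw [derivedSeries_succ, eq_bot_iff, Subgroup.commutator_le]
  intro a ha b _
  rw [Subgroup.mem_bot, commutatorElement_eq_one_iff_mul_comm, eq_cen (h2 ha).1 (h2 ha).2.2,
    cen_comm]

theorem BV_G0 [PrimeOdd K] (v : V K) : v ∈ BV (G0 K) := by
  have hsh : ∀ (j : ℤ) (x : V K), x ∈ BV (G0 K) → sh j x ∈ BV (G0 K) := by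
    intro j x hx
    rw [← gt_zpow_n (K := K) j]
    exact sh_mem_BV (fun a ha => mul_mem (mul_mem (zpow_mem gt_mem _) ha)
      (inv_mem (zpow_mem gt_mem _))) hx
  have key : ∀ x : V K, x ∈ BV (G0 K) → ∀ p : R K, p • x ∈ BV (G0 K) := by
    intro x hx p
    induction p using LaurentPolynomial.induction_on' with
    | add p q hp hq => rw [add_smul]; exact add_mem hp hq
    | C_mul_T n a =>
      rw [← smul_eq_C_mul, smul_assoc]
      exact Submodule.smul_mem _ _ (hsh n x hx)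
  have : v = v.1 • hh K + v.2 • ee K := by
    refine Prod.ext ?_ ?_ <;> simp [hh, ee]
  rw [this]
  exact add_mem (key _ ⟨gh K, gh_mem, rfl, rfl⟩ _) (key _ ⟨ge K, ge_mem, rfl, rfl⟩ _)

theorem cen_w0_mem : cen (w0 K) ∈ G0 K := by
  have hb : (gt K * ge K * (gt K)⁻¹).n = 0 := by rw [conj_n]; rfl
  have hv : (gt K * ge K * (gt K)⁻¹).v = sh 1 (ee K) := conj_v _ _ rfl
  have := commutator_eq (ge K) _ rfl hb
  rw [hv] at this
  have h2 : gt K * ge K * (gt K)⁻¹ ∈ G0 K := mul_mem (mul_mem gt_mem ge_mem) (inv_mem gt_mem)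
  change cen (cf (ge K).v (sh 1 (ee K)) + cf (ge K).v (sh 1 (ee K))) ∈ G0 K
  rw [← this]
  exact mul_mem (mul_mem (mul_mem ge_mem h2) (inv_mem ge_mem)) (inv_mem h2)

variable (K) in
/-- The normal subgroup containing the first lamp generator. -/
noncomputable def Hs : Subgroup (Gam K) := box (UU K) (UU K) (by
  intro v hv v' hv'
  rw [mem_UU] at hv hv' ⊢
  simp [cf_snd, hv, hv'])

instance : (Hs K).Normal := by
  refine ⟨fun a ha g => ?_⟩
  obtain ⟨h1, h2, h3⟩ := ha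
  rw [mem_UU] at h1 h2
  refine ⟨?_, ?_, ?_⟩
  · rw [conj_v g a h3, mem_UU, sh_snd, h1, mul_zero]
  · rw [conj_w g a h3, mem_UU]
    simp [cf_snd, h1, h2]
  · rw [conj_n, h3]

theorem cen_mem_sup {S : Submodule K (V K)} {m : ℕ} {w : V K}
    (h : cen w ∈ Hs K ⊔ cenSub S ⊔ Cong K m) : w ∈ UU K ⊔ S ⊔ J K m := by
  obtain ⟨y, hy, γ, hγ, h1⟩ := Subgroup.mem_sup_of_normal_right.1 h
  obtain ⟨a, ha, c, hc, rfl⟩ := Subgroup.mem_sup_of_normal_right.1 hy
  have h2 := congrArg Gam.w h1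
  have ha0 : a.n = 0 := ha.2.2
  simp only [mul_w, mul_v, mul_n, cen_w, hc.1, hc.2.2, ha0, map_zero, add_zero, sh_zero] at h2
  rw [← h2]
  exact add_mem (add_mem (Submodule.mem_sup_left (add_mem (Submodule.mem_sup_left ha.2.1)
    (Submodule.mem_sup_right hc.2.1))) (Submodule.mem_sup_right hγ.2.1))
    (Submodule.mem_sup_right (cf_mem_J_right _ hγ.1))

theorem eventually_mem_span (r : ℕ → V K) {ρ : V K} (hρ : ρ ∈ Submodule.span K (Set.range r)) :
    ∀ᶠ n in atTop, ρ ∈ Submodule.span K (r '' Set.Iio n) := by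
  obtain ⟨b, N, -, -, rfl⟩ := exists_coeffs r hρ 0
  filter_upwards [eventually_ge_atTop N] with n hn
  exact Submodule.sum_mem _ fun j hj => Submodule.smul_mem _ _
    (Submodule.subset_span ⟨j, lt_of_lt_of_le (Finset.mem_Ico.1 hj).2 hn, rfl⟩)

section
variable {G : Type} [Group G] {Rel : Submodule K (V K)} (p : G0 K →* G)
  (hp : Function.Surjective p) (hker : ∀ a : G0 K, p a = 1 ↔ (a : Gam K) ∈ cenSub Rel)

include hp in
theorem fg_of : Group.FG G := by
  have : Group.FG (G0 K) := (Group.fg_iff_subgroup_fg _).2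
    ((Subgroup.fg_iff _).2 ⟨_, rfl, Set.toFinite _⟩)
  exact Group.fg_of_surjective hp

include hp in
theorem solvable_of : Group.IsSolvable G := by
  have := solvable_Gam (K := K)
  exact Group.isSolvable_of_surjective hp

include hp in
theorem amenable_of [Finite K] :
    ∃ μ : Set G → ℝ, (∀ A, 0 ≤ μ A) ∧ μ Set.univ = 1 ∧
      (∀ A B : Set G, Disjoint A B → μ (A ∪ B) = μ A + μ B) ∧
      ∀ (g : G) (A : Set G), μ ((fun x => g * x) '' A) = μ A := by
  let t0 : G0 K := ⟨gt K, gt_mem⟩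
  let X0 : Set (G0 K) := {⟨gh K, gh_mem⟩, ⟨ge K, ge_mem⟩}
  refine amenable_of_gens (p t0) (p '' X0) ?_ ?_
  · have h1 : Subgroup.closure (insert t0 X0) = ⊤ := by
      have h0 : insert t0 X0 = (G0 K).subtype ⁻¹' ({gt K, gh K, ge K} : Set (Gam K)) := by
        ext x
        simp [t0, X0, Subtype.ext_iff]
      rw [h0]
      exact Subgroup.closure_preimage_eq_top ({gt K, gh K, ge K} : Set (Gam K))
    rw [← Set.image_insert_eq, ← MonoidHom.map_closure, h1]
    exact Subgroup.map_top_of_surjective p hp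
  · intro L
    let Y0 : Set (G0 K) := {y | ∃ j : ℕ, j < L ∧ ∃ x ∈ X0, y = (t0 ^ j)⁻¹ * x * t0 ^ j}
    have hY0 : Y0.Finite := by
      refine Set.Finite.subset (((Set.finite_Iio L).prod (Set.toFinite X0)).image
        (fun q : ℕ × G0 K => (t0 ^ q.1)⁻¹ * q.2 * t0 ^ q.1)) ?_
      rintro _ ⟨j, hj, x, hx, rfl⟩
      exact ⟨(j, x), ⟨hj, hx⟩, rfl⟩
    have h1 : {y | ∃ j : ℕ, j < L ∧ ∃ x ∈ p '' X0, y = (p t0 ^ j)⁻¹ * x * p t0 ^ j} = p '' Y0 := by
      ext y
      constructor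
      · rintro ⟨j, hj, _, ⟨x, hx, rfl⟩, rfl⟩
        exact ⟨_, ⟨j, hj, x, hx, rfl⟩, by simp⟩
      · rintro ⟨_, ⟨j, hj, x, hx, rfl⟩, rfl⟩
        exact ⟨j, hj, _, ⟨x, hx, rfl⟩, by simp⟩
    rw [h1, ← MonoidHom.map_closure, Subgroup.coe_map]
    refine Set.Finite.image _ ?_
    refine Set.Finite.of_finite_image (f := (G0 K).subtype) ?_ (G0 K).subtype_injective.injOn
    rw [← Subgroup.coe_map, MonoidHom.map_closure]
    refine closure_finite (hY0.image _) ?_
    rintro _ ⟨_, ⟨j, hj, x, hx, rfl⟩, rfl⟩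
    have hx0 : (x : Gam K).n = 0 := by
      rcases hx with rfl | rfl <;> rfl
    simp [hx0]

include hp hker in
theorem lerf_of [Finite K] [PrimeOdd K]
    (hcl : ∀ A : Subgroup (Gam K), A.FG → Closed (CW A ⊔ Rel)) (H : Subgroup G) (hH : H.FG)
    (g : G) (hg : g ∉ H) : ∃ L : Subgroup G, L.FiniteIndex ∧ H ≤ L ∧ g ∉ L := by
  obtain ⟨Y, hY, hYf⟩ := (Subgroup.fg_iff _).1 hH
  choose lf hlf using hp
  let A0 : Subgroup (G0 K) := Subgroup.closure (lf '' Y)
  have hA0 : A0.map p = H := by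
    rw [MonoidHom.map_closure, ← Set.image_comp, ← hY]
    congr 1
    simp [hlf]
  let A : Subgroup (Gam K) := A0.map (G0 K).subtype
  have hA : A.FG := by
    refine (Subgroup.fg_iff _).2 ⟨_, (MonoidHom.map_closure _ _).symm, (hYf.image _).image _⟩
  have hnot : ¬ InCl A Rel (lf g) := by
    intro h
    obtain ⟨_, ⟨a, ha, rfl⟩, ρ, hρ, h1⟩ := h.mem hA (hcl A hA)
    apply hg
    have h2 : p (a⁻¹ * lf g) = 1 := by
      rw [hker, Subgroup.coe_mul, Subgroup.coe_inv, h1]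
      simpa using cen_mem_cenSub.2 hρ
    rw [map_mul, map_inv, hlf, inv_mul_eq_one] at h2
    rw [← h2, ← hA0]
    exact ⟨a, ha, rfl⟩
  have : ∃ m : ℕ, 0 < m ∧ ((lf g : G0 K) : Gam K) ∉ A ⊔ cenSub Rel ⊔ Cong K m := by
    by_contra hc
    push Not at hc
    apply hnot
    intro m hm
    obtain ⟨y, hy, γ, hγ, h1⟩ := Subgroup.mem_sup_of_normal_right.1 (hc m hm)
    obtain ⟨a, ha, c, hc, rfl⟩ := Subgroup.mem_sup_of_normal_right.1 hy
    refine ⟨a, ha, c.w, hc.2.1, γ, hγ, ?_⟩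
    rw [← eq_cen hc.1 hc.2.2, h1]
  obtain ⟨m, hm, hgm⟩ := this
  have := finiteIndex_Cong (K := K) hm
  have h3 : (A ⊔ cenSub Rel ⊔ Cong K m).FiniteIndex := Subgroup.finiteIndex_of_le le_sup_right
  let L0 : Subgroup (G0 K) := (A ⊔ cenSub Rel ⊔ Cong K m).subgroupOf (G0 K)
  have h4 : L0.FiniteIndex := inferInstance
  refine ⟨L0.map p, ⟨fun h0 => h4.index_ne_zero ?_⟩, ?_, ?_⟩
  · exact Nat.eq_zero_of_zero_dvd (h0 ▸ L0.index_map_dvd fun x => ⟨lf x, hlf x⟩)
  · rw [← hA0]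
    refine Subgroup.map_mono fun a ha => ?_
    exact Subgroup.mem_sup_left (Subgroup.mem_sup_left ⟨a, ha, rfl⟩)
  · rintro ⟨l, hl, h1⟩
    apply hgm
    have h2 : p (l⁻¹ * lf g) = 1 := by rw [map_mul, map_inv, hlf, h1, inv_mul_cancel]
    rw [hker] at h2
    have h5 : ((lf g : G0 K) : Gam K) = l * ((l⁻¹ * lf g : G0 K) : Gam K) := by simp
    rw [h5]
    exact mul_mem hl (Subgroup.mem_sup_left (Subgroup.mem_sup_right h2))

include hker in
theorem comm_of [PrimeOdd K]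
    (hrel : ∀ m : ℕ, 0 < m → ∃ (v : V K) (M : ℕ) (ζ : R K), m ∣ M ∧
      w0 K + om v (sh M v) - om (hh K) (0, ζ) ∈ Rel)
    (X : Type) [Finite X] (ψ : G →* Equiv.Perm X) :
    ∃ v, ψ (p ⟨cen (w0 K), cen_w0_mem⟩)
      = ψ (p ⟨gh K, gh_mem⟩ * v * (p ⟨gh K, gh_mem⟩)⁻¹ * v⁻¹) := by
  obtain ⟨v, M, ζ, ⟨c, hc⟩, hrel⟩ := hrel (Nat.card (Equiv.Perm X)) Nat.card_pos
  obtain ⟨a, ha, ha0, rfl⟩ := BV_G0 v
  obtain ⟨b, hb, hb0, hbv⟩ := BV_G0 ((0, ζ) : V K)
  let a0 : G0 K := ⟨a, ha⟩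
  let b0 : G0 K := ⟨b, hb⟩
  let h0 : G0 K := ⟨gh K, gh_mem⟩
  let z0 : G0 K := ⟨cen (w0 K), cen_w0_mem⟩
  let u0 : G0 K := (⟨gt K, gt_mem⟩ : G0 K) ^ M
  have hu : ψ (p u0) = 1 := by
    simp only [u0, map_pow, hc, pow_mul, pow_card_eq_one', one_pow]
  have hun : (u0 : Gam K).n = M := by
    change (gt K ^ M).n = M
    rw [← zpow_natCast, gt_zpow_n]
  have e1 := commutator_eq a ((u0 : Gam K) * a * (u0 : Gam K)⁻¹) ha0 (by rw [conj_n, ha0])
  rw [conj_v _ _ ha0, hun] at e1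
  have e2 := commutator_eq (gh K) b rfl hb0
  rw [hbv] at e2
  have h1 : p (z0 * (a0 * (u0 * a0 * u0⁻¹) * a0⁻¹ * (u0 * a0 * u0⁻¹)⁻¹)
      * (h0 * b0 * h0⁻¹ * b0⁻¹)⁻¹) = 1 := by
    rw [hker]
    change cen (w0 K) * (a * ((u0 : Gam K) * a * (u0 : Gam K)⁻¹) * a⁻¹
      * ((u0 : Gam K) * a * (u0 : Gam K)⁻¹)⁻¹) * (gh K * b * (gh K)⁻¹ * b⁻¹)⁻¹ ∈ cenSub Rel
    rw [e1, e2, ← cen_neg, ← cen_add, ← cen_add, cen_mem_cenSub, ← sub_eq_add_neg]
    exact hrel
  have h2 := congrArg ψ h1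
  rw [map_mul, map_mul, map_inv, map_mul, map_inv, map_one, mul_inv_eq_one, map_mul ψ] at h2
  refine ⟨p b0, ?_⟩
  have h3 : ψ (p (a0 * (u0 * a0 * u0⁻¹) * a0⁻¹ * (u0 * a0 * u0⁻¹)⁻¹)) = 1 := by
    simp only [map_mul, map_inv, hu]
    group
  rw [h3, mul_one] at h2
  rw [h2]
  simp only [map_mul, map_inv, h0]

include hp hker in
theorem approx_of [Finite K] {r : ℕ → V K} (hr : Rel = Submodule.span K (Set.range r))
    (hw : w0 K ∉ UU K ⊔ Rel) {S : Type} (π : FreeGroup S →* G) :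
    ∃ (X : ℕ → Type) (_ : ∀ n, Finite (X n)) (_ : ∀ n, Nonempty (X n))
      (φ : ∀ n, FreeGroup S →* Equiv.Perm (X n)),
      (∀ w, π w = 1 → ∀ᶠ n in atTop, φ n w = 1) ∧
      (∀ w, π w = p ⟨gh K, gh_mem⟩ → ∀ᶠ n in atTop, φ n w = 1) ∧
      (∀ w, π w = p ⟨cen (w0 K), cen_w0_mem⟩ → ∀ᶠ n in atTop, ∀ x, φ n w x ≠ x) := by
  have hU : Closed (UU K) := by
    refine closed_of_stable one_pos _ fun y hy => ?_
    rw [mem_UU] at hy ⊢
    rw [Prod.smul_snd, hy, smul_zero]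
  have hm : ∀ n : ℕ, ∃ m : ℕ, 0 < m ∧
      w0 K ∉ UU K ⊔ Submodule.span K (r '' Set.Iio n) ⊔ J K m := by
    intro n
    by_contra hc
    push Not at hc
    apply hw
    rw [hr]
    exact sup_le_sup_left (Submodule.span_mono (Set.image_subset_range r (Set.Iio n))) (UU K)
      (hU.sup_span ((Set.finite_Iio n).image r) _ hc)
  choose m hm0 hm using hm
  let N : ℕ → Subgroup (Gam K) := fun n =>
    Hs K ⊔ cenSub (Submodule.span K (r '' Set.Iio n)) ⊔ Cong K (m n)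
  have hNn : ∀ n, (N n).Normal := fun n => inferInstance
  have hNf : ∀ n, (N n).FiniteIndex := by
    intro n
    have := finiteIndex_Cong (K := K) (hm0 n)
    exact Subgroup.finiteIndex_of_le le_sup_right
  choose lf hlf using hp
  let πt : FreeGroup S →* G0 K := FreeGroup.lift fun s => lf (π (FreeGroup.of s))
  have hπt : ∀ w, p (πt w) = π w := by
    have : p.comp πt = π := by
      ext s
      simp [πt, hlf]
    exact fun w => DFunLike.congr_fun this w
  have hev : ∀ (w : FreeGroup S) (a : G0 K), π w = p a →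
      ∀ᶠ n in atTop, (a : Gam K)⁻¹ * πt w ∈ N n := by
    intro w a hwa
    have h1 : p (a⁻¹ * πt w) = 1 := by rw [map_mul, map_inv, hπt, hwa, inv_mul_cancel]
    rw [hker] at h1
    have h2 := h1.2.1
    rw [hr] at h2
    filter_upwards [eventually_mem_span r h2] with n hn
    exact Subgroup.mem_sup_left (Subgroup.mem_sup_right ⟨h1.1, hn, h1.2.2⟩)
  have htriv : ∀ n, ∀ g ∈ N n, MulAction.toPermHom (Gam K) (Gam K ⧸ N n) g = 1 := by
    intro n g hg
    rw [← MonoidHom.mem_ker, ← Subgroup.normalCore_eq_ker, Subgroup.normalCore_eq_self]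
    exact hg
  refine ⟨fun n => Gam K ⧸ N n, fun n => inferInstance, fun n => inferInstance,
    fun n => (MulAction.toPermHom (Gam K) (Gam K ⧸ N n)).comp ((G0 K).subtype.comp πt),
    ?_, ?_, ?_⟩
  · intro w hw1
    filter_upwards [hev w 1 (by rw [hw1, map_one])] with n hn
    exact htriv n _ (by simpa using hn)
  · intro w hw1
    filter_upwards [hev w _ hw1] with n hn
    have h1 : gh K ∈ N n :=
      Subgroup.mem_sup_left (Subgroup.mem_sup_left ⟨rfl, zero_mem _, rfl⟩)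
    exact htriv n _ (by simpa using mul_mem h1 hn)
  · intro w hw1
    filter_upwards [hev w _ hw1] with n hn x hx
    obtain ⟨y, rfl⟩ := QuotientGroup.mk_surjective x
    have h1 : (((πt w : Gam K) * y : Gam K) : Gam K ⧸ N n) = (y : Gam K ⧸ N n) := hx
    have h2 := (hNn n).conj_mem _ (QuotientGroup.eq.1 h1) y
    have h3 : (cen (w0 K))⁻¹ ∈ N n := by
      have := mul_mem hn h2
      simpa [mul_assoc] using this
    exact hm n (cen_mem_sup ((Subgroup.inv_mem_iff _).1 h3))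

end

instance : Fact (Nat.Prime 3) := ⟨by norm_num⟩

instance : PrimeOdd (ZMod 3) where
  cast a := ⟨a.val, (ZMod.natCast_zmod_val a).symm⟩
  two := by decide

theorem main : ∃ (G : Type) (_ : Group G), Group.FG G ∧ Group.IsSolvable G ∧
    (∃ μ : Set G → ℝ, (∀ A, 0 ≤ μ A) ∧ μ Set.univ = 1 ∧
      (∀ A B : Set G, Disjoint A B → μ (A ∪ B) = μ A + μ B) ∧
      ∀ (g : G) (A : Set G), μ ((fun x => g * x) '' A) = μ A) ∧
    (∀ H : Subgroup G, H.FG → ∀ g, g ∉ H → ∃ L : Subgroup G, L.FiniteIndex ∧ H ≤ L ∧ g ∉ L) ∧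
    ∀ (S : Type) (π : FreeGroup S →* G), Function.Surjective π →
      ∃ (X : ℕ → Type) (_ : ∀ n, Finite (X n)) (φ : ∀ n, FreeGroup S →* Equiv.Perm (X n)),
        (∀ w, π w = 1 → ∀ᶠ n in atTop, φ n w = 1) ∧
        ¬ ∃ ψ : ∀ n, FreeGroup S →* Equiv.Perm (X n), (∀ n, π.ker ≤ (ψ n).ker) ∧
          ∀ s, Tendsto (fun n => (dif (φ n (FreeGroup.of s)) (ψ n (FreeGroup.of s)) : ℝ)
            / Nat.card (X n)) atTop (𝓝 0) := by
  obtain ⟨r, h1, h2, h3⟩ := exists_Rel (K := ZMod 3)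
  let Rel := Submodule.span (ZMod 3) (Set.range r)
  let p := QuotientGroup.mk' ((cenSub Rel).subgroupOf (G0 (ZMod 3)))
  have hp : Function.Surjective p := QuotientGroup.mk'_surjective _
  have hker : ∀ a : G0 (ZMod 3), p a = 1 ↔ (a : Gam (ZMod 3)) ∈ cenSub Rel := fun a =>
    QuotientGroup.eq_one_iff a
  refine ⟨_, inferInstance, fg_of p hp, solvable_of p hp, amenable_of p hp,
    lerf_of p hp hker h1, fun S π hπ => ?_⟩
  obtain ⟨X, hX1, hX2, φ, a1, a2, a3⟩ := approx_of p hp hker rfl h2 π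
  exact ⟨X, hX1, φ, a1, not_stable π hπ _ _ (comm_of p hker h3) X φ a2 a3⟩

end Pool.Agent.Lib.MP_7bd500_al
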