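import Pool.Agent.Lib.MP_7bd500_al.Sparse
import Pool.Agent.Lib.MP_7bd500_al.Lerf

/-
Construction of the central subspace of relators.
-/

set_option autoImplicit false

namespace Pool.Agent.Lib.MP_7bd500_al

open LaurentPolynomial

variable {K : Type} [Field K]

variable (K) in
/-- The first basis vector. -/
noncomputable def hh : V K := (1, 0)

variable (K) in
/-- The second basis vector. -/
noncomputable def ee : V K := (0, 1)

variable (K) in
/-- The subspace of vectors with vanishing second coordinate. -/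
noncomputable def UU : Submodule K (V K) := LinearMap.ker (LinearMap.snd K (R K) (R K))

theorem mem_UU {x : V K} : x ∈ UU K ↔ x.2 = 0 := Iff.rfl

/-- The commutator form. -/
noncomputable def om (v v' : V K) : V K := cf v v' + cf v v'

variable (K) in
/-- The distinguished central element. -/
noncomputable def w0 : V K := om (ee K) (sh 1 (ee K))

theorem T_ne {m n : ℤ} (h : m ≠ n) : (T m : R K) ≠ T n := by
  intro h'
  have := congrArg degree h'
  rw [degree_T, degree_T] at this
  exact h (by exact_mod_cast this)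

theorem two_ne [PrimeOdd K] : (2 : R K) ≠ 0 := by
  have : (2 : R K) = algebraMap K (R K) 2 := (map_ofNat _ 2).symm
  rw [this]
  exact (map_ne_zero_iff _ (algebraMap K (R K)).injective).2 PrimeOdd.two

theorem om_sh_snd_ne [PrimeOdd K] {v : V K} (hv : v.2 ≠ 0) {M : ℤ} (hM : 0 < M) :
    (om v (sh M v)).2 ≠ 0 := by
  have : (om v (sh M v)).2 = 2 * (invert v.2 * v.2 * (T M - T (-M))) := by
    simp only [om, Prod.snd_add, cf_snd, sh_snd, map_mul, invert_T]
    ring
  rw [this]
  refine mul_ne_zero two_ne (mul_ne_zero (mul_ne_zero ?_ hv) (sub_ne_zero.2 (T_ne (by omega))))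
  exact (map_ne_zero_iff _ invert.injective).2 hv

theorem om_hh (ζ : R K) : om (hh K) (0, ζ) = (2 * ζ, 0) := by
  refine Prod.ext ?_ ?_
  · simp [om, cf_fst, hh, two_mul]
  · simp [om, cf_snd, hh]

theorem countable_V [Finite K] : Countable (V K) := by
  have : Countable (R K) :=
    Function.Injective.countable (f := fun p : R K => p.coeff)
      (fun _ _ h => LaurentPolynomial.ext fun a => congrArg (fun f : ℤ →₀ K => f a) h)
  infer_instance

theorem countable_stable [Finite K] :
    {S : Submodule K (V K) | ∃ d : ℤ, 0 < d ∧ ∀ x ∈ S, sy K d • x ∈ S}.Countable := by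
  have := countable_V (K := K)
  have h : {S : Submodule K (V K) | ∃ d : ℤ, 0 < d ∧ ∀ x ∈ S, sy K d • x ∈ S} ⊆
      ⋃ d : ℤ, Set.range (fun G : Finset (V K) =>
        (Submodule.span (P K d) (G : Set (V K))).restrictScalars K) := by
    rintro S ⟨d, hd, hS⟩
    have := finite_P (K := K) hd
    have : IsNoetherianRing (P K d) := Algebra.FiniteType.isNoetherianRing K (P K d)
    obtain ⟨G, hG⟩ : (toP d S hS).FG := IsNoetherian.noetherian _
    refine Set.mem_iUnion.2 ⟨d, G, ?_⟩
    change (Submodule.span (P K d) (G : Set (V K))).restrictScalars K = S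
    rw [hG]
    rfl
  exact (Set.countable_iUnion fun d => Set.countable_range _).mono h

theorem exists_Rel [Finite K] [PrimeOdd K] : ∃ r : ℕ → V K,
    (∀ A : Subgroup (Gam K), A.FG → Closed (CW A ⊔ Submodule.span K (Set.range r))) ∧
    w0 K ∉ UU K ⊔ Submodule.span K (Set.range r) ∧
    ∀ m : ℕ, 0 < m → ∃ (v : V K) (M : ℕ) (ζ : R K), m ∣ M ∧
      w0 K + om v (sh M v) - om (hh K) (0, ζ) ∈ Submodule.span K (Set.range r) := by
  classical
  have := countable_V (K := K)
  obtain ⟨x, hx⟩ := exists_surjective_nat (V K)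
  obtain ⟨f, hf⟩ := (countable_stable (K := K)).exists_eq_range ⟨⊥, 1, one_pos, by simp⟩
  have hUst : ∀ y ∈ UU K, sy K 1 • y ∈ UU K := by
    intro y hy
    rw [mem_UU] at hy ⊢
    rw [Prod.smul_snd, hy, smul_zero]
  let S : ℕ → Submodule K (V K) := fun i => Nat.casesOn i (UU K) f
  have hS : ∀ i, Closed (S i) := by
    intro i
    cases i with
    | zero => exact closed_of_stable one_pos _ hUst
    | succ i =>
      have : f i ∈ Set.range f := ⟨i, rfl⟩
      rw [← hf] at this
      obtain ⟨d, hd, h⟩ := this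
      exact closed_of_stable hd _ h
  let vs : ℕ → V K := fun j => if (x (Nat.unpair j).1).2 = 0 then ee K else x (Nat.unpair j).1
  have hvs1 : ∀ j, (vs j).2 ≠ 0 := by
    intro j
    by_cases h : (x (Nat.unpair j).1).2 = 0
    · simp [vs, h, ee]
    · simp [vs, h]
  have hvs2 : ∀ v : V K, v.2 ≠ 0 → ∀ j0, ∃ j, j0 ≤ j ∧ vs j = v := by
    intro v hv j0
    obtain ⟨a, rfl⟩ := hx v
    exact ⟨Nat.pair a j0, Nat.right_le_pair a j0, by simp [vs, hv]⟩
  let Z : ℕ → ℕ → V K := fun l M =>
    if l % 2 = 0 then om (hh K) (0, T M - 1) else om (vs (l / 2)) (sh M (vs (l / 2)))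
  have hZe : ∀ i M, Z (2 * i) M = om (hh K) (0, T M - 1) := by
    intro i M
    simp [Z]
  have hZo : ∀ j M, Z (2 * j + 1) M = om (vs j) (sh M (vs j)) := by
    intro j M
    have h1 : (2 * j + 1) % 2 ≠ 0 := by omega
    have h2 : (2 * j + 1) / 2 = j := by omega
    simp only [Z, if_neg h1, h2]
  have hZ : ∀ l M, Z l M ∈ J K M := by
    intro l M
    rcases Nat.even_or_odd' l with ⟨i, rfl | rfl⟩
    · rw [hZe]
      have : ((0, T M - 1) : V K) ∈ J K M :=
        mem_J.2 ⟨zero_mem _, T_sub_one_mem dvd_rfl⟩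
      exact add_mem (cf_mem_J_right _ this) (cf_mem_J_right _ this)
    · rw [hZo]
      have h1 : cf (vs i) (sh M (vs i)) = cf (vs i) (sh M (vs i) - vs i) := by simp
      have h2 := cf_mem_J_right (vs i) (sh_sub_mem_J (m := M) dvd_rfl (vs i))
      rw [om, h1]
      exact add_mem h2 h2
  obtain ⟨M, F, hM0, hM, hMl, hw, hxF, hzF, hsep⟩ := exists_sparse S hS x (w0 K) Z hZ
  let z : ℕ → V K := fun l => Z l (M l)
  have hz : ∀ l, z l ∈ J K (M l) := fun l => hZ l (M l)
  have hcof : ∀ m : ℕ, 0 < m → ∀ l, m ≤ l → m ∣ M l := by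
    intro m hm l hl
    have := (hMl (m - 1)).trans (dvd_of_chain hM (show m - 1 ≤ l by omega))
    rwa [Nat.sub_add_cancel hm] at this
  have hz0 : ∀ i, z (2 * i) ≠ 0 := by
    intro i h
    change Z (2 * i) (M (2 * i)) = 0 at h
    rw [hZe, om_hh] at h
    have h1 : (2 : R K) * (T (M (2 * i)) - 1) = 0 := congrArg Prod.fst h
    have h2 := hM0 (2 * i)
    refine mul_ne_zero two_ne (sub_ne_zero.2 ?_) h1
    rw [← T_zero]
    exact T_ne (by omega)
  have hclosed : ∀ (S' : Submodule K (V K)) (d : ℤ), 0 < d → (∀ y ∈ S', sy K d • y ∈ S') →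
      (∀ i0, ∃ i, i0 ≤ i ∧ (z (2 * i) ∉ S' ∨ Qs (w0 K) z i ∈ S')) →
      Closed (S' ⊔ Submodule.span K (Set.range (rel (w0 K) z))) := by
    intro S' d hd hst hcase
    have : S' ∈ Set.range f := by rw [← hf]; exact ⟨d, hd, hst⟩
    obtain ⟨i, rfl⟩ := this
    refine closed_sup_rel hM0 hM hMl hz hw hzF ?_ (closed_of_stable hd _ hst) (l1 := i + 1)
      (fun l hl => hsep l (i + 1) hl) hcase
    intro y
    obtain ⟨j, rfl⟩ := hx y
    exact ⟨j, hxF j⟩
  refine ⟨rel (w0 K) z, ?_, ?_, ?_⟩
  · intro A hA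
    rcases shift_dichotomy A with h | ⟨τ, hτ, hpos, hdvd⟩
    · have h1 := hclosed ⊥ 1 one_pos (by simp) fun i0 => ⟨i0, le_rfl, Or.inl (hz0 i0)⟩
      obtain ⟨X, rfl⟩ := hA
      have hfin := closure_finite X.finite_toSet (fun x hx => h x (Subgroup.subset_closure hx))
      have h2 : (CW (Subgroup.closure (X : Set (Gam K))) : Set (V K)).Finite := by
        refine (hfin.image (fun g => g.w)).subset ?_
        intro w hw
        exact ⟨cen w, hw, rfl⟩
      have h3 := h1.sup_finite h2
      rwa [bot_sup_eq, sup_comm] at h3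
    · obtain ⟨E, hE, hCW⟩ := exists_finite_CW hA hτ hpos hdvd
      have h1 : Closed (SW A ⊔ Submodule.span K (Set.range (rel (w0 K) z))) := by
        refine hclosed _ τ.n hpos (SW_stable hτ) fun i0 => ?_
        by_cases hv : ∃ v ∈ BV A, v.2 ≠ 0
        · obtain ⟨v, hv, hv2⟩ := hv
          obtain ⟨j, hj, hjv⟩ := hvs2 v hv2 (max i0 τ.n.toNat)
          have hj1 : i0 ≤ j := le_trans (le_max_left _ _) hj
          have hj2 : τ.n.toNat ≤ j := le_trans (le_max_right _ _) hj
          refine ⟨j + 1, by omega, Or.inr ?_⟩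
          change Z (2 * j + 1) (M (2 * j + 1)) ∈ SW A
          rw [hZo, hjv]
          obtain ⟨c, hc⟩ := hcof τ.n.toNat (by omega) (2 * j + 1) (by omega)
          have hsh : sh (M (2 * j + 1)) v ∈ BV A := by
            have hn : (τ ^ (c : ℤ)).n = M (2 * j + 1) := by
              rw [zpow_n, hc]
              push_cast
              rw [Int.toNat_of_nonneg hpos.le, mul_comm]
            rw [← hn]
            exact sh_mem_BV (fun a ha => mul_mem (mul_mem (zpow_mem hτ _) ha)
              (inv_mem (zpow_mem hτ _))) hv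
          exact add_mem (Submodule.apply_mem_map₂ cf hv hsh) (Submodule.apply_mem_map₂ cf hv hsh)
        · push Not at hv
          have hbot : SW A ≤ ⊥ := by
            rw [SW, Submodule.map₂_le]
            intro v h1 v' h2
            rw [Submodule.mem_bot]
            refine Prod.ext ?_ ?_
            · simp [cf_fst, hv v h1, hv v' h2]
            · simp [cf_snd, hv v h1, hv v' h2]
          exact ⟨i0, le_rfl, Or.inl fun h => hz0 i0 (hbot h)⟩
      have h2 := h1.sup_span hE
      rwa [sup_right_comm, ← hCW] at h2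
  · refine not_mem_sup_rel hM hz hw hzF (fun l => hsep l 0 (Nat.zero_le l)) ?_ ?_
    · intro j
      change Z (2 * j + 1) (M (2 * j + 1)) ∉ UU K
      rw [hZo, mem_UU]
      exact om_sh_snd_ne (hvs1 j) (by exact_mod_cast hM0 _)
    · rw [mem_UU]
      exact om_sh_snd_ne (by simp [ee]) one_pos
  · intro m hm
    have key : ∀ j, ∃ ζ : R K, w0 K + Qs (w0 K) z j - om (hh K) (0, ζ)
        ∈ Submodule.span K (Set.range (rel (w0 K) z)) := by
      intro j
      induction j with
      | zero =>
        refine ⟨0, ?_⟩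
        have : w0 K + Qs (w0 K) z 0 - om (hh K) (0, 0) = 0 := by simp [Qs, om_hh]
        rw [this]
        exact zero_mem _
      | succ j ih =>
        obtain ⟨ζ, hζ⟩ := ih
        refine ⟨ζ + (T (M (2 * j)) - 1), ?_⟩
        have h1 : rel (w0 K) z j ∈ Submodule.span K (Set.range (rel (w0 K) z)) :=
          Submodule.subset_span ⟨j, rfl⟩
        have h2 : z (2 * j) = om (hh K) (0, T (M (2 * j)) - 1) := hZe _ _
        have h3 : om (hh K) (0, ζ + (T (M (2 * j)) - 1))
            = om (hh K) (0, ζ) + om (hh K) (0, T (M (2 * j)) - 1) := by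
          rw [om_hh, om_hh, om_hh, mul_add]
          simp
        convert add_mem hζ h1 using 1
        rw [rel, h2, h3]
        abel
    obtain ⟨ζ, hζ⟩ := key (m + 1)
    refine ⟨vs m, M (2 * m + 1), ζ, hcof m hm _ (by omega), ?_⟩
    rw [← hZo]
    exact hζ

end Pool.Agent.Lib.MP_7bd500_al
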