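import Mathlib

/-
Congruence topology on modules over the Laurent polynomial ring over a finite field.
-/

set_option autoImplicit false

namespace Pool.Agent.Lib.MP_7bd500_al

open LaurentPolynomial

/-- Separation of a point from a submodule by a congruence condition. -/
theorem exists_pow_sep {k P R M : Type*} [Field k] [Finite k] [CommRing P] [Algebra k P]
    [Algebra.FiniteType k P] [CommRing R] [Algebra P R] [Module.Finite P R]
    [AddCommGroup M] [Module R M] [Module P M] [IsScalarTower P R M] [Module.Finite P M]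
    (t : Rˣ) (B : Submodule P M) (x : M) (hx : x ∉ B) :
    ∃ m : ℕ, 0 < m ∧ ∀ y : M, x - ((t : R) ^ m - 1) • y ∉ B := by
  have : IsNoetherianRing P := Algebra.FiniteType.isNoetherianRing k P
  have hx0 : (B.mkQ x) ≠ 0 := by
    simpa [Submodule.Quotient.mk_eq_zero] using hx
  let Ann : Ideal P := Ideal.torsionOf P (M ⧸ B) (B.mkQ x)
  have hAnn : Ann ≠ ⊤ := by
    intro h
    exact hx0 ((Ideal.torsionOf_eq_top_iff P (B.mkQ x)).1 h)
  obtain ⟨𝔪, h𝔪, hle⟩ := Ideal.exists_le_maximal Ann hAnn
  have hnot : B.mkQ x ∉ (⨅ i : ℕ, 𝔪 ^ i • ⊤ : Submodule P (M ⧸ B)) := by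
    rw [Ideal.mem_iInf_smul_pow_eq_bot_iff]
    rintro ⟨r, hr⟩
    have h1 : (1 - (r : P)) ∈ Ann := by
      rw [Ideal.mem_torsionOf_iff, sub_smul, one_smul, hr, sub_self]
    have h2 : (1 : P) ∈ 𝔪 := by
      have := 𝔪.add_mem (hle h1) r.2
      simpa using this
    exact h𝔪.ne_top ((Ideal.eq_top_iff_one _).2 h2)
  rw [Submodule.mem_iInf] at hnot
  push Not at hnot
  obtain ⟨j, hj⟩ := hnot
  let := Ideal.Quotient.field 𝔪
  have : Module.Finite k (P ⧸ 𝔪) := finite_of_finite_type_of_isJacobsonRing k (P ⧸ 𝔪)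
  have : Finite (P ⧸ 𝔪) := Module.finite_of_finite k
  have : Finite (P ⧸ 𝔪 ^ j) := Ideal.finite_quotient_pow (IsNoetherian.noetherian _) j
  have : Finite (R ⧸ (⊤ : Submodule P R)) := Finite.of_subsingleton
  have hfin : Finite (R ⧸ (𝔪 ^ j • (⊤ : Submodule P R))) :=
    Submodule.finite_quotient_smul (𝔪 ^ j) Module.Finite.fg_top
  have hmul : ∀ r ∈ (𝔪 ^ j • (⊤ : Submodule P R)), ∀ y : M,
      r • y ∈ (𝔪 ^ j • (⊤ : Submodule P M)) := by
    intro r hr y
    refine Submodule.smul_induction_on hr ?_ ?_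
    · intro a ha n _
      rw [smul_assoc]
      exact Submodule.smul_mem_smul ha Submodule.mem_top
    · intro a b ha hb
      rw [add_smul]
      exact Submodule.add_mem _ ha hb
  obtain ⟨a, b, hab, hE⟩ := Finite.exists_ne_map_eq_of_infinite
    (fun n : ℕ => (𝔪 ^ j • (⊤ : Submodule P R)).mkQ ((t : R) ^ n))
  wlog hlt : a < b generalizing a b
  · exact this b a hab.symm hE.symm (lt_of_le_of_ne (not_lt.1 hlt) hab.symm)
  refine ⟨b - a, Nat.sub_pos_of_lt hlt, fun y hy => hj ?_⟩
  have hmem : (t : R) ^ b - (t : R) ^ a ∈ (𝔪 ^ j • (⊤ : Submodule P R)) := by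
    have := (Submodule.Quotient.eq _).1 hE.symm
    exact this
  have h3 := hmul _ hmem ((((t⁻¹ : Rˣ) : R) ^ a) • y)
  have h4 : ((t : R) ^ b - (t : R) ^ a) • (((t⁻¹ : Rˣ) : R) ^ a) • y
      = ((t : R) ^ (b - a) - 1) • y := by
    rw [smul_smul]
    congr 1
    have hb : (t : R) ^ b = (t : R) ^ (b - a) * (t : R) ^ a := by
      rw [← pow_add, Nat.sub_add_cancel hlt.le]
    have hu : (t : R) ^ a * ((t⁻¹ : Rˣ) : R) ^ a = 1 := by
      rw [← mul_pow, Units.mul_inv, one_pow]
    rw [hb, sub_mul, mul_assoc, hu, mul_one]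
  rw [h4] at h3
  have h5 : B.mkQ x = B.mkQ (((t : R) ^ (b - a) - 1) • y) := by
    exact (Submodule.Quotient.eq _).2 hy
  rw [h5]
  have h6 := Submodule.mem_map_of_mem (f := B.mkQ) h3
  rw [Submodule.map_smul''] at h6
  exact Submodule.smul_mono le_rfl le_top h6

/-- The Laurent polynomial ring. -/
abbrev R (K : Type) [Field K] : Type := LaurentPolynomial K

/-- The free module of rank two. -/
abbrev V (K : Type) [Field K] : Type := R K × R K

variable {K : Type} [Field K]

variable (K) in
/-- The congruence ideal of level `m`. -/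
noncomputable def I (m : ℕ) : Ideal (R K) := Ideal.span {(T (m : ℤ) : R K) - 1}

variable (K) in
/-- The congruence submodule of level `m`. -/
noncomputable def J (m : ℕ) : Submodule K (V K) := ((I K m).prod (I K m)).restrictScalars K

theorem mem_J {m : ℕ} {x : V K} : x ∈ J K m ↔ x.1 ∈ I K m ∧ x.2 ∈ I K m := Iff.rfl

theorem T_sub_one_mem {m : ℕ} {n : ℤ} (h : (m : ℤ) ∣ n) : (T n : R K) - 1 ∈ I K m := by
  obtain ⟨c, rfl⟩ := h
  have key : ∀ c : ℕ, (T ((m : ℤ) * c) : R K) - 1 ∈ I K m := by
    intro c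
    have : (T ((m : ℤ) * c) : R K) = (T (m : ℤ)) ^ c := by rw [T_pow, mul_comm]
    rw [this]
    have h1 := sub_dvd_pow_sub_pow (T (m : ℤ) : R K) 1 c
    rw [one_pow] at h1
    exact Ideal.mem_span_singleton.2 h1
  rcases Int.eq_nat_or_neg c with ⟨c, rfl | rfl⟩
  · exact key c
  · have : (T ((m : ℤ) * -(c : ℤ)) : R K) - 1
        = -(T ((m : ℤ) * -(c : ℤ))) * ((T ((m : ℤ) * c) : R K) - 1) := by
      rw [neg_mul, mul_sub, ← T_add]
      simp
    rw [this]
    exact Ideal.mul_mem_left _ _ (key c)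

theorem I_anti {m m' : ℕ} (h : m ∣ m') : I K m' ≤ I K m := by
  rw [I, Ideal.span_singleton_le_iff_mem]
  exact T_sub_one_mem (Int.natCast_dvd_natCast.2 h)

theorem J_anti {m m' : ℕ} (h : m ∣ m') : J K m' ≤ J K m := fun _ hx =>
  ⟨I_anti h hx.1, I_anti h hx.2⟩

theorem invert_mem_I {m : ℕ} {x : R K} (hx : x ∈ I K m) : invert x ∈ I K m := by
  obtain ⟨c, rfl⟩ := Ideal.mem_span_singleton.1 hx
  rw [map_mul, map_sub, map_one, invert_T]
  exact Ideal.mul_mem_right _ _ (T_sub_one_mem (Dvd.dvd.neg_right dvd_rfl))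

theorem smul_mem_J {m : ℕ} (r : R K) {x : V K} (hx : x ∈ J K m) : r • x ∈ J K m := by
  rw [mem_J, Prod.smul_fst, Prod.smul_snd, smul_eq_mul, smul_eq_mul]
  exact ⟨Ideal.mul_mem_left _ _ hx.1, Ideal.mul_mem_left _ _ hx.2⟩

theorem smul_mem_J_of_mem_I {m : ℕ} {r : R K} (hr : r ∈ I K m) (x : V K) : r • x ∈ J K m := by
  rw [mem_J, Prod.smul_fst, Prod.smul_snd, smul_eq_mul, smul_eq_mul]
  exact ⟨Ideal.mul_mem_right _ _ hr, Ideal.mul_mem_right _ _ hr⟩

theorem exists_of_mem_J {m : ℕ} {x : V K} (hx : x ∈ J K m) :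
    ∃ y : V K, x = ((T (m : ℤ) : R K) - 1) • y := by
  obtain ⟨a, ha⟩ := Ideal.mem_span_singleton.1 hx.1
  obtain ⟨b, hb⟩ := Ideal.mem_span_singleton.1 hx.2
  refine ⟨(a, b), Prod.ext ?_ ?_⟩
  · rw [Prod.smul_fst, smul_eq_mul]; exact ha
  · rw [Prod.smul_snd, smul_eq_mul]; exact hb

theorem finite_quot_I [Finite K] {m : ℕ} (hm : 0 < m) : Finite (R K ⧸ I K m) := by
  classical
  have : Module.Finite K (R K ⧸ I K m) := by
    refine ⟨⟨(Finset.range m).image (fun j : ℕ => Ideal.Quotient.mk (I K m) (T (j : ℤ))), ?_⟩⟩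
    rw [eq_top_iff]
    rintro x -
    obtain ⟨p, rfl⟩ := Ideal.Quotient.mk_surjective x
    induction p using LaurentPolynomial.induction_on' with
    | add p q hp hq =>
      rw [map_add]
      exact Submodule.add_mem _ hp hq
    | C_mul_T n a =>
      rw [← smul_eq_C_mul]
      change Ideal.Quotient.mkₐ K (I K m) (a • T n) ∈ _
      rw [map_smul]
      refine Submodule.smul_mem _ _ (Submodule.subset_span ?_)
      simp only [Finset.coe_image, Finset.coe_range, Set.mem_image, Set.mem_Iio]
      have hm' : (0 : ℤ) < m := by exact_mod_cast hm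
      refine ⟨(n % m).toNat, ?_, ?_⟩
      · have := Int.emod_lt_of_pos n hm'
        omega
      · rw [Int.toNat_of_nonneg (Int.emod_nonneg n hm'.ne')]
        change _ = Ideal.Quotient.mk (I K m) (T n)
        rw [Ideal.Quotient.eq]
        have : (T (n % m) : R K) - T n = T n * (T (n % m - n) - 1) := by
          rw [mul_sub, ← T_add]
          simp
        rw [this]
        refine Ideal.mul_mem_left _ _ (T_sub_one_mem ?_)
        exact ⟨-(n / m), by rw [Int.emod_def]; ring⟩
  exact Module.finite_of_finite K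

/-- Closed subspaces for the congruence topology. -/
def Closed (S : Submodule K (V K)) : Prop :=
  ∀ x : V K, (∀ m : ℕ, 0 < m → x ∈ S ⊔ J K m) → x ∈ S

variable (K) in
/-- The symmetric element `T^d + T^(-d)`. -/
noncomputable def sy (d : ℤ) : R K := T d + T (-d)

variable (K) in
/-- The subalgebra generated by `sy d`. -/
noncomputable abbrev P (d : ℤ) : Subalgebra K (R K) := Algebra.adjoin K {sy K d}

instance (d : ℤ) : Algebra.FiniteType K (P K d) :=
  (Subalgebra.fg_iff_finiteType _).1 ⟨{sy K d}, by simp⟩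

theorem isIntegral_T_self (d : ℤ) : IsIntegral (P K d) (T d : R K) := by
  let s : P K d := ⟨sy K d, Algebra.subset_adjoin rfl⟩
  have hs : algebraMap (P K d) (R K) s = T d + T (-d) := rfl
  refine ⟨Polynomial.X ^ 2 + (- Polynomial.C s * Polynomial.X + 1), ?_, ?_⟩
  · apply Polynomial.Monic.add_of_left (Polynomial.monic_X_pow 2)
    rw [Polynomial.degree_X_pow]
    refine lt_of_le_of_lt (b := 1) ?_ (by norm_num)
    compute_degree
  · simp only [Polynomial.eval₂_add, Polynomial.eval₂_pow, Polynomial.eval₂_X,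
      Polynomial.eval₂_mul, Polynomial.eval₂_neg, Polynomial.eval₂_C, Polynomial.eval₂_one]
    rw [hs]
    have : (T (-d) : R K) * T d = 1 := by rw [← T_add]; simp
    linear_combination (-1 : R K) * this

theorem finite_P {d : ℤ} (hd : 0 < d) : Module.Finite (P K d) (R K) := by
  have h1 : IsIntegral (P K d) (T d : R K) := isIntegral_T_self d
  have h2 : IsIntegral (P K d) (T (-d) : R K) := by
    have : (T (-d) : R K)
        = algebraMap (P K d) (R K) ⟨sy K d, Algebra.subset_adjoin rfl⟩ - T d := by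
      change _ = sy K d - T d
      simp [sy]
    rw [this]
    exact isIntegral_algebraMap.sub h1
  have hdn : 0 < d.toNat := by omega
  have h3 : IsIntegral (P K d) (T 1 : R K) := by
    apply IsIntegral.of_pow hdn
    rw [T_pow, mul_one, Int.toNat_of_nonneg hd.le]
    exact h1
  have h4 : IsIntegral (P K d) (T (-1) : R K) := by
    apply IsIntegral.of_pow hdn
    rw [T_pow, mul_neg, mul_one, Int.toNat_of_nonneg hd.le]
    exact h2
  have h5 : ∀ n : ℤ, IsIntegral (P K d) (T n : R K) := by
    intro n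
    rcases Int.eq_nat_or_neg n with ⟨c, rfl | rfl⟩
    · have := h3.pow c
      rwa [T_pow, mul_one] at this
    · have := h4.pow c
      rwa [T_pow, mul_neg, mul_one] at this
  have : Algebra.IsIntegral (P K d) (R K) := by
    refine ⟨fun p => ?_⟩
    induction p using LaurentPolynomial.induction_on' with
    | add p q hp hq => exact hp.add hq
    | C_mul_T n a =>
      refine IsIntegral.mul ?_ (h5 n)
      have : (C a : R K) = algebraMap (P K d) (R K) (algebraMap K (P K d) a) := rfl
      rw [this]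
      exact isIntegral_algebraMap
  have : Algebra.FiniteType (P K d) (R K) :=
    Algebra.FiniteType.of_restrictScalars_finiteType K (P K d) (R K)
  exact Algebra.IsIntegral.finite

/-- A subspace stable under `sy d`, as a module over `P d`. -/
noncomputable def toP (d : ℤ) (S : Submodule K (V K)) (hS : ∀ x ∈ S, sy K d • x ∈ S) :
    Submodule (P K d) (V K) where
  carrier := S
  add_mem' := S.add_mem
  zero_mem' := S.zero_mem
  smul_mem' := by
    rintro ⟨p, hp⟩ x hx
    change p • x ∈ S
    induction hp using Algebra.adjoin_induction generalizing x with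
    | mem y hy =>
      rw [Set.mem_singleton_iff.1 hy]
      exact hS x hx
    | algebraMap r =>
      rw [algebraMap_smul]
      exact S.smul_mem r hx
    | add a b _ _ ha hb =>
      rw [add_smul]
      exact S.add_mem (ha hx) (hb hx)
    | mul a b _ _ ha hb =>
      rw [mul_smul]
      exact ha (hb hx)

theorem closed_of_stable [Finite K] {d : ℤ} (hd : 0 < d) (S : Submodule K (V K))
    (hS : ∀ x ∈ S, sy K d • x ∈ S) : Closed S := by
  intro x hx
  by_contra hxS
  have := finite_P (K := K) hd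
  obtain ⟨m, hm, h⟩ := exists_pow_sep (k := K) (P := P K d) (R := R K) (M := V K)
    (isUnit_T (R := K) 1).unit (toP d S hS) x hxS
  obtain ⟨s, hs, z, hz, hsz⟩ := Submodule.mem_sup.1 (hx m hm)
  obtain ⟨y, rfl⟩ := exists_of_mem_J hz
  apply h y
  rw [IsUnit.unit_spec, T_pow, mul_one, ← hsz, add_sub_cancel_right]
  exact hs

theorem Closed.exists_good {S : Submodule K (V K)} (hS : Closed S) {F : Set (V K)}
    (hF : F.Finite) : ∃ m : ℕ, 0 < m ∧ ∀ f ∈ F, f ∈ S ⊔ J K m → f ∈ S := by
  induction F, hF using Set.Finite.induction_on with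
  | empty => exact ⟨1, one_pos, by simp⟩
  | @insert a F _ _ ih =>
    obtain ⟨m, hm, h⟩ := ih
    by_cases ha : a ∈ S
    · refine ⟨m, hm, fun f hf hf' => ?_⟩
      rcases hf with rfl | hf
      · exact ha
      · exact h f hf hf'
    · have : ∃ m' : ℕ, 0 < m' ∧ a ∉ S ⊔ J K m' := by
        by_contra hc
        push Not at hc
        exact ha (hS a hc)
      obtain ⟨m', hm', h'⟩ := this
      refine ⟨m * m', Nat.mul_pos hm hm', fun f hf hf' => ?_⟩
      rcases hf with rfl | hf
      · exact absurd (sup_le_sup_left (J_anti (Dvd.intro_left m rfl)) S hf') h'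
      · exact h f hf (sup_le_sup_left (J_anti (Dvd.intro m' rfl)) S hf')

theorem finite_span [Finite K] {F : Set (V K)} (hF : F.Finite) :
    ((Submodule.span K F : Submodule K (V K)) : Set (V K)).Finite := by
  have : Module.Finite K (Submodule.span K F) := Module.Finite.span_of_finite K hF
  have : Finite (Submodule.span K F) := Module.finite_of_finite K
  exact Set.toFinite _

theorem Closed.sup_finite {S E : Submodule K (V K)} (hS : Closed S)
    (hE : (E : Set (V K)).Finite) : Closed (S ⊔ E) := by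
  intro x hx
  obtain ⟨m, hm, h⟩ := hS.exists_good (hE.image (fun e => x - e))
  obtain ⟨y, hy, z, hz, hyz⟩ := Submodule.mem_sup.1 (hx m hm)
  obtain ⟨s, hs, e, he, rfl⟩ := Submodule.mem_sup.1 hy
  have : x - e ∈ S := by
    apply h _ ⟨e, he, rfl⟩
    refine Submodule.mem_sup.2 ⟨s, hs, z, hz, ?_⟩
    rw [← hyz]
    change _ = s + e + z - e
    abel
  exact Submodule.mem_sup.2 ⟨x - e, this, e, he, by abel⟩

theorem Closed.sup_span [Finite K] {S : Submodule K (V K)} (hS : Closed S) {F : Set (V K)}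
    (hF : F.Finite) : Closed (S ⊔ Submodule.span K F) := hS.sup_finite (finite_span hF)

theorem closed_bot [Finite K] : Closed (⊥ : Submodule K (V K)) :=
  closed_of_stable one_pos ⊥ (by simp)

end Pool.Agent.Lib.MP_7bd500_al
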