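import Pool.Agent.Lib.MP_7bd500_al.Ring

/-
A sparse sequence tending to zero in the congruence topology, and closedness of `S + Rel`.
-/

set_option autoImplicit false

namespace Pool.Agent.Lib.MP_7bd500_al

open LaurentPolynomial

variable {K : Type} [Field K]

theorem sup_J_anti {m m' : ℕ} (h : m ∣ m') {S : Submodule K (V K)} {x : V K}
    (hx : x ∈ S ⊔ J K m') : x ∈ S ⊔ J K m :=
  sup_le_sup_left (J_anti (K := K) h) S hx

theorem exists_good_all (S : ℕ → Submodule K (V K)) (hS : ∀ i, Closed (S i)) {E : Set (V K)}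
    (hE : E.Finite) (l : ℕ) :
    ∃ m : ℕ, 0 < m ∧ ∀ i ≤ l, ∀ f ∈ E, f ∈ S i ⊔ J K m → f ∈ S i := by
  induction l with
  | zero =>
    obtain ⟨m, hm, h⟩ := (hS 0).exists_good hE
    refine ⟨m, hm, fun i hi => ?_⟩
    rw [Nat.le_zero.1 hi]
    exact h
  | succ l ih =>
    obtain ⟨m, hm, h⟩ := ih
    obtain ⟨m', hm', h'⟩ := (hS (l + 1)).exists_good hE
    refine ⟨m * m', Nat.mul_pos hm hm', fun i hi f hf hf' => ?_⟩
    rcases Nat.of_le_succ hi with hi | rfl
    · exact h i hi f hf (sup_J_anti (Dvd.intro m' rfl) hf')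
    · exact h' f hf (sup_J_anti (Dvd.intro_left m rfl) hf')

theorem exists_sparse [Finite K] (S : ℕ → Submodule K (V K)) (hS : ∀ i, Closed (S i))
    (x : ℕ → V K) (w0 : V K) (Z : ℕ → ℕ → V K) (hZ : ∀ l M, Z l M ∈ J K M) :
    ∃ (M : ℕ → ℕ) (F : ℕ → Submodule K (V K)), (∀ l, 0 < M l) ∧ (∀ l, M l ∣ M (l + 1)) ∧
      (∀ l, (l + 1) ∣ M l) ∧ (∀ l, w0 ∈ F l) ∧ (∀ j l, j < l → x j ∈ F l) ∧
      (∀ j l, j < l → Z j (M j) ∈ F l) ∧
      ∀ l i, i ≤ l → Z l (M l) ∈ S i ⊔ F l ⊔ J K (M (l + 1)) → Z l (M l) ∈ S i := by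
  have h1 : ∀ (l : ℕ) (E : Set (V K)), ∃ m : ℕ, 0 < m ∧ (E.Finite →
      ∀ i ≤ l, ∀ f ∈ Submodule.span K E, f ∈ S i ⊔ J K m → f ∈ S i) := by
    intro l E
    by_cases hE : E.Finite
    · obtain ⟨m, hm, h⟩ := exists_good_all S hS (finite_span hE) l
      exact ⟨m, hm, fun _ => h⟩
    · exact ⟨1, one_pos, fun h => absurd h hE⟩
  have h2 : ∀ (l : ℕ) (E : Set (V K)) (z : V K), ∃ m : ℕ, 0 < m ∧ (E.Finite →
      ∀ i ≤ l, z ∈ S i ⊔ Submodule.span K E ⊔ J K m → z ∈ S i ⊔ Submodule.span K E) := by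
    intro l E z
    by_cases hE : E.Finite
    · obtain ⟨m, hm, h⟩ := exists_good_all (fun i => S i ⊔ Submodule.span K E)
        (fun i => (hS i).sup_span hE) (Set.finite_singleton z) l
      exact ⟨m, hm, fun _ i hi => h i hi z rfl⟩
    · exact ⟨1, one_pos, fun h => absurd h hE⟩
  choose μ hμ0 hμ using h1
  choose ν hν0 hν using h2
  let st : ℕ → Set (V K) × ℕ := fun l => Nat.rec ({w0}, μ 0 {w0})
    (fun l p => (insert (Z l p.2) (insert (x l) p.1),
      p.2 * (l + 2) * μ (l + 1) (insert (Z l p.2) (insert (x l) p.1)) * ν l p.1 (Z l p.2))) l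
  have hst0 : st 0 = ({w0}, μ 0 {w0}) := rfl
  have hst1 : ∀ l, (st (l + 1)).1 = insert (Z l (st l).2) (insert (x l) (st l).1) := fun _ => rfl
  have hst2 : ∀ l, (st (l + 1)).2 = (st l).2 * (l + 2) * μ (l + 1) (st (l + 1)).1
      * ν l (st l).1 (Z l (st l).2) := fun _ => rfl
  have hfin : ∀ l, (st l).1.Finite := by
    intro l
    induction l with
    | zero => rw [hst0]; exact Set.finite_singleton _
    | succ l ih => rw [hst1]; exact (ih.insert _).insert _
  have hmono : Monotone (fun l => (st l).1) := by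
    apply monotone_nat_of_le_succ
    intro l
    rw [hst1]
    exact (Set.subset_insert _ _).trans (Set.subset_insert _ _)
  have hμdvd : ∀ l, μ l (st l).1 ∣ (st l).2 := by
    intro l
    cases l with
    | zero => rw [hst0]
    | succ l => rw [hst2]; exact Dvd.dvd.mul_right (Dvd.intro_left _ rfl) _
  refine ⟨fun l => (st l).2, fun l => Submodule.span K (st l).1, ?_, ?_, ?_, ?_, ?_, ?_, ?_⟩
  · intro l
    induction l with
    | zero => exact hμ0 _ _
    | succ l ih =>
      change 0 < (st (l + 1)).2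
      rw [hst2]
      exact Nat.mul_pos (Nat.mul_pos (Nat.mul_pos ih (by omega)) (hμ0 _ _)) (hν0 _ _ _)
  · intro l
    change (st l).2 ∣ (st (l + 1)).2
    rw [hst2, mul_assoc, mul_assoc]
    exact Dvd.intro _ rfl
  · intro l
    cases l with
    | zero => simp
    | succ l =>
      change l + 2 ∣ (st (l + 1)).2
      rw [hst2]
      exact Dvd.dvd.mul_right (Dvd.dvd.mul_right (Dvd.intro_left _ rfl) _) _
  · intro l
    apply Submodule.subset_span
    exact hmono (Nat.zero_le l) (Set.mem_singleton w0)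
  · intro j l hjl
    apply Submodule.subset_span
    refine hmono (Nat.succ_le_of_lt hjl) ?_
    change x j ∈ (st (j + 1)).1
    rw [hst1]
    exact Set.mem_insert_of_mem _ (Set.mem_insert _ _)
  · intro j l hjl
    apply Submodule.subset_span
    refine hmono (Nat.succ_le_of_lt hjl) ?_
    change Z j (st j).2 ∈ (st (j + 1)).1
    rw [hst1]
    exact Set.mem_insert _ _
  · intro l i hi hz
    have hd : ν l (st l).1 (Z l (st l).2) ∣ (st (l + 1)).2 := by
      rw [hst2]; exact Dvd.intro_left _ rfl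
    have hz1 := hν l (st l).1 (Z l (st l).2) (hfin l) i hi (sup_J_anti hd hz)
    obtain ⟨s, hs, f, hf, hsf⟩ := Submodule.mem_sup.1 hz1
    have hf1 : f ∈ S i := by
      apply hμ l (st l).1 (hfin l) i hi f hf
      refine Submodule.mem_sup.2 ⟨-s, neg_mem hs, Z l (st l).2, J_anti (hμdvd l) (hZ _ _), ?_⟩
      rw [← hsf]; abel
    change Z l (st l).2 ∈ S i
    rw [← hsf]
    exact add_mem hs hf1

/-- The sequence `-w0, z 1, z 3, ...`. -/
noncomputable def Qs (w0 : V K) (z : ℕ → V K) : ℕ → V K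
  | 0 => -w0
  | j + 1 => z (2 * j + 1)

/-- The relators. -/
noncomputable def rel (w0 : V K) (z : ℕ → V K) (j : ℕ) : V K :=
  Qs w0 z (j + 1) - Qs w0 z j - z (2 * j)

/-- Coefficients of the `z l` in a combination of relators. -/
def coef (b : ℕ → K) (l : ℕ) : K := if l % 2 = 0 then -b (l / 2) else b (l / 2) - b (l / 2 + 1)

theorem sum_rel (w0 : V K) (z : ℕ → V K) (b : ℕ → K) (i N : ℕ) (h : i ≤ N) :
    ∑ j ∈ Finset.Ico i N, b j • rel w0 z j
      = -(b i • Qs w0 z i) + ∑ l ∈ Finset.Ico (2 * i) (2 * N), coef b l • z l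
        + b N • Qs w0 z N := by
  induction N, h using Nat.le_induction with
  | base => simp
  | succ N h ih =>
    rw [Finset.sum_Ico_succ_top h, ih, show 2 * (N + 1) = 2 * N + 1 + 1 by ring,
      Finset.sum_Ico_succ_top (by omega), Finset.sum_Ico_succ_top (by omega)]
    have e1 : coef b (2 * N) = -b N := by
      unfold coef
      rw [if_pos (by omega), show 2 * N / 2 = N by omega]
    have e2 : coef b (2 * N + 1) = b N - b (N + 1) := by
      unfold coef
      rw [if_neg (by omega), show (2 * N + 1) / 2 = N by omega]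
    have e3 : Qs w0 z (N + 1) = z (2 * N + 1) := rfl
    rw [e1, e2, rel, e3]
    module

theorem exists_coeffs (r : ℕ → V K) {ρ : V K} (hρ : ρ ∈ Submodule.span K (Set.range r)) (i : ℕ) :
    ∃ (b : ℕ → K) (N : ℕ), i ≤ N ∧ (∀ j, N ≤ j → b j = 0) ∧
      ρ = ∑ j ∈ Finset.Ico 0 N, b j • r j := by
  obtain ⟨c, hc⟩ := Finsupp.mem_span_range_iff_exists_finsupp.1 hρ
  obtain ⟨N, hN⟩ := c.support.bddAbove
  refine ⟨c, max i (N + 1), le_max_left _ _, ?_, ?_⟩
  · intro j hj
    by_contra hne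
    have := hN (Finsupp.mem_support_iff.2 hne)
    have := le_max_right i (N + 1)
    omega
  · rw [← hc, Finsupp.sum_of_support_subset]
    · intro j hj
      have := hN hj
      have := le_max_right i (N + 1)
      rw [Finset.mem_Ico]
      omega
    · intro j _
      simp

theorem dvd_of_chain {M : ℕ → ℕ} (h : ∀ l, M l ∣ M (l + 1)) {a b : ℕ} (hab : a ≤ b) :
    M a ∣ M b := by
  induction b, hab using Nat.le_induction with
  | base => exact dvd_rfl
  | succ b _ ih => exact ih.trans (h b)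

/-- Extraction of a single coefficient from a combination of the `z l`. -/
theorem extract {w0 : V K} {z : ℕ → V K} {M : ℕ → ℕ} {F : ℕ → Submodule K (V K)}
    (hM : ∀ l, M l ∣ M (l + 1)) (hz : ∀ l, z l ∈ J K (M l)) (hw : ∀ l, w0 ∈ F l)
    (hzF : ∀ j l, j < l → z j ∈ F l) {S : Submodule K (V K)} {a : K} {c : ℕ → K} {n l : ℕ}
    (hl : l < n) (hsep : z l ∈ S ⊔ F l ⊔ J K (M (l + 1)) → z l ∈ S)
    (hmem : a • w0 + ∑ j ∈ Finset.Ico 0 n, c j • z j ∈ S ⊔ F l ⊔ J K (M (l + 1))) :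
    c l = 0 ∨ z l ∈ S := by
  by_cases hc : c l = 0
  · exact Or.inl hc
  right
  apply hsep
  rw [← Finset.sum_Ico_consecutive _ (Nat.zero_le l) hl.le,
    Finset.sum_eq_sum_Ico_succ_bot hl] at hmem
  have h1 : a • w0 ∈ S ⊔ F l ⊔ J K (M (l + 1)) :=
    Submodule.mem_sup_left (Submodule.mem_sup_right (Submodule.smul_mem _ _ (hw l)))
  have h2 : ∑ j ∈ Finset.Ico 0 l, c j • z j ∈ S ⊔ F l ⊔ J K (M (l + 1)) :=
    Submodule.mem_sup_left (Submodule.mem_sup_right (Submodule.sum_mem _ fun j hj =>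
      Submodule.smul_mem _ _ (hzF j l (Finset.mem_Ico.1 hj).2)))
  have h3 : ∑ j ∈ Finset.Ico (l + 1) n, c j • z j ∈ S ⊔ F l ⊔ J K (M (l + 1)) :=
    Submodule.mem_sup_right (Submodule.sum_mem _ fun j hj =>
      Submodule.smul_mem _ _ (J_anti (dvd_of_chain hM (Finset.mem_Ico.1 hj).1) (hz j)))
  have h4 := sub_mem (sub_mem (sub_mem hmem h1) h2) h3
  have h5 : c l • z l ∈ S ⊔ F l ⊔ J K (M (l + 1)) := by
    convert h4 using 1
    abel
  exact (Submodule.smul_mem_iff _ hc).1 h5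

theorem closed_sup_rel [Finite K] {w0 : V K} {z : ℕ → V K} {M : ℕ → ℕ}
    {F : ℕ → Submodule K (V K)} (hM0 : ∀ l, 0 < M l)
    (hM : ∀ l, M l ∣ M (l + 1)) (hMl : ∀ l, (l + 1) ∣ M l) (hz : ∀ l, z l ∈ J K (M l))
    (hw : ∀ l, w0 ∈ F l) (hzF : ∀ j l, j < l → z j ∈ F l)
    (hx : ∀ x, ∃ j, ∀ l, j < l → x ∈ F l) {S : Submodule K (V K)} (hS : Closed S) {l1 : ℕ}
    (hsep : ∀ l, l1 ≤ l → z l ∈ S ⊔ F l ⊔ J K (M (l + 1)) → z l ∈ S)
    (hcase : ∀ i0, ∃ i, i0 ≤ i ∧ (z (2 * i) ∉ S ∨ Qs w0 z i ∈ S)) :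
    Closed (S ⊔ Submodule.span K (Set.range (rel w0 z))) := by
  intro x hxc
  obtain ⟨j0, hj0⟩ := hx x
  obtain ⟨i, hi, hci⟩ := hcase (max l1 (j0 + 1))
  have hi1 : l1 ≤ i := le_trans (le_max_left _ _) hi
  have hi2 : j0 + 1 ≤ i := le_trans (le_max_right _ _) hi
  have hcl : Closed (S ⊔ Submodule.span K (rel w0 z '' Set.Iio i)) :=
    hS.sup_span ((Set.finite_Iio i).image _)
  refine sup_le_sup_left (Submodule.span_mono (Set.image_subset_range _ _)) S (hcl x ?_)
  intro m hm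
  let L := max (m - 1) (2 * i + 1)
  have hL1 : m - 1 ≤ L := le_max_left _ _
  have hL2 : 2 * i + 1 ≤ L := le_max_right _ _
  have hmL : m ∣ M L := by
    have := (hMl (m - 1)).trans (dvd_of_chain hM hL1)
    rwa [Nat.sub_add_cancel hm] at this
  refine sup_J_anti hmL ?_
  obtain ⟨u, hu, y, hy, huy⟩ := Submodule.mem_sup.1 (hxc (M L) (hM0 L))
  obtain ⟨s, hs, ρ, hρ, rfl⟩ := Submodule.mem_sup.1 hu
  obtain ⟨b, N, hiN, hbN, hρ'⟩ := exists_coeffs _ hρ i
  have hfull := sum_rel w0 z b 0 N (Nat.zero_le N)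
  rw [← hρ', hbN N le_rfl, zero_smul, add_zero] at hfull
  have hfull' : ρ = b 0 • w0 + ∑ l ∈ Finset.Ico 0 (2 * N), coef b l • z l := by
    rw [hfull]
    simp [Qs]
  have hext : ∀ l, 2 * i ≤ l → l < 2 * N → l < L → coef b l = 0 ∨ z l ∈ S := by
    intro l h1 h2 h3
    refine extract hM hz hw hzF (a := b 0) h2 (hsep l (by omega)) ?_
    rw [← hfull']
    have : ρ = x - s - y := by rw [← huy]; abel
    rw [this]
    refine sub_mem (sub_mem ?_ ?_) ?_
    · exact Submodule.mem_sup_left (Submodule.mem_sup_right (hj0 l (by omega)))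
    · exact Submodule.mem_sup_left (Submodule.mem_sup_left hs)
    · exact Submodule.mem_sup_right (J_anti (dvd_of_chain hM h3) hy)
  have hD : ∀ l, 2 * i ≤ l → l < 2 * N → coef b l • z l ∈ S ⊔ J K (M L) := by
    intro l h1 h2
    by_cases h3 : l < L
    · rcases hext l h1 h2 h3 with h | h
      · rw [h, zero_smul]; exact zero_mem _
      · exact Submodule.mem_sup_left (Submodule.smul_mem _ _ h)
    · exact Submodule.mem_sup_right (Submodule.smul_mem _ _
        (J_anti (dvd_of_chain hM (not_lt.1 h3)) (hz l)))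
  have hQ : b i • Qs w0 z i ∈ S := by
    rcases hci with h | h
    · have hb : b i = 0 := by
        rcases eq_or_lt_of_le hiN with h' | h'
        · exact hbN i h'.ge
        · rcases hext (2 * i) le_rfl (by omega) (by omega) with h'' | h''
          · unfold coef at h''
            rw [if_pos (by omega), show 2 * i / 2 = i by omega] at h''
            exact neg_eq_zero.1 h''
          · exact absurd h'' h
      rw [hb, zero_smul]; exact zero_mem _
    · exact Submodule.smul_mem _ _ h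
  have htail := sum_rel w0 z b i N hiN
  rw [hbN N le_rfl, zero_smul, add_zero] at htail
  have htail' : ∑ j ∈ Finset.Ico i N, b j • rel w0 z j ∈ S ⊔ J K (M L) := by
    rw [htail]
    refine add_mem (neg_mem (Submodule.mem_sup_left hQ)) (Submodule.sum_mem _ fun l hl => ?_)
    exact hD l (Finset.mem_Ico.1 hl).1 (Finset.mem_Ico.1 hl).2
  have hhead : ∑ j ∈ Finset.Ico 0 i, b j • rel w0 z j
      ∈ Submodule.span K (rel w0 z '' Set.Iio i) :=
    Submodule.sum_mem _ fun j hj => Submodule.smul_mem _ _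
      (Submodule.subset_span ⟨j, (Finset.mem_Ico.1 hj).2, rfl⟩)
  rw [← huy, hρ', ← Finset.sum_Ico_consecutive _ (Nat.zero_le i) hiN]
  refine add_mem (add_mem ?_ (add_mem ?_ ?_)) ?_
  · exact Submodule.mem_sup_left (Submodule.mem_sup_left hs)
  · exact Submodule.mem_sup_left (Submodule.mem_sup_right hhead)
  · exact sup_le_sup_right (le_sup_left (a := S)) (J K (M L)) htail'
  · exact Submodule.mem_sup_right hy

/-- The element `w0` is not in `U + Rel` when no odd-indexed `z` lies in `U`. -/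
theorem not_mem_sup_rel {w0 : V K} {z : ℕ → V K} {M : ℕ → ℕ}
    {F : ℕ → Submodule K (V K)}
    (hM : ∀ l, M l ∣ M (l + 1)) (hz : ∀ l, z l ∈ J K (M l))
    (hw : ∀ l, w0 ∈ F l) (hzF : ∀ j l, j < l → z j ∈ F l) {U : Submodule K (V K)}
    (hsep : ∀ l, z l ∈ U ⊔ F l ⊔ J K (M (l + 1)) → z l ∈ U)
    (hodd : ∀ j, z (2 * j + 1) ∉ U) (hw0 : w0 ∉ U) :
    w0 ∉ U ⊔ Submodule.span K (Set.range (rel w0 z)) := by
  intro h
  obtain ⟨s, hs, ρ, hρ, hsρ⟩ := Submodule.mem_sup.1 h
  obtain ⟨b, N, -, hbN, hρ'⟩ := exists_coeffs _ hρ 0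
  have hfull := sum_rel w0 z b 0 N (Nat.zero_le N)
  rw [← hρ', hbN N le_rfl, zero_smul, add_zero] at hfull
  have hfull' : ρ = b 0 • w0 + ∑ l ∈ Finset.Ico 0 (2 * N), coef b l • z l := by
    rw [hfull]
    simp [Qs]
  have hext : ∀ l, l < 2 * N → coef b l = 0 ∨ z l ∈ U := by
    intro l h2
    refine extract hM hz hw hzF (a := b 0) h2 (hsep l) ?_
    rw [← hfull']
    have : ρ = w0 - s := by rw [← hsρ]; abel
    rw [this]
    refine sub_mem ?_ ?_
    · exact Submodule.mem_sup_left (Submodule.mem_sup_right (hw l))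
    · exact Submodule.mem_sup_left (Submodule.mem_sup_left hs)
  have hstep : ∀ j, j < N → b j = b (j + 1) := by
    intro j hj
    rcases hext (2 * j + 1) (by omega) with h' | h'
    · unfold coef at h'
      rw [if_neg (by omega), show (2 * j + 1) / 2 = j by omega] at h'
      exact sub_eq_zero.1 h'
    · exact absurd h' (hodd j)
  have hb0 : ∀ j, j ≤ N → b 0 = b j := by
    intro j hj
    induction j with
    | zero => rfl
    | succ j ih => rw [ih (by omega), hstep j (by omega)]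
  have hb : b 0 = 0 := by rw [hb0 N le_rfl, hbN N le_rfl]
  apply hw0
  rw [← hsρ, hfull', hb, zero_smul, zero_add]
  refine add_mem hs (Submodule.sum_mem _ fun l hl => ?_)
  rcases hext l (Finset.mem_Ico.1 hl).2 with h' | h'
  · rw [h', zero_smul]; exact zero_mem _
  · exact Submodule.smul_mem _ _ h'

end Pool.Agent.Lib.MP_7bd500_al
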