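import Pool.Agent.Lib.MP_7bd500_al.VFDefs

/-
Counting lemmas.
-/

set_option autoImplicit false

namespace Pool.Agent.Lib.MP_7bd500_al.VF

open Filter Topology

section
variable {X : Type}

theorem cnt_eq_ncard (p : X → Prop) : cnt p = ({x | p x}.ncard : ℝ) := rfl

theorem cnt_eq_filter [Fintype X] (p : X → Prop) [DecidablePred p] :
    cnt p = ((Finset.univ.filter p).card : ℝ) := by
  rw [cnt, Nat.card_eq_fintype_card, Fintype.card_subtype]

theorem fr_eq (p : X → Prop) : fr p = cnt p / (Nat.card X : ℝ) := rfl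

theorem cnt_nonneg (p : X → Prop) : 0 ≤ cnt p := Nat.cast_nonneg _

theorem fr_nonneg (p : X → Prop) : 0 ≤ fr p := div_nonneg (Nat.cast_nonneg _) (Nat.cast_nonneg _)

theorem cnt_false : cnt (fun _ : X => False) = 0 := by simp [cnt]

theorem cnt_true : cnt (fun _ : X => True) = Nat.card X := by
  rw [cnt_eq_ncard]
  simp

theorem cnt_comp_equiv {X' : Type} (e : X' ≃ X) (p : X → Prop) :
    cnt (fun x => p (e x)) = cnt p := by
  unfold cnt
  rw [Nat.card_congr (e.subtypeEquiv (q := p) fun _ => Iff.rfl)]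

theorem fr_comp_perm (e : Equiv.Perm X) (p : X → Prop) : fr (fun x => p (e x)) = fr p := by
  rw [fr_eq, fr_eq, cnt_comp_equiv]

variable [Finite X]

theorem cnt_mono {p q : X → Prop} (h : ∀ x, p x → q x) : cnt p ≤ cnt q := by
  rw [cnt_eq_ncard, cnt_eq_ncard]
  exact_mod_cast Set.ncard_le_ncard h (Set.toFinite _)

theorem cnt_le_card (p : X → Prop) : cnt p ≤ Nat.card X := by
  rw [← cnt_true]
  exact cnt_mono fun _ _ => trivial

theorem cnt_le_add {p q r : X → Prop} (h : ∀ x, p x → q x ∨ r x) : cnt p ≤ cnt q + cnt r := by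
  refine (cnt_mono h).trans ?_
  rw [cnt_eq_ncard, cnt_eq_ncard, cnt_eq_ncard]
  exact_mod_cast Set.ncard_union_le {x | q x} {x | r x}

theorem cnt_le_sum {I : Type} (s : Finset I) {p : X → Prop} {q : I → X → Prop}
    (h : ∀ x, p x → ∃ i ∈ s, q i x) : cnt p ≤ ∑ i ∈ s, cnt (q i) := by
  classical
  induction s using Finset.induction_on generalizing p with
  | empty =>
    rw [Finset.sum_empty, ← cnt_false (X := X)]
    exact cnt_mono fun x hx => by simpa using h x hx
  | insert a s ha ih =>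
    rw [Finset.sum_insert ha]
    refine (cnt_le_add (q := q a) (r := fun x => ∃ i ∈ s, q i x) fun x hx => ?_).trans
      (add_le_add le_rfl (ih fun _ hx => hx))
    simpa using h x hx

theorem exists_of_cnt_lt {p q : X → Prop} (h : cnt q < cnt p) : ∃ x, p x ∧ ¬ q x := by
  by_contra hc
  push Not at hc
  exact absurd (cnt_mono hc) (not_le.2 h)

theorem fr_mono {p q : X → Prop} (h : ∀ x, p x → q x) : fr p ≤ fr q :=
  div_le_div_of_nonneg_right (cnt_mono h) (Nat.cast_nonneg _)

theorem fr_le_add {p q r : X → Prop} (h : ∀ x, p x → q x ∨ r x) : fr p ≤ fr q + fr r := by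
  rw [fr_eq, fr_eq, fr_eq, ← add_div]
  exact div_le_div_of_nonneg_right (cnt_le_add h) (Nat.cast_nonneg _)

theorem fr_le_sum {I : Type} (s : Finset I) {p : X → Prop} {q : I → X → Prop}
    (h : ∀ x, p x → ∃ i ∈ s, q i x) : fr p ≤ ∑ i ∈ s, fr (q i) := by
  simp only [fr_eq]
  rw [← Finset.sum_div]
  exact div_le_div_of_nonneg_right (cnt_le_sum s h) (Nat.cast_nonneg _)

theorem exists_of_fr_lt {p q : X → Prop} (h : fr q < fr p) : ∃ x, p x ∧ ¬ q x := by
  by_contra hc
  push Not at hc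
  exact absurd (fr_mono hc) (not_le.2 h)

omit [Finite X] in
theorem fr_le_of_cnt_le {p : X → Prop} {c : ℝ} (hc : 0 ≤ c) (h : cnt p ≤ c * Nat.card X) :
    fr p ≤ c := by
  rw [fr_eq]
  exact div_le_of_le_mul₀ (Nat.cast_nonneg _) hc h

theorem cnt_eq_fr_mul (p : X → Prop) : cnt p = fr p * Nat.card X := by
  rcases eq_or_ne (Nat.card X : ℝ) 0 with h | h
  · rw [h, mul_zero]
    exact le_antisymm (h ▸ cnt_le_card p) (cnt_nonneg p)
  · rw [fr_eq, div_mul_cancel₀ _ h]

theorem fr_le_one (p : X → Prop) : fr p ≤ 1 :=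
  fr_le_of_cnt_le zero_le_one (by rw [one_mul]; exact cnt_le_card p)

end

/-- A finite union of asymptotically null sets is asymptotically null. -/
theorem tendsto_fr_of_exists {I : Type} (s : Finset I) {l : Filter ℕ} {X : ℕ → Type}
    [∀ n, Finite (X n)] {p : ∀ n, X n → Prop} {q : I → ∀ n, X n → Prop}
    (h : ∀ n x, p n x → ∃ i ∈ s, q i n x)
    (hq : ∀ i ∈ s, Tendsto (fun n => fr (q i n)) l (𝓝 0)) :
    Tendsto (fun n => fr (p n)) l (𝓝 0) := by
  have h1 := tendsto_finsetSum s hq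
  rw [Finset.sum_const_zero] at h1
  exact squeeze_zero (fun n => fr_nonneg _) (fun n => fr_le_sum s (h n)) h1

/-- Closeness on the generators gives closeness on all words (`Y n` may be infinite). -/
theorem close_all {S : Type} {X Y : ℕ → Type} [∀ n, Finite (X n)] (ι : ∀ n, X n → Y n)
    (φ : ∀ n, FreeGroup S →* Equiv.Perm (X n)) (ψ : ∀ n, FreeGroup S →* Equiv.Perm (Y n))
    (h : ∀ s : S, Tendsto (fun n => fr fun x =>
      ι n (φ n (FreeGroup.of s) x) ≠ ψ n (FreeGroup.of s) (ι n x)) atTop (𝓝 0))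
    (w : FreeGroup S) :
    Tendsto (fun n => fr fun x => ι n (φ n w x) ≠ ψ n w (ι n x)) atTop (𝓝 0) := by
  induction w using FreeGroup.induction_on with
  | C1 => simp [fr]
  | of s => exact h s
  | inv_of s ih =>
    refine ih.congr fun n => ?_
    rw [← fr_comp_perm (φ n (FreeGroup.of s)) fun x =>
      ι n (φ n (FreeGroup.of s)⁻¹ x) ≠ ψ n (FreeGroup.of s)⁻¹ (ι n x)]
    congr 1
    funext x
    have e1 : (φ n (FreeGroup.of s))⁻¹ (φ n (FreeGroup.of s) x) = x := by simp
    simp only [map_inv, e1, ne_eq, eq_iff_iff]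
    rw [Equiv.Perm.eq_inv_iff_eq, eq_comm]
  | mul a b ha hb =>
    have h1 := ha.add hb
    rw [add_zero] at h1
    refine squeeze_zero (fun n => fr_nonneg _) (fun n => ?_) h1
    rw [← fr_comp_perm (φ n b) fun x => ι n (φ n a x) ≠ ψ n a (ι n x)]
    refine fr_le_add fun x hx => ?_
    by_contra hc
    push Not at hc
    apply hx
    rw [map_mul, map_mul, Equiv.Perm.mul_apply, Equiv.Perm.mul_apply, hc.1, hc.2]

end Pool.Agent.Lib.MP_7bd500_al.VF
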