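import Pool.Agent.Lib.MP_7bd500_al.Main
import Pool.Agent.Lib.MP_7bd500_al.VFBas

/-
The group of `Main` needs unbounded enlargement.
-/

set_option autoImplicit false

namespace Pool.Agent.Lib.MP_7bd500_al.VF

open Filter Topology LaurentPolynomial

theorem bdd_comp_le {X Y : Type} [Finite Y] (ι : X ↪ Y) (p : Y → Prop) :
    cnt (fun x => p (ι x)) ≤ cnt p := by
  rw [cnt_eq_ncard, cnt_eq_ncard, ← Set.ncard_image_of_injective _ ι.injective]
  exact_mod_cast Set.ncard_le_ncard (by rintro _ ⟨x, hx, rfl⟩; exact hx) (Set.toFinite _)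

theorem bdd_count {G Y : Type} [Group G] [Finite Y] (ψ : G →* Equiv.Perm Y) (h e c : ℕ → G)
    (z : G) (hc : ∀ n g, c n * g = g * c n)
    (hcomm : ∀ a n, h a * e (a + n) = c n * e (a + n) * h a)
    (hz : ∀ y, (∀ n, ψ (c n) y = y) → ψ z y = y) (D : ℕ) :
    D * cnt (fun y => (∀ a < D, ψ (h a) y = y ∧ ψ (c a) y = y) ∧ ψ z y ≠ y) ≤ Nat.card Y := by
  let b : Y → ℕ := fun y => sInf {n | ψ (c n) y ≠ y}
  have hcy : ∀ n g y, ψ (c n) (ψ g y) = ψ g (ψ (c n) y) := fun n g y => by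
    rw [← Equiv.Perm.mul_apply, ← map_mul, hc, map_mul, Equiv.Perm.mul_apply]
  have hb : ∀ g y, b (ψ g y) = b y := fun g y => by
    simp only [b, hcy, ne_eq, (ψ g).injective.eq_iff]
  have hlt : ∀ y n, n < b y → ψ (c n) y = y := fun y n hn =>
    not_not.1 (Nat.notMem_of_lt_sInf hn)
  have hmem : ∀ y, ψ z y ≠ y → ψ (c (b y)) y ≠ y := fun y hy => by
    have hne : {n | ψ (c n) y ≠ y}.Nonempty := by
      by_contra h0
      exact hy (hz y fun n => not_not.1 fun hn => h0 ⟨n, hn⟩)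
    exact Nat.sInf_mem hne
  have hact : ∀ a n y, ψ (h a) y = y →
      ψ (h a) (ψ (e (a + n)) y) = ψ (e (a + n)) (ψ (c n) y) := fun a n y hy => by
    rw [← Equiv.Perm.mul_apply, ← map_mul, hcomm, map_mul, map_mul, Equiv.Perm.mul_apply,
      Equiv.Perm.mul_apply, hy, hcy]
  let P : Y → Prop := fun y => (∀ a < D, ψ (h a) y = y ∧ ψ (c a) y = y) ∧ ψ z y ≠ y
  have hD : ∀ y, P y → D ≤ b y := fun y hy => by
    by_contra h0
    exact hmem y hy.2 (hy.1 _ (not_le.1 h0)).2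
  have key : ∀ (i j : ℕ) (x x' : Y), P x → P x' → i < j → j < D →
      ψ (e (b x + i)) x ≠ ψ (e (b x' + j)) x' := by
    intro i j x x' hx hx' hij hj heq
    have hbb : b x = b x' := by rw [← hb (e (b x + i)) x, heq, hb]
    have h1 := hD x hx
    have e1 : b x + i = j + (b x + i - j) := by omega
    have e2 : b x' + j = j + b x' := by omega
    have h2 := hact j (b x + i - j) x (hx.1 j hj).1
    rw [← e1, hlt x _ (by omega)] at h2
    have h3 := hact j (b x') x' (hx'.1 j hj).1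
    rw [← e2, ← heq, h2, heq] at h3
    exact hmem x' hx'.2 ((ψ _).injective h3).symm
  let f : Fin D × {y // P y} → Y := fun q => ψ (e (b q.2 + q.1)) q.2
  have hf : Function.Injective f := by
    rintro ⟨i, x, hx⟩ ⟨j, x', hx'⟩ heq
    change ψ (e (b x + i)) x = ψ (e (b x' + j)) x' at heq
    rcases lt_trichotomy (i : ℕ) j with hij | hij | hij
    · exact absurd heq (key i j x x' hx hx' hij j.2)
    · have hbb : b x = b x' := by rw [← hb (e (b x + i)) x, heq, hb]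
      rw [hbb, hij] at heq
      exact Prod.ext (Fin.ext hij) (Subtype.ext ((ψ _).injective heq))
    · exact absurd heq.symm (key j i x' x hx' hx hij i.2)
  have h4 := Nat.card_le_card_of_injective f hf
  rw [Nat.card_prod, Nat.card_eq_fintype_card, Fintype.card_fin] at h4
  unfold cnt
  exact_mod_cast h4

theorem bdd_ratio {S G : Type} [Group G] (π : FreeGroup S →* G) (hπ : Function.Surjective π)
    (h e c : ℕ → G) (z : G) (hc : ∀ n g, c n * g = g * c n)
    (hcomm : ∀ a n, h a * e (a + n) = c n * e (a + n) * h a)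
    (hz : ∀ (Y : Type) [Finite Y] (ψ : G →* Equiv.Perm Y) (y : Y),
      (∀ n, ψ (c n) y = y) → ψ z y = y)
    (X : ℕ → Type) [∀ n, Finite (X n)] [∀ n, Nonempty (X n)]
    (φ : ∀ n, FreeGroup S →* Equiv.Perm (X n))
    (h1 : ∀ a w, π w = h a ∨ π w = c a → ∀ᶠ n in atTop, φ n w = 1)
    (h2 : ∀ w, π w = z → ∀ᶠ n in atTop, ∀ x, φ n w x ≠ x)
    (Y : ℕ → Type) [∀ n, Finite (Y n)] (ι : ∀ n, X n ↪ Y n)
    (ψ : ∀ n, FreeGroup S →* Equiv.Perm (Y n)) (hker : ∀ n, π.ker ≤ (ψ n).ker)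
    (hclose : ∀ s : S, Tendsto (fun n => fr fun x =>
      ι n (φ n (FreeGroup.of s) x) ≠ ψ n (FreeGroup.of s) (ι n x)) atTop (𝓝 0)) :
    Tendsto (fun n => (Nat.card (Y n) : ℝ) / Nat.card (X n)) atTop atTop := by
  classical
  have hpos : ∀ n, (0 : ℝ) < Nat.card (X n) := fun n => by exact_mod_cast Nat.card_pos
  have hall := close_all (fun n => ι n) φ ψ hclose
  choose σ hσ using id hπ
  have main : ∀ D : ℕ, ∀ᶠ n in atTop, (D : ℝ) / 2 ≤ (Nat.card (Y n) : ℝ) / Nat.card (X n) := by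
    intro D
    let W : Finset (FreeGroup S) := insert (σ z)
      (((Finset.range D).image fun a => σ (h a)) ∪ (Finset.range D).image fun a => σ (c a))
    have t1 : Tendsto (fun n => fr fun x => ∃ w ∈ W, ι n (φ n w x) ≠ ψ n w (ι n x))
        atTop (𝓝 0) :=
      tendsto_fr_of_exists W (q := fun w n x => ι n (φ n w x) ≠ ψ n w (ι n x))
        (fun _ _ hx => hx) fun w _ => hall w
    have t2 : ∀ᶠ n in atTop, ∀ a ∈ Finset.range D, φ n (σ (h a)) = 1 ∧ φ n (σ (c a)) = 1 :=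
      (Finset.range D).eventually_all.2 fun a _ =>
        (h1 a _ (Or.inl (hσ _))).and (h1 a _ (Or.inr (hσ _)))
    filter_upwards [t1.eventually (ge_mem_nhds (half_pos one_pos)), t2, h2 _ (hσ z)]
      with n a1 a2 a3
    let ψ' : G →* Equiv.Perm (Y n) := π.liftOfSurjective hπ ⟨ψ n, hker n⟩
    have hψ' : ∀ g, ψ' g = ψ n (σ g) := fun g => by
      rw [← π.liftOfRightInverse_comp_apply _ (Function.rightInverse_surjInv hπ) ⟨ψ n, hker n⟩, hσ]
    have b1 := bdd_count ψ' h e c z hc hcomm (hz (Y n) ψ') D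
    have b2 := bdd_comp_le (ι n)
      fun y => (∀ a < D, ψ' (h a) y = y ∧ ψ' (c a) y = y) ∧ ψ' z y ≠ y
    have b3 : (Nat.card (X n) : ℝ) ≤ (cnt fun x => (∀ a < D, ψ' (h a) (ι n x) = ι n x ∧
        ψ' (c a) (ι n x) = ι n x) ∧ ψ' z (ι n x) ≠ ι n x)
        + cnt fun x => ∃ w ∈ W, ι n (φ n w x) ≠ ψ n w (ι n x) := by
      rw [← cnt_true]
      refine cnt_le_add fun x _ => ?_
      by_cases hx : ∃ w ∈ W, ι n (φ n w x) ≠ ψ n w (ι n x)
      · exact Or.inr hx
      left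
      push Not at hx
      refine ⟨fun a ha => ⟨?_, ?_⟩, ?_⟩
      · rw [hψ', ← hx _ (Finset.mem_insert_of_mem (Finset.mem_union_left _
          (Finset.mem_image.2 ⟨a, Finset.mem_range.2 ha, rfl⟩))), (a2 a (Finset.mem_range.2 ha)).1]
        rfl
      · rw [hψ', ← hx _ (Finset.mem_insert_of_mem (Finset.mem_union_right _
          (Finset.mem_image.2 ⟨a, Finset.mem_range.2 ha, rfl⟩))), (a2 a (Finset.mem_range.2 ha)).2]
        rfl
      · rw [hψ', ← hx _ (Finset.mem_insert_self _ _)]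
        exact fun h0 => a3 x ((ι n).injective h0)
    rw [fr_eq, div_le_iff₀ (hpos n)] at a1
    rw [le_div_iff₀ (hpos n)]
    have hD : (0 : ℝ) ≤ D := Nat.cast_nonneg _
    nlinarith [mul_le_mul_of_nonneg_left b2 hD, mul_le_mul_of_nonneg_left b3 hD,
      mul_le_mul_of_nonneg_left a1 hD]
  rw [tendsto_atTop]
  intro C
  obtain ⟨D, hD⟩ := exists_nat_ge (2 * C)
  filter_upwards [main D] with n hn
  linarith

variable {K : Type} [Field K]

/-- The shifted first lamp generator. -/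
noncomputable def hA (K : Type) [Field K] (a : ℤ) : G0 K :=
  (⟨gt K, gt_mem⟩ : G0 K) ^ a * ⟨gh K, gh_mem⟩ * ((⟨gt K, gt_mem⟩ : G0 K) ^ a)⁻¹

/-- The shifted second lamp generator. -/
noncomputable def eA (K : Type) [Field K] (a : ℤ) : G0 K :=
  (⟨gt K, gt_mem⟩ : G0 K) ^ a * ⟨ge K, ge_mem⟩ * ((⟨gt K, gt_mem⟩ : G0 K) ^ a)⁻¹

/-- The commutators of the two kinds of lamp generators. -/
noncomputable def cA (K : Type) [Field K] (a : ℤ) : G0 K :=
  hA K 0 * eA K a * (hA K 0)⁻¹ * (eA K a)⁻¹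

theorem hA_coe (a : ℤ) : (hA K a : Gam K) = gt K ^ a * gh K * (gt K ^ a)⁻¹ := by simp [hA]

theorem eA_coe (a : ℤ) : (eA K a : Gam K) = gt K ^ a * ge K * (gt K ^ a)⁻¹ := by simp [eA]

theorem cA_coe (a : ℤ) : (cA K a : Gam K) = cen (om (hh K) (0, T a)) := by
  have h0 : (hA K 0 : Gam K) = gh K := by simp [hA_coe]
  have h1 : (eA K a : Gam K).n = 0 := by rw [eA_coe, conj_n]; rfl
  have h2 : (eA K a : Gam K).v = (0, T a) := by
    rw [eA_coe, conj_v _ _ rfl, gt_zpow_n]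
    refine Prod.ext ?_ ?_ <;> simp [ge, ee]
  change (hA K 0 : Gam K) * eA K a * (hA K 0 : Gam K)⁻¹ * (eA K a : Gam K)⁻¹ = _
  rw [h0, commutator_eq _ _ rfl h1, h2]
  rfl

theorem cA_comm (a : ℤ) (g : G0 K) : cA K a * g = g * cA K a :=
  Subtype.ext (by rw [Subgroup.coe_mul, Subgroup.coe_mul, cA_coe, cen_comm])

theorem hA_eA (a n : ℤ) : hA K a * eA K (a + n) = cA K n * eA K (a + n) * hA K a := by
  have h1 := cA_comm n ((⟨gt K, gt_mem⟩ : G0 K) ^ a)
  have h2 : cA K n = (⟨gt K, gt_mem⟩ : G0 K) ^ a * cA K n * ((⟨gt K, gt_mem⟩ : G0 K) ^ a)⁻¹ := by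
    rw [← h1, mul_inv_cancel_right]
  rw [h2]
  simp only [cA, hA, eA, zpow_add, zpow_zero]
  group

theorem hA_mem (a : ℤ) : (hA K a : Gam K) ∈ Hs K := by
  rw [hA_coe]
  have h : gh K ∈ Hs K := ⟨rfl, zero_mem _, rfl⟩
  exact Subgroup.Normal.conj_mem inferInstance _ h _

theorem cA_mem (a : ℤ) : (cA K a : Gam K) ∈ Hs K := by
  rw [cA_coe, om_hh]
  exact ⟨rfl, rfl, rfl⟩

section
variable {G : Type} [Group G] {Rel : Submodule K (V K)} (p : G0 K →* G)
  (hp : Function.Surjective p) (hker : ∀ a : G0 K, p a = 1 ↔ (a : Gam K) ∈ cenSub Rel)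

include hp in
theorem bdd_center : derivedSeries G 2 ≤ Subgroup.center G := by
  have h1 : derivedSeries (Gam K) 1 ≤ (chi (K := K)).ker := by
    rw [derivedSeries_succ, Subgroup.commutator_le]
    intro a _ b _
    rw [MonoidHom.mem_ker, map_commutatorElement, commutatorElement_eq_one_iff_mul_comm, mul_comm]
  have h2 : derivedSeries (Gam K) 2 ≤ cenSub ⊤ := by
    rw [derivedSeries_succ, Subgroup.commutator_le]
    intro a ha b hb
    have ha0 : a.n = 0 := h1 ha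
    have hb0 : b.n = 0 := h1 hb
    rw [commutatorElement_def, commutator_eq a b ha0 hb0]
    exact cen_mem_cenSub.2 Submodule.mem_top
  rw [← map_derivedSeries_eq hp]
  rintro _ ⟨a, ha, rfl⟩
  have h3 := h2 (map_derivedSeries_le_derivedSeries (G0 K).subtype 2 ⟨a, ha, rfl⟩)
  rw [Subgroup.mem_center_iff]
  intro g
  obtain ⟨g, rfl⟩ := hp g
  rw [← map_mul, ← map_mul]
  congr 1
  refine Subtype.ext ?_
  have h4 : (a : Gam K) = cen (a : Gam K).w := eq_cen h3.1 h3.2.2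
  rw [Subgroup.coe_mul, Subgroup.coe_mul, h4, cen_comm]

include hker in
theorem bdd_fix [PrimeOdd K]
    (hrel : ∀ m : ℕ, 0 < m → ∃ (v : V K) (M : ℕ) (ζ : R K), m ∣ M ∧
      w0 K + om v (sh M v) - om (hh K) (0, ζ) ∈ Rel)
    (Y : Type) [Finite Y] (ψ : G →* Equiv.Perm Y) (y : Y)
    (hy : ∀ n : ℕ, ψ (p (cA K n)) y = y) : ψ (p ⟨cen (w0 K), cen_w0_mem⟩) y = y := by
  let St : Subgroup (G0 K) := (MulAction.stabilizer (Equiv.Perm Y) y).comap (ψ.comp p)
  let A : Subgroup (Gam K) := St.map (G0 K).subtype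
  have hA' : ∀ g : G0 K, (g : Gam K) ∈ A ↔ ψ (p g) y = y := fun g =>
    Subgroup.mem_map_iff_mem (G0 K).subtype_injective
  have hint : ∀ n : ℤ, ψ (p (cA K n)) y = y := by
    intro n
    obtain ⟨k, hk⟩ := (mem_powers_iff_mem_zpowers (x := ψ (p ⟨gt K, gt_mem⟩))).2 ⟨n, rfl⟩
    have h1 : ψ (p (cA K n)) = ψ (p (cA K k)) := by
      have hk' : ψ (p ⟨gt K, gt_mem⟩) ^ n = ψ (p ⟨gt K, gt_mem⟩) ^ (k : ℤ) := by
        rw [zpow_natCast]
        exact hk.symm
      simp only [cA, eA, map_mul, map_inv, map_zpow, hk']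
    rw [h1, hy]
  have hζ : ∀ ζ : R K, om (hh K) (0, ζ) ∈ CW A := by
    intro ζ
    induction ζ using LaurentPolynomial.induction_on' with
    | add f g hf hg =>
      have : om (hh K) (0, f + g) = om (hh K) (0, f) + om (hh K) (0, g) := by
        rw [om_hh, om_hh, om_hh, mul_add]
        simp
      rw [this]
      exact add_mem hf hg
    | C_mul_T n a =>
      have : om (hh K) (0, C a * T n) = a • om (hh K) (0, T n) := by
        rw [om_hh, om_hh, ← smul_eq_C_mul]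
        simp
      rw [this]
      refine Submodule.smul_mem _ _ ?_
      rw [mem_CW, ← cA_coe, hA']
      exact hint n
  obtain ⟨v, M, ζ, ⟨c, hc⟩, hrel⟩ := hrel (Nat.card (Equiv.Perm Y)) Nat.card_pos
  obtain ⟨a, ha, ha0, rfl⟩ := BV_G0 v
  let a0 : G0 K := ⟨a, ha⟩
  let u0 : G0 K := (⟨gt K, gt_mem⟩ : G0 K) ^ M
  have hu : ψ (p u0) = 1 := by
    simp only [u0, map_pow, hc, pow_mul, pow_card_eq_one', one_pow]
  have hun : (u0 : Gam K).n = M := by
    change (gt K ^ M).n = M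
    rw [← zpow_natCast, gt_zpow_n]
  have e1 := commutator_eq a ((u0 : Gam K) * a * (u0 : Gam K)⁻¹) ha0 (by rw [conj_n, ha0])
  rw [conj_v _ _ ha0, hun] at e1
  have h3 : om a.v (sh M a.v) ∈ CW A := by
    rw [mem_CW, om, ← e1]
    refine (hA' (a0 * (u0 * a0 * u0⁻¹) * a0⁻¹ * (u0 * a0 * u0⁻¹)⁻¹)).2 ?_
    have : ψ (p (a0 * (u0 * a0 * u0⁻¹) * a0⁻¹ * (u0 * a0 * u0⁻¹)⁻¹)) = 1 := by
      simp only [map_mul, map_inv, hu]
      group
    rw [this]
    rfl
  have hle : A ≤ G0 K := Subgroup.map_subtype_le _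
  have h4 : w0 K + om a.v (sh M a.v) - om (hh K) (0, ζ) ∈ CW A := by
    have h5 : w0 K + om a.v (sh M a.v) - om (hh K) (0, ζ) ∈ CW (G0 K) :=
      sub_mem (add_mem cen_w0_mem (hle h3)) (hle (hζ ζ))
    refine (hA' ⟨_, h5⟩).2 ?_
    rw [(hker _).2 (cen_mem_cenSub.2 hrel), map_one]
    rfl
  have h6 : w0 K ∈ CW A := by
    have := sub_mem (add_mem h4 (hζ ζ)) h3
    simpa using this
  exact (hA' ⟨_, cen_w0_mem⟩).1 h6

include hp hker in
theorem bdd_approx [Finite K] {r : ℕ → V K} (hr : Rel = Submodule.span K (Set.range r))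
    (hw : w0 K ∉ UU K ⊔ Rel) {S : Type} (π : FreeGroup S →* G) :
    ∃ (X : ℕ → Type) (_ : ∀ n, Finite (X n)) (_ : ∀ n, Nonempty (X n))
      (φ : ∀ n, FreeGroup S →* Equiv.Perm (X n)),
      (∀ (a : G0 K) w, (a : Gam K) ∈ Hs K → π w = p a → ∀ᶠ n in atTop, φ n w = 1) ∧
      (∀ w, π w = p ⟨cen (w0 K), cen_w0_mem⟩ → ∀ᶠ n in atTop, ∀ x, φ n w x ≠ x) := by
  have hU : Closed (UU K) := by
    refine closed_of_stable one_pos _ fun y hy => ?_
    rw [mem_UU] at hy ⊢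
    rw [Prod.smul_snd, hy, smul_zero]
  have hm : ∀ n : ℕ, ∃ m : ℕ, 0 < m ∧
      w0 K ∉ UU K ⊔ Submodule.span K (r '' Set.Iio n) ⊔ J K m := by
    intro n
    by_contra hc
    push Not at hc
    apply hw
    rw [hr]
    exact sup_le_sup_left (Submodule.span_mono (Set.image_subset_range r (Set.Iio n))) (UU K)
      (hU.sup_span ((Set.finite_Iio n).image r) _ hc)
  choose m hm0 hm using hm
  let N : ℕ → Subgroup (Gam K) := fun n =>
    Hs K ⊔ cenSub (Submodule.span K (r '' Set.Iio n)) ⊔ Cong K (m n)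
  have hNn : ∀ n, (N n).Normal := fun n => inferInstance
  have hNf : ∀ n, (N n).FiniteIndex := by
    intro n
    have := finiteIndex_Cong (K := K) (hm0 n)
    exact Subgroup.finiteIndex_of_le le_sup_right
  choose lf hlf using hp
  let πt : FreeGroup S →* G0 K := FreeGroup.lift fun s => lf (π (FreeGroup.of s))
  have hπt : ∀ w, p (πt w) = π w := by
    have : p.comp πt = π := by
      ext s
      simp [πt, hlf]
    exact fun w => DFunLike.congr_fun this w
  have hev : ∀ (w : FreeGroup S) (a : G0 K), π w = p a →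
      ∀ᶠ n in atTop, (a : Gam K)⁻¹ * πt w ∈ N n := by
    intro w a hwa
    have h1 : p (a⁻¹ * πt w) = 1 := by rw [map_mul, map_inv, hπt, hwa, inv_mul_cancel]
    rw [hker] at h1
    have h2 := h1.2.1
    rw [hr] at h2
    filter_upwards [eventually_mem_span r h2] with n hn
    exact Subgroup.mem_sup_left (Subgroup.mem_sup_right ⟨h1.1, hn, h1.2.2⟩)
  have htriv : ∀ n, ∀ g ∈ N n, MulAction.toPermHom (Gam K) (Gam K ⧸ N n) g = 1 := by
    intro n g hg
    rw [← MonoidHom.mem_ker, ← Subgroup.normalCore_eq_ker, Subgroup.normalCore_eq_self]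
    exact hg
  refine ⟨fun n => Gam K ⧸ N n, fun n => inferInstance, fun n => inferInstance,
    fun n => (MulAction.toPermHom (Gam K) (Gam K ⧸ N n)).comp ((G0 K).subtype.comp πt),
    ?_, ?_⟩
  · intro a w ha hw1
    filter_upwards [hev w _ hw1] with n hn
    have h1 : (a : Gam K) ∈ N n := Subgroup.mem_sup_left (Subgroup.mem_sup_left ha)
    exact htriv n _ (by simpa using mul_mem h1 hn)
  · intro w hw1
    filter_upwards [hev w _ hw1] with n hn x hx
    obtain ⟨y, rfl⟩ := QuotientGroup.mk_surjective x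
    have h1 : (((πt w : Gam K) * y : Gam K) : Gam K ⧸ N n) = (y : Gam K ⧸ N n) := hx
    have h2 := (hNn n).conj_mem _ (QuotientGroup.eq.1 h1) y
    have h3 : (cen (w0 K))⁻¹ ∈ N n := by
      have := mul_mem hn h2
      simpa [mul_assoc] using this
    exact hm n (cen_mem_sup ((Subgroup.inv_mem_iff _).1 h3))

end

theorem main_bdd : ∃ (G : Type) (_ : Group G), Group.FG G ∧
    derivedSeries G 2 ≤ Subgroup.center G ∧
    (∃ μ : Set G → ℝ, (∀ A, 0 ≤ μ A) ∧ μ Set.univ = 1 ∧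
      (∀ A B : Set G, Disjoint A B → μ (A ∪ B) = μ A + μ B) ∧
      ∀ (g : G) (A : Set G), μ ((fun x => g * x) '' A) = μ A) ∧
    (∀ H : Subgroup G, H.FG → ∀ g, g ∉ H → ∃ L : Subgroup G, L.FiniteIndex ∧ H ≤ L ∧ g ∉ L) ∧
    ∀ (S : Type) (π : FreeGroup S →* G), Function.Surjective π →
      ∃ (X : ℕ → Type) (_ : ∀ n, Finite (X n)) (φ : ∀ n, FreeGroup S →* Equiv.Perm (X n)),
        (∀ w, π w = 1 → ∀ᶠ n in atTop, φ n w = 1) ∧
        ∀ (Y : ℕ → Type) [∀ n, Finite (Y n)] (ι : ∀ n, X n ↪ Y n)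
          (ψ : ∀ n, FreeGroup S →* Equiv.Perm (Y n)), (∀ n, π.ker ≤ (ψ n).ker) →
          (∀ s : S, Tendsto (fun n => fr fun x =>
            ι n (φ n (FreeGroup.of s) x) ≠ ψ n (FreeGroup.of s) (ι n x)) atTop (𝓝 0)) →
          Tendsto (fun n => (Nat.card (Y n) : ℝ) / Nat.card (X n)) atTop atTop := by
  obtain ⟨r, h1, h2, h3⟩ := exists_Rel (K := ZMod 3)
  let Rel := Submodule.span (ZMod 3) (Set.range r)
  let p := QuotientGroup.mk' ((cenSub Rel).subgroupOf (G0 (ZMod 3)))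
  have hp : Function.Surjective p := QuotientGroup.mk'_surjective _
  have hker : ∀ a : G0 (ZMod 3), p a = 1 ↔ (a : Gam (ZMod 3)) ∈ cenSub Rel := fun a =>
    QuotientGroup.eq_one_iff a
  refine ⟨_, inferInstance, fg_of p hp, bdd_center p hp, amenable_of p hp,
    lerf_of p hp hker h1, fun S π hπ => ?_⟩
  obtain ⟨X, hX1, hX2, φ, a1, a2⟩ := bdd_approx p hp hker rfl h2 π
  refine ⟨X, hX1, φ, fun w hw => a1 1 w (one_mem _) (by rw [hw, map_one]),
    fun Y _ ι ψ b1 b2 => ?_⟩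
  refine bdd_ratio π hπ (fun a => p (hA _ a)) (fun a => p (eA _ a)) (fun a => p (cA _ a)) _
    ?_ ?_ (bdd_fix p hker h3) X φ ?_ a2 Y ι ψ b1 b2
  · intro n g
    obtain ⟨g, rfl⟩ := hp g
    rw [← map_mul, ← map_mul, cA_comm]
  · intro a n
    rw [← map_mul, ← map_mul, ← map_mul, Nat.cast_add, hA_eA]
  · rintro a w (h | h)
    · exact a1 _ w (hA_mem _) h
    · exact a1 _ w (cA_mem _) h

end Pool.Agent.Lib.MP_7bd500_al.VF
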