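import Pool.Agent.Lib.MP_7bd500_al.VFBas

/-
A finite model of the action on a coset space.
-/

set_option autoImplicit false

namespace Pool.Agent.Lib.MP_7bd500_al.VF

theorem convb_cnt {Z : Type} (T : Finset Z) (p : Z → Prop) [DecidablePred p] :
    cnt (fun x : T => p x.1) = ((T.filter p).card : ℝ) := by
  rw [cnt_eq_filter]
  congr 1
  exact Finset.card_bij (fun x _ => x.1) (fun x hx => by simpa using (Finset.mem_filter.1 hx).2)
    (fun _ _ _ _ h => Subtype.ext h) fun z hz =>
      ⟨⟨z, (Finset.mem_filter.1 hz).1⟩, by simpa using (Finset.mem_filter.1 hz).2, rfl⟩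

theorem convb_extend {Z : Type} (T : Finset Z) {f : Z → Z} (hf : Function.Injective f) :
    ∃ σ : Equiv.Perm T, ∀ x : T, f x ∈ T → (σ x : Z) = f x := by
  obtain ⟨σ, hσ⟩ := Equiv.Perm.exists_extending_pair (α := {x : T // f x ∈ T}) (β := T)
    (f := Subtype.val) (g := fun x => ⟨f x.1, x.2⟩) Subtype.val_injective
    fun x y h => Subtype.ext (Subtype.ext (hf (congrArg Subtype.val h)))
  exact ⟨σ, fun x hx => congrArg Subtype.val (hσ ⟨x, hx⟩)⟩

open Classical in
theorem convb_le {G : Type} [Group G] (F : Finset G) (H : Subgroup G) (g : G) :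
    (((F.filter fun a => a * g⁻¹ ∈ F).val.map fun a => ((a⁻¹ : G) : G ⧸ H)).map fun c => g • c) ≤
      F.val.map fun a => ((a⁻¹ : G) : G ⧸ H) := by
  have h1 : ((F.filter fun a => a * g⁻¹ ∈ F).val.map fun a => a * g⁻¹) ≤ F.val := by
    rw [Multiset.le_iff_subset ((F.filter _).nodup.map (mul_left_injective _))]
    intro b hb
    obtain ⟨a, ha, rfl⟩ := Multiset.mem_map.1 hb
    exact (Finset.mem_filter.1 ha).2
  refine le_of_eq_of_le ?_ (Multiset.map_le_map h1)
  rw [Multiset.map_map, Multiset.map_map]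
  refine Multiset.map_congr rfl fun a _ => ?_
  simp [MulAction.Quotient.smul_mk]

open Classical in
theorem exists_model {S G : Type} [Group G] (π : FreeGroup S →* G) (F : Finset G)
    (H : Subgroup G) :
    ∃ (X : Type) (_ : Finite X) (ι : X ↪ (G ⧸ H) × ℕ) (φ : FreeGroup S →* Equiv.Perm X),
      Nat.card X = F.card ∧
      (∀ s : S, cnt (fun x => ι (φ (FreeGroup.of s) x) ≠ (π (FreeGroup.of s) • (ι x).1, (ι x).2))
        ≤ (F.filter fun a => a * (π (FreeGroup.of s))⁻¹ ∉ F).card) ∧
      ∀ p : G ⧸ H → Prop,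
        cnt (fun x => p (ι x).1) = (F.filter fun a => p ((a⁻¹ : G) : G ⧸ H)).card := by
  set M : Multiset (G ⧸ H) := F.val.map fun a => ((a⁻¹ : G) : G ⧸ H) with hM
  have hinj : ∀ g : G, Function.Injective fun z : (G ⧸ H) × ℕ => (g • z.1, z.2) := by
    intro g z w h
    simp only [Prod.mk.injEq, smul_left_cancel_iff] at h
    exact Prod.ext h.1 h.2
  choose σ hσ using fun s : S => convb_extend M.toEnumFinset (hinj (π (FreeGroup.of s)))
  have hc : M.toEnumFinset.card = F.card := by
    rw [Multiset.card_toEnumFinset, hM, Multiset.card_map, Finset.card_val]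
  refine ⟨M.toEnumFinset, inferInstance, Function.Embedding.subtype _, FreeGroup.lift σ, ?_,
    fun s => ?_, fun p => ?_⟩
  · rw [Nat.card_eq_fintype_card, Fintype.card_coe, hc]
  · set g := π (FreeGroup.of s) with hg
    set M0 : Multiset (G ⧸ H) :=
      (F.filter fun a => a * g⁻¹ ∈ F).val.map fun a => ((a⁻¹ : G) : G ⧸ H) with hM0
    have h1 : M0.toEnumFinset ⊆ M.toEnumFinset :=
      Multiset.toEnumFinset_mono (Multiset.map_le_map (Finset.val_le_iff.2 (Finset.filter_subset _ _)))
    have h2 : ∀ z ∈ M0.toEnumFinset, (g • z.1, z.2) ∈ M.toEnumFinset := by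
      intro z hz
      rw [Multiset.mem_toEnumFinset] at hz ⊢
      refine lt_of_lt_of_le ?_ (Multiset.count_le_of_le _ (convb_le F H g))
      rwa [Multiset.count_map_eq_count' _ _ (MulAction.injective g)]
    have h3 : M0.toEnumFinset.card = (F.filter fun a => a * g⁻¹ ∈ F).card := by
      rw [Multiset.card_toEnumFinset, hM0, Multiset.card_map, Finset.card_val]
    refine (cnt_mono (q := fun x : M.toEnumFinset => x.1 ∉ M0.toEnumFinset) fun x hx h => hx ?_).trans
      (le_of_eq ?_)
    · rw [convb_cnt M.toEnumFinset fun z => z ∉ M0.toEnumFinset, Finset.filter_notMem_eq_sdiff,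
        Finset.card_sdiff_of_subset h1, hc, h3]
      congr 1
      have := Finset.card_filter_add_card_filter_not (s := F) fun a => a * g⁻¹ ∈ F
      omega
    · rw [FreeGroup.lift_apply_of]
      exact hσ s x (h2 _ h)
  · refine (convb_cnt M.toEnumFinset fun z => p z.1).trans ?_
    congr 1
    have h1 := Multiset.countP_map Prod.fst M.toEnumFinset.val p
    rw [Multiset.map_toEnumFinset_fst, hM, Multiset.countP_map] at h1
    exact h1.symm

end Pool.Agent.Lib.MP_7bd500_al.VF
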