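import Pool.Agent.Lib.MP_7bd500_al.VFConvA
import Pool.Agent.Lib.MP_7bd500_al.VFConvB

/-
Very flexible stability forces every invariant random subgroup onto limits of finite index
subgroups.
-/

set_option autoImplicit false

namespace Pool.Agent.Lib.MP_7bd500_al.VF

open Filter Topology MeasureTheory

/-- The action on copies of a coset space. -/
def conv_rho {S G : Type} [Group G] (π : FreeGroup S →* G) (H : Subgroup G) :
    FreeGroup S →* Equiv.Perm ((G ⧸ H) × ℕ) :=
  MonoidHom.mk' (fun w => Equiv.prodCongr (MulAction.toPerm (π w)) (Equiv.refl ℕ)) fun a b => by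
    refine Equiv.ext fun z => Prod.ext ?_ rfl
    show π (a * b) • z.1 = π a • π b • z.1
    rw [map_mul, mul_smul]

theorem conv_rho_apply {S G : Type} [Group G] (π : FreeGroup S →* G) (H : Subgroup G)
    (w : FreeGroup S) (z : (G ⧸ H) × ℕ) : conv_rho π H w z = (π w • z.1, z.2) := rfl

theorem conv_fix {G : Type} [Group G] (H : Subgroup G) (a g : G) :
    g • ((a⁻¹ : G) : G ⧸ H) = ((a⁻¹ : G) : G ⧸ H) ↔ a * g * a⁻¹ ∈ H := by
  rw [MulAction.Quotient.smul_coe, eq_comm, QuotientGroup.eq, inv_inv, smul_eq_mul, mul_assoc]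

theorem conv_stab {S G Y : Type} [Group G] [Finite Y] (π : FreeGroup S →* G)
    (hπ : Function.Surjective π) (ψ : FreeGroup S →* Equiv.Perm Y) (hker : π.ker ≤ ψ.ker)
    (y : Y) : ∃ L : Subgroup G, L.FiniteIndex ∧ ∀ w, (π w ∈ L ↔ ψ w y = y) := by
  let χ : G →* Equiv.Perm Y := π.liftOfSurjective hπ ⟨ψ, hker⟩
  have hχ : ∀ w, χ (π w) = ψ w := fun w => MonoidHom.liftOfRightInverse_comp_apply _ _ _ _ w
  refine ⟨(MulAction.stabilizer (Equiv.Perm Y) y).comap χ,
    Subgroup.finiteIndex_of_le (H := χ.ker) fun g hg => ?_, fun w => ?_⟩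
  · rw [Subgroup.mem_comap, MonoidHom.mem_ker.1 hg]
    exact one_mem _
  · rw [Subgroup.mem_comap, hχ]
    exact Iff.rfl

theorem lim_of_vfs {S G : Type} [Countable S] [Group G] (π : FreeGroup S →* G)
    (hπ : Function.Surjective π) (hF : Fol G) (h : VFS π) (μ : Measure (Set G)) (hμ : IRS μ) :
    ∀ᵐ A ∂μ, Lim A := by
  classical
  have hcF : Countable (FreeGroup S) :=
    Function.Surjective.countable (f := (FreeGroup.mk : List (S × Bool) → FreeGroup S))
      Quot.mk_surjective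
  have hcG : Countable G := hπ.countable
  by_contra hc
  obtain ⟨W, τ, δ, hδ, hno, hmany⟩ := exists_many μ hμ hc
  obtain ⟨e, he⟩ := Countable.exists_injective_nat S
  have hfin : ∀ n : ℕ, (e ⁻¹' {i | i < n}).Finite := fun n =>
    (Set.finite_lt_nat n).preimage he.injOn
  choose F hne hFK using fun n : ℕ =>
    hF ((hfin n).toFinset.image fun s => (π (FreeGroup.of s))⁻¹) (1 / ((n : ℝ) + 1))
      Nat.one_div_pos_of_nat
  choose H hH using fun n => hmany (F n)
  choose X hX ι φ hcard hmod hp using fun n => exists_model π (F n) (H n)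
  have h1s : ∀ s : S, Tendsto (fun n => fr fun x =>
      ι n (φ n (FreeGroup.of s) x) ≠ conv_rho π (H n) (FreeGroup.of s) (ι n x)) atTop (𝓝 0) := by
    intro s
    refine squeeze_zero' (Eventually.of_forall fun n => fr_nonneg _) ?_
      tendsto_one_div_add_atTop_nhds_zero_nat
    filter_upwards [eventually_gt_atTop (e s)] with n hn
    refine fr_le_of_cnt_le Nat.one_div_pos_of_nat.le ((hmod n s).trans ?_)
    rw [hcard]
    exact hFK n _ (Finset.mem_image.2 ⟨s, (hfin n).mem_toFinset.2 hn, rfl⟩)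
  have h1 := close_all (fun n => ι n) φ (fun n => conv_rho π (H n)) h1s
  have hA : Asym π X φ := by
    intro w hw
    refine (h1 w).congr fun n => ?_
    congr 1
    funext x
    rw [conv_rho_apply, MonoidHom.mem_ker.1 hw, one_smul]
    exact propext (ι n).injective.ne_iff
  obtain ⟨Y, hY, j, ψ, hker, h2s⟩ := h X φ hA
  have h2 := close_all (fun n => j n) φ ψ h2s
  obtain ⟨σ, hσ⟩ := hπ.hasRightInverse
  have hbad : Tendsto (fun n => fr fun x => ∃ g ∈ W,
      ι n (φ n (σ g) x) ≠ conv_rho π (H n) (σ g) (ι n x) ∨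
        j n (φ n (σ g) x) ≠ ψ n (σ g) (j n x)) atTop (𝓝 0) := by
    refine tendsto_fr_of_exists W (fun _ _ hx => hx) fun g _ => ?_
    have h3 := (h1 (σ g)).add (h2 (σ g))
    rw [add_zero] at h3
    exact squeeze_zero (fun n => fr_nonneg _) (fun n => fr_le_add fun _ hx => hx) h3
  obtain ⟨n, hn⟩ := (hbad.eventually (gt_mem_nhds hδ)).exists
  have hpos : (0 : ℝ) < (F n).card := by exact_mod_cast (hne n).card_pos
  have hgood : δ * (F n).card ≤
      cnt fun x : X n => ∀ g ∈ W, (g • (ι n x).1 = (ι n x).1 ↔ g ∈ τ) := by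
    rw [hp n fun z => ∀ g ∈ W, (g • z = z ↔ g ∈ τ)]
    refine (hH n).trans (le_of_eq ?_)
    congr 2
    ext a
    simp only [Finset.mem_filter, conv_fix]
  have hlt := (mul_lt_mul_of_pos_right hn hpos).trans_le hgood
  rw [← hcard, ← cnt_eq_fr_mul] at hlt
  obtain ⟨x, hx, hx'⟩ := exists_of_cnt_lt hlt
  obtain ⟨L, hL, hL'⟩ := conv_stab π hπ (ψ n) (hker n) (j n x)
  refine hno ⟨L, hL, fun g hg => ?_⟩
  have e1 : ι n (φ n (σ g) x) = conv_rho π (H n) (σ g) (ι n x) := by
    by_contra hh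
    exact hx' ⟨g, hg, .inl hh⟩
  have e2 : j n (φ n (σ g) x) = ψ n (σ g) (j n x) := by
    by_contra hh
    exact hx' ⟨g, hg, .inr hh⟩
  rw [← hx g hg]
  rw [conv_rho_apply, hσ g] at e1
  have e3 := hL' (σ g)
  rw [hσ g, ← e2, (j n).injective.eq_iff, ← (ι n).injective.eq_iff, e1] at e3
  rw [e3, Prod.ext_iff]
  exact and_iff_left rfl

end Pool.Agent.Lib.MP_7bd500_al.VF
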