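import Pool.Agent.Lib.MP_7bd500_al.VFLimA

/-
A subgroup with many conjugates of one type.
-/

set_option autoImplicit false

namespace Pool.Agent.Lib.MP_7bd500_al.VF

open Filter Topology MeasureTheory

theorem conva_meas {G : Type} [Group G] (a : G) :
    Measurable (fun A : Set G => {g | a * g * a⁻¹ ∈ A}) :=
  measurable_set_iff.2 fun g => measurable_set_mem (a * g * a⁻¹)

open Classical in
theorem conva_type {G : Type} [Group G] [Countable G] (μ : Measure (Set G))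
    (h : ¬ ∀ᵐ A ∂μ, Lim A) :
    ∃ (W τ : Finset G), μ {A | ∀ g ∈ W, (g ∈ A ↔ g ∈ τ)} ≠ 0 ∧
      ¬ ∃ L : Subgroup G, L.FiniteIndex ∧ ∀ g ∈ W, (g ∈ L ↔ g ∈ τ) := by
  by_contra hcon
  push Not at hcon
  apply h
  have h1 : ∀ p : Finset G × Finset G, ∀ᵐ A ∂μ, (∀ g ∈ p.1, (g ∈ A ↔ g ∈ p.2)) →
      ∃ L : Subgroup G, L.FiniteIndex ∧ ∀ g ∈ p.1, (g ∈ L ↔ g ∈ p.2) := by
    intro p
    by_cases h0 : μ {A | ∀ g ∈ p.1, (g ∈ A ↔ g ∈ p.2)} = 0
    · filter_upwards [measure_eq_zero_iff_ae_notMem.1 h0] with A hA hA'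
      exact absurd hA' hA
    · exact Eventually.of_forall fun A _ => hcon p.1 p.2 h0
  filter_upwards [ae_all_iff.2 h1] with A hA W
  obtain ⟨L, hL, hLW⟩ := hA (W, W.filter (· ∈ A)) (fun g hg => by simp [show g ∈ W from hg])
  refine ⟨L, hL, fun g hg => ?_⟩
  rw [hLW g hg]
  simp [hg]

open Classical in
theorem exists_many {G : Type} [Group G] [Countable G] (μ : Measure (Set G)) (hμ : IRS μ)
    (h : ¬ ∀ᵐ A ∂μ, Lim A) :
    ∃ (W τ : Finset G) (δ : ℝ), 0 < δ ∧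
      (¬ ∃ L : Subgroup G, L.FiniteIndex ∧ ∀ g ∈ W, (g ∈ L ↔ g ∈ τ)) ∧
      ∀ F : Finset G, ∃ H : Subgroup G,
        δ * F.card ≤ (F.filter fun a => ∀ g ∈ W, (a * g * a⁻¹ ∈ H ↔ g ∈ τ)).card := by
  obtain ⟨hP, hsub, hinv⟩ := hμ
  obtain ⟨W, τ, h0, hL⟩ := conva_type μ h
  set C : Set (Set G) := {A | ∀ g ∈ W, (g ∈ A ↔ g ∈ τ)} with hC
  have hCm : MeasurableSet C :=
    measurableSet_of_fin W _ fun A B hAB hA g hg => (hAB g hg).symm.trans (hA g hg)
  refine ⟨W, τ, μ.real C, ENNReal.toReal_pos h0 (measure_ne_top _ _), hL, fun F => ?_⟩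
  set D : G → Set (Set G) := fun a => (fun A : Set G => {g | a * g * a⁻¹ ∈ A}) ⁻¹' C with hD
  have hDm : ∀ a, MeasurableSet (D a) := fun a => conva_meas a hCm
  have hDμ : ∀ a, μ.real (D a) = μ.real C := by
    intro a
    have := Measure.map_apply (μ := μ) (conva_meas a) hCm
    rw [hinv a] at this
    simp only [Measure.real, hD, this]
  have hint : ∀ a, Integrable ((D a).indicator fun _ => (1 : ℝ)) μ := fun a =>
    (integrable_const (1 : ℝ)).indicator (hDm a)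
  have hN : Integrable (fun A => ∑ a ∈ F, (D a).indicator (fun _ => (1 : ℝ)) A) μ :=
    integrable_finsetSum F fun a _ => hint a
  have hI : ∫ A, ∑ a ∈ F, (D a).indicator (fun _ => (1 : ℝ)) A ∂μ = μ.real C * F.card := by
    rw [integral_finsetSum F fun a _ => hint a]
    simp only [integral_indicator_const _ (hDm _), hDμ, smul_eq_mul, mul_one, Finset.sum_const,
      nsmul_eq_mul]
    ring
  obtain ⟨A, hA, hle⟩ := exists_notMem_null_integral_le hN (ae_iff.1 hsub)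
  simp only [Set.mem_ofPred_eq, not_not] at hA
  obtain ⟨H, rfl⟩ := hA
  refine ⟨H, ?_⟩
  rw [← hI]
  refine hle.trans (le_of_eq ?_)
  rw [Finset.card_filter]
  push_cast
  refine Finset.sum_congr rfl fun a _ => ?_
  simp only [Set.indicator_apply, hD, hC, Set.mem_preimage, Set.mem_ofPred_eq, SetLike.mem_coe]

end Pool.Agent.Lib.MP_7bd500_al.VF
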