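import Pool.Agent.Lib.MP_7bd500_al.VFHash

/-
Few bad points give very flexible stability.
-/

set_option autoImplicit false

namespace Pool.Agent.Lib.MP_7bd500_al.VF

open Filter Topology

theorem core_embed {G X J : Type} [Group G] [Finite X] (j : X → J) (L : J → Subgroup G)
    (hL : ∀ i, (L i).FiniteIndex) (g : X → G)
    (hinj : ∀ x x', j x = j x' → (g x)⁻¹ * g x' ∈ L (j x) → x = x') :
    ∃ (Y : Type) (_ : Finite Y) (ι : X ↪ Y) (ρ : G →* Equiv.Perm Y),
      ∀ x x' a, j x = j x' → (a * g x)⁻¹ * g x' ∈ L (j x) → ρ a (ι x) = ι x' := by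
  have hfin : Finite (Set.range j) := (Set.finite_range j).to_subtype
  have hfin2 : ∀ i : Set.range j, Finite (G ⧸ L i) := fun i => by
    have := hL i
    infer_instance
  have key : ∀ (i i' : Set.range j) (a b : G),
      (⟨i, (a : G ⧸ L i)⟩ : Σ i : Set.range j, G ⧸ L i) = ⟨i', (b : G ⧸ L i')⟩ ↔
        i = i' ∧ a⁻¹ * b ∈ L i := by
    intro i i' a b
    constructor
    · intro h
      obtain rfl : i = i' := congrArg Sigma.fst h
      exact ⟨rfl, QuotientGroup.eq.1 (eq_of_heq (Sigma.mk.inj h).2)⟩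
    · rintro ⟨rfl, h⟩
      rw [QuotientGroup.eq.2 h]
  refine ⟨Σ i : Set.range j, G ⧸ L i, inferInstance,
    ⟨fun x => ⟨⟨j x, x, rfl⟩, (g x : G ⧸ L (j x))⟩, fun x x' h => ?_⟩,
    MulAction.toPermHom G _, fun x x' a h1 h2 => ?_⟩
  · obtain ⟨h1, h2⟩ := (key _ _ _ _).1 h
    exact hinj x x' (congrArg Subtype.val h1) h2
  · exact (key ⟨j x, x, rfl⟩ ⟨j x', x', rfl⟩ (a * g x) (g x')).2 ⟨Subtype.ext h1, h2⟩

open Classical in
theorem core_inter {G X : Type} [Group G] (F : Finset G) (k : G) (u v : G → X)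
    (h : ∀ g ∈ F, u (g * k) = v g) :
    F.card ≤ ((F.val.map u).toEnumFinset ∩ (F.val.map v).toEnumFinset).card
      + (F.filter fun g => g * k ∉ F).card := by
  let F' := F.filter fun g => g * k ∈ F
  have h1 : F'.val.map v ≤ F.val.map v :=
    Multiset.map_le_map (Finset.val_le_iff.2 (Finset.filter_subset _ _))
  have h2 : F'.val.map v ≤ F.val.map u := by
    have e1 : F'.val.map v = (F'.val.map fun g => g * k).map u := by
      rw [Multiset.map_map]
      refine Multiset.map_congr rfl fun g hg => ?_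
      exact (h g (Finset.mem_filter.1 hg).1).symm
    rw [e1]
    refine Multiset.map_le_map ((Multiset.le_iff_subset ?_).2 ?_)
    · exact F'.nodup.map (mul_left_injective k)
    · intro a ha
      obtain ⟨g, hg, rfl⟩ := Multiset.mem_map.1 ha
      exact (Finset.mem_filter.1 hg).2
  have h3 : (F'.val.map v).toEnumFinset
      ⊆ (F.val.map u).toEnumFinset ∩ (F.val.map v).toEnumFinset :=
    Finset.subset_inter (Multiset.toEnumFinset_mono h2) (Multiset.toEnumFinset_mono h1)
  have h4 := Finset.card_le_card h3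
  rw [Multiset.card_toEnumFinset, Multiset.card_map, Finset.card_val] at h4
  have h5 := Finset.card_filter_add_card_filter_not (s := F) fun g => g * k ∈ F
  change F'.card + _ = _ at h5
  omega

open Classical in
theorem core_fin {S G : Type} [Group G] (π : FreeGroup S →* G) (hπ : Function.Surjective π)
    (T : Finset S) (ε : ℝ) (F : Finset G) (hF0 : F.Nonempty)
    (hF : ∀ s ∈ T, ((F.filter fun g => g * π (FreeGroup.of s) ∉ F).card : ℝ) ≤ ε * F.card) :
    ∃ (R W : Finset (FreeGroup S)), (∀ r ∈ R, r ∈ π.ker) ∧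
      ∀ (X : Type) [Finite X] (φ : FreeGroup S →* Equiv.Perm X),
        ∃ (Y : Type) (_ : Finite Y) (ι : X ↪ Y) (ψ : FreeGroup S →* Equiv.Perm Y),
          π.ker ≤ ψ.ker ∧ ∀ s ∈ T,
            cnt (fun x => ι (φ (FreeGroup.of s) x) ≠ ψ (FreeGroup.of s) (ι x)) ≤
              T.card * (2 * ε * Nat.card X + 2 * cnt fun x => ∃ r ∈ R, φ r x ≠ x)
                + F.card * cnt (Bad π φ W) := by
  choose σ hσ using hπ
  let R : Finset (FreeGroup S) := (F ×ˢ T).image fun p =>
    (σ (p.1 * π (FreeGroup.of p.2)))⁻¹ * σ p.1 * FreeGroup.of p.2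
  let W : Finset (FreeGroup S) := ((F ×ˢ F).image fun p => σ p.1 * (σ p.2)⁻¹) ∪
    ((F ×ˢ F) ×ˢ T).image fun p => σ p.1.1 * FreeGroup.of p.2 * (σ p.1.2)⁻¹
  refine ⟨R, W, ?_, fun X _ φ => ?_⟩
  · intro r hr
    obtain ⟨p, -, rfl⟩ := Finset.mem_image.1 hr
    rw [MonoidHom.mem_ker, map_mul, map_mul, map_inv, hσ, hσ]
    group
  have := Fintype.ofFinite X
  have hd : 0 < F.card := hF0.card_pos
  have hd' : (0 : ℝ) < F.card := by exact_mod_cast hd
  let A : X → Finset (X × ℕ) := fun x => (F.val.map fun g => φ (σ g) x).toEnumFinset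
  have hA : ∀ x, (A x).card = F.card := fun x => by
    simp only [A]
    rw [Multiset.card_toEnumFinset, Multiset.card_map, Finset.card_val]
  obtain ⟨c, hc, hsum⟩ := exists_choice T (fun s x => φ (FreeGroup.of s) x) A F.card hd hA
  have hg : ∀ x, ∃ g ∈ F, φ (σ g) x = (c x).1 := fun x => by
    obtain ⟨g, hg1, hg2⟩ := Multiset.mem_map.1 (Multiset.mem_of_mem_toEnumFinset (hc x))
    exact ⟨g, hg1, hg2⟩
  choose γ hγF hγ using hg
  have hL : ∀ y : X, ∃ L : Subgroup G, L.FiniteIndex ∧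
      (¬ Bad π φ W y → ∀ w ∈ W, (π w ∈ L ↔ φ w y = y)) := fun y => by
    by_cases hy : Bad π φ W y
    · exact ⟨⊤, inferInstance, fun h => absurd hy h⟩
    · obtain ⟨L, h1, h2⟩ := not_not.1 hy
      exact ⟨L, h1, fun _ => h2⟩
  choose L hL1 hL2 using hL
  let j : X → (X × ℕ) × Option X := fun x => (c x, if Bad π φ W (c x).1 then some x else none)
  obtain ⟨Y, hY, ι, ρ, hρ⟩ := core_embed j (fun i => L i.1.1) (fun i => hL1 _)
    (fun x => (γ x)⁻¹) (by
      intro x x' h1 h2
      have h3 : c x = c x' := congrArg Prod.fst h1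
      have h4 : (if Bad π φ W (c x).1 then some x else none)
          = (if Bad π φ W (c x').1 then some x' else none) := congrArg Prod.snd h1
      by_cases hb : Bad π φ W (c x).1
      · rw [if_pos hb, if_pos (h3 ▸ hb)] at h4
        exact Option.some.inj h4
      · have hw : σ (γ x) * (σ (γ x'))⁻¹ ∈ W := Finset.mem_union_left _
          (Finset.mem_image.2 ⟨(γ x, γ x'), Finset.mem_product.2 ⟨hγF x, hγF x'⟩, rfl⟩)
        have h5 := (hL2 _ hb _ hw).1 (by
          rw [map_mul, map_inv, hσ, hσ]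
          simpa using h2)
        have h6 : φ (σ (γ x')) x' = (c x).1 := by rw [hγ, h3]
        have h7 : (φ (σ (γ x')))⁻¹ (c x).1 = x' := by rw [← h6]; simp
        rw [map_mul, map_inv, Equiv.Perm.mul_apply, h7, ← hγ x] at h5
        exact ((φ (σ (γ x))).injective h5).symm)
  refine ⟨Y, hY, ι, ρ.comp π, ?_, fun s hs => ?_⟩
  · intro w hw
    rw [MonoidHom.mem_ker] at hw ⊢
    rw [MonoidHom.comp_apply, hw, map_one]
  have b1 : cnt (fun x => ι (φ (FreeGroup.of s) x) ≠ (ρ.comp π) (FreeGroup.of s) (ι x))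
      ≤ cnt (fun x => c x ≠ c (φ (FreeGroup.of s) x)) + cnt fun x => Bad π φ W (c x).1 := by
    refine cnt_le_add fun x hx => ?_
    by_contra hcon
    push Not at hcon
    obtain ⟨h3, hb⟩ := hcon
    apply hx
    refine (hρ x _ (π (FreeGroup.of s)) ?_ ?_).symm
    · refine Prod.ext h3 ?_
      change (if Bad π φ W (c x).1 then some x else none) = (if Bad π φ W (c _).1 then _ else none)
      rw [if_neg hb, if_neg (h3 ▸ hb)]
    · have hw : σ (γ (φ (FreeGroup.of s) x)) * FreeGroup.of s * (σ (γ x))⁻¹ ∈ W :=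
        Finset.mem_union_right _ (Finset.mem_image.2 ⟨((γ (φ (FreeGroup.of s) x), γ x), s),
          Finset.mem_product.2 ⟨Finset.mem_product.2 ⟨hγF _, hγF x⟩, hs⟩, rfl⟩)
      have h7 : (φ (σ (γ x)))⁻¹ (c x).1 = x := by rw [← hγ x]; simp
      have h5 := (hL2 _ hb _ hw).2 (by
        rw [map_mul, map_mul, map_inv, Equiv.Perm.mul_apply, Equiv.Perm.mul_apply, h7, hγ, h3])
      rw [map_mul, map_mul, map_inv, hσ, hσ] at h5
      have h6 := inv_mem h5
      change _ ∈ L (c x).1
      convert h6 using 1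
      group
  have b2 : (cnt fun x => Bad π φ W (c x).1) ≤ F.card * cnt (Bad π φ W) := by
    refine (cnt_le_sum F (q := fun g x => Bad π φ W (φ (σ g) x)) fun x hx =>
      ⟨γ x, hγF x, by rw [hγ]; exact hx⟩).trans (le_of_eq ?_)
    rw [Finset.sum_congr rfl fun g _ => cnt_comp_equiv (φ (σ g)) (Bad π φ W), Finset.sum_const,
      nsmul_eq_mul]
  have b3 : cnt (fun x => c x ≠ c (φ (FreeGroup.of s) x))
      ≤ ∑ i ∈ T, cnt (fun x => c x ≠ c (φ (FreeGroup.of i) x)) :=
    Finset.single_le_sum (f := fun i => cnt fun x => c x ≠ c (φ (FreeGroup.of i) x))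
      (fun _ _ => cnt_nonneg _) hs
  have hε : 0 ≤ ε := by
    have h1 := hF s hs
    have h2 : (0 : ℝ) ≤ ε * F.card := le_trans (Nat.cast_nonneg _) h1
    exact nonneg_of_mul_nonneg_left h2 hd'
  have b4 : ∀ i ∈ T, ∑ x, 2 * ((F.card : ℝ) - (A x ∩ A (φ (FreeGroup.of i) x)).card) / F.card
      ≤ 2 * ε * Nat.card X + 2 * cnt fun x => ∃ r ∈ R, φ r x ≠ x := by
    intro i hi
    have h1 : ∀ x, 2 * ((F.card : ℝ) - (A x ∩ A (φ (FreeGroup.of i) x)).card) / F.card
        ≤ 2 * ε + 2 * (if ∃ r ∈ R, φ r x ≠ x then 1 else 0) := by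
      intro x
      rw [div_le_iff₀ hd']
      split_ifs with hx
      · have h2 : (0 : ℝ) ≤ (A x ∩ A (φ (FreeGroup.of i) x)).card := Nat.cast_nonneg _
        nlinarith [mul_nonneg hε hd'.le]
      · push Not at hx
        have h2 := core_inter F (π (FreeGroup.of i)) (fun g => φ (σ g) x)
          (fun g => φ (σ g) (φ (FreeGroup.of i) x)) (by
            intro g hg
            have h3 := hx _ (Finset.mem_image.2 ⟨(g, i), Finset.mem_product.2 ⟨hg, hi⟩, rfl⟩)
            rw [map_mul, map_mul, map_inv, Equiv.Perm.mul_apply, Equiv.Perm.mul_apply,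
              Equiv.Perm.inv_eq_iff_eq] at h3
            exact h3.symm)
        have h4 : (F.card : ℝ) ≤ (A x ∩ A (φ (FreeGroup.of i) x)).card
            + (F.filter fun g => g * π (FreeGroup.of i) ∉ F).card := by exact_mod_cast h2
        have h5 := hF i hi
        nlinarith
    refine (Finset.sum_le_sum fun x _ => h1 x).trans (le_of_eq ?_)
    rw [Finset.sum_add_distrib, Finset.sum_const, ← Finset.mul_sum, Finset.sum_boole,
      cnt_eq_filter, Finset.card_univ, nsmul_eq_mul, Nat.card_eq_fintype_card]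
    ring
  have b5 := Finset.sum_le_sum b4
  rw [Finset.sum_const, nsmul_eq_mul] at b5
  linarith

theorem vfs_of_bad_small {S G : Type} [Countable S] [Group G] (π : FreeGroup S →* G)
    (hπ : Function.Surjective π) (hF : Fol G)
    (h : ∀ (X : ℕ → Type) [∀ n, Finite (X n)] (φ : ∀ n, FreeGroup S →* Equiv.Perm (X n)),
      Asym π X φ → ∀ W : Finset (FreeGroup S),
        Tendsto (fun n => fr (Bad π (φ n) W)) atTop (𝓝 0)) : VFS π := by
  classical
  intro X _ φ hφ
  obtain ⟨e, he⟩ := Countable.exists_injective_nat S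
  have hfin : ∀ k : ℕ, {s | e s < k}.Finite := fun k =>
    (Set.finite_Iio k).preimage he.injOn
  let P : ℕ → ℕ → Prop := fun k n =>
    ∃ (Y : Type) (_ : Finite Y) (ι : X n ↪ Y) (ψ : FreeGroup S →* Equiv.Perm Y),
      π.ker ≤ ψ.ker ∧ ∀ s, e s < k → (fr fun x =>
        ι (φ n (FreeGroup.of s) x) ≠ ψ (FreeGroup.of s) (ι x)) ≤ 1 / ((k : ℝ) + 1)
  have hP0 : ∀ n, P 0 n := fun n =>
    ⟨X n, inferInstance, Function.Embedding.refl _, 1, fun w _ => rfl, fun s hs => absurd hs (by omega)⟩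
  have hP : ∀ k, ∀ᶠ n in atTop, P k n := by
    intro k
    let T := (hfin k).toFinset
    have hk : (0 : ℝ) < 1 / ((k : ℝ) + 1) := by positivity
    obtain ⟨F, hF0, hF1⟩ := hF (T.image fun s => π (FreeGroup.of s))
      (1 / ((k : ℝ) + 1) / (4 * (T.card + 1))) (by positivity)
    obtain ⟨R, W, hR, hfinal⟩ := core_fin π hπ T _ F hF0 fun s hs =>
      hF1 _ (Finset.mem_image_of_mem _ hs)
    have t1 : Tendsto (fun n => fr fun x => ∃ r ∈ R, φ n r x ≠ x) atTop (𝓝 0) :=
      tendsto_fr_of_exists R (q := fun r n x => φ n r x ≠ x) (fun _ _ hx => hx)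
        fun r hr => hφ r (hR r hr)
    have t2 := (t1.const_mul (2 * (T.card : ℝ))).add ((h X φ hφ W).const_mul (F.card : ℝ))
    rw [mul_zero, mul_zero, add_zero] at t2
    filter_upwards [t2.eventually (ge_mem_nhds (half_pos hk))] with n hn
    obtain ⟨Y, hY, ι, ψ, h1, h2⟩ := hfinal (X n) (φ n)
    refine ⟨Y, hY, ι, ψ, h1, fun s hs => fr_le_of_cnt_le hk.le ?_⟩
    refine (h2 s ((hfin k).mem_toFinset.2 hs)).trans ?_
    rw [cnt_eq_fr_mul (Bad π (φ n) W), cnt_eq_fr_mul fun x => ∃ r ∈ R, φ n r x ≠ x]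
    have hX : (0 : ℝ) ≤ Nat.card (X n) := Nat.cast_nonneg _
    have hT : (0 : ℝ) ≤ T.card := Nat.cast_nonneg _
    have h3 : (T.card : ℝ) * (2 * (1 / ((k : ℝ) + 1) / (4 * (T.card + 1))))
        ≤ 1 / ((k : ℝ) + 1) / 2 := by
      rw [← mul_assoc, ← mul_div_assoc, div_le_div_iff₀ (by positivity) (by positivity)]
      nlinarith
    have h4 := mul_le_mul_of_nonneg_right (add_le_add h3 hn) hX
    linarith
  let κ : ℕ → ℕ := fun n => Nat.findGreatest (fun k => P k n) n
  have hκ : ∀ n, P (κ n) n := fun n =>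
    Nat.findGreatest_spec (P := fun k => P k n) (Nat.zero_le n) (hP0 n)
  have hκt : Tendsto κ atTop atTop := by
    rw [tendsto_atTop]
    intro k
    filter_upwards [hP k, eventually_ge_atTop k] with n h1 h2
    exact Nat.le_findGreatest h2 h1
  choose Y hY ι ψ h1 h2 using hκ
  refine ⟨Y, hY, ι, ψ, h1, fun s => ?_⟩
  have t3 := tendsto_one_div_add_atTop_nhds_zero_nat (𝕜 := ℝ) |>.comp hκt
  refine squeeze_zero' (Eventually.of_forall fun n => fr_nonneg _) ?_ t3
  filter_upwards [hκt.eventually (eventually_gt_atTop (e s))] with n hn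
  exact h2 n s hn

end Pool.Agent.Lib.MP_7bd500_al.VF
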