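import Mathlib

/-
Very flexible permutation stability: definitions.
-/

set_option autoImplicit false

namespace Pool.Agent.Lib.MP_7bd500_al.VF

open Filter Topology MeasureTheory

/-- The number of points with property `p`. -/
noncomputable def cnt {X : Type} (p : X → Prop) : ℝ := (Nat.card {x : X // p x} : ℝ)

/-- The proportion of points with property `p`. -/
noncomputable def fr {X : Type} (p : X → Prop) : ℝ :=
  (Nat.card {x : X // p x} : ℝ) / (Nat.card X : ℝ)

/-- Asymptotic homomorphisms of `F_S / ker π`. -/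
def Asym {S G : Type} [Group G] (π : FreeGroup S →* G) (X : ℕ → Type)
    (φ : ∀ n, FreeGroup S →* Equiv.Perm (X n)) : Prop :=
  ∀ w ∈ π.ker, Tendsto (fun n => fr fun x => φ n w x ≠ x) atTop (𝓝 0)

/-- Very flexible stability of the presentation `π`. -/
def VFS {S G : Type} [Group G] (π : FreeGroup S →* G) : Prop :=
  ∀ (X : ℕ → Type) [∀ n, Finite (X n)] (φ : ∀ n, FreeGroup S →* Equiv.Perm (X n)),
    Asym π X φ →
    ∃ (Y : ℕ → Type) (_ : ∀ n, Finite (Y n)) (ι : ∀ n, X n ↪ Y n)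
      (ψ : ∀ n, FreeGroup S →* Equiv.Perm (Y n)), (∀ n, π.ker ≤ (ψ n).ker) ∧
      ∀ s : S, Tendsto (fun n => fr fun x =>
        ι n (φ n (FreeGroup.of s) x) ≠ ψ n (FreeGroup.of s) (ι n x)) atTop (𝓝 0)

open Classical in
/-- The right Folner condition. -/
def Fol (G : Type) [Group G] : Prop :=
  ∀ (K : Finset G) (ε : ℝ), 0 < ε → ∃ F : Finset G, F.Nonempty ∧
    ∀ k ∈ K, ((F.filter fun g => g * k ∉ F).card : ℝ) ≤ ε * F.card

/-- Invariant random subgroups. -/
def IRS {G : Type} [Group G] (μ : Measure (Set G)) : Prop :=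
  IsProbabilityMeasure μ ∧ (∀ᵐ A ∂μ, ∃ H : Subgroup G, A = (H : Set G)) ∧
    ∀ a : G, μ.map (fun A : Set G => {g | a * g * a⁻¹ ∈ A}) = μ

/-- Limits of finite index subgroups. -/
def Lim {G : Type} [Group G] (A : Set G) : Prop :=
  ∀ W : Finset G, ∃ L : Subgroup G, L.FiniteIndex ∧ ∀ g ∈ W, (g ∈ L ↔ g ∈ A)

/-- The stabiliser of `y` is not, on `W`, the preimage of a finite index subgroup. -/
def Bad {S G X : Type} [Group G] (π : FreeGroup S →* G) (φ : FreeGroup S →* Equiv.Perm X)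
    (W : Finset (FreeGroup S)) (y : X) : Prop :=
  ¬ ∃ L : Subgroup G, L.FiniteIndex ∧ ∀ w ∈ W, (π w ∈ L ↔ φ w y = y)

end Pool.Agent.Lib.MP_7bd500_al.VF
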