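import Pool.Agent.Lib.MP_7bd500_al.VFBas

/-
An invariant mean gives Folner sets.
-/

set_option autoImplicit false

namespace Pool.Agent.Lib.MP_7bd500_al.VF

open scoped Pointwise

theorem fol_sum {G : Type} (μ : Set G → ℝ)
    (hadd : ∀ A B : Set G, Disjoint A B → μ (A ∪ B) = μ A + μ B) (A : G → Set G)
    (hA : ∀ k k', k ≠ k' → Disjoint (A k) (A k')) (s : Finset G) :
    μ (⋃ k ∈ s, A k) = ∑ k ∈ s, μ (A k) := by
  classical
  induction s using Finset.induction_on with
  | empty =>
    have := hadd ∅ ∅ (by simp)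
    simp only [Set.union_self] at this
    simp only [Finset.notMem_empty, Set.iUnion_of_empty, Set.iUnion_empty, Finset.sum_empty]
    linarith
  | insert a s ha ih =>
    rw [Finset.set_biUnion_insert, Finset.sum_insert ha, hadd, ih]
    refine Set.disjoint_iUnion₂_right.2 fun k hk => hA a k ?_
    rintro rfl
    exact ha hk

theorem fol_range {G : Type} [Group G] (μ : Set G → ℝ)
    (hadd : ∀ A B : Set G, Disjoint A B → μ (A ∪ B) = μ A + μ B)
    (hinv : ∀ (g : G) (A : Set G), μ ((fun x => g * x) '' A) = μ A) (M : Finset G) (f : G → G)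
    (hf : Function.Injective f) (hM : ∀ g, ∃ k ∈ M, k * g = f g) :
    μ (Set.range f) = μ Set.univ := by
  have hP : ∀ k k' : G, k ≠ k' → Disjoint {g | k * g = f g} {g | k' * g = f g} := by
    intro k k' hk
    refine Set.disjoint_left.2 fun g h h' => hk ?_
    exact mul_right_cancel ((show k * g = f g from h).trans (show k' * g = f g from h').symm)
  have hI : ∀ k : G, (fun x => k * x) '' {g | k * g = f g} = f '' {g | k * g = f g} :=
    fun k => Set.image_congr fun g hg => hg
  have e1 : (Set.univ : Set G) = ⋃ k ∈ M, {g | k * g = f g} := by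
    refine (Set.eq_univ_of_forall fun g => ?_).symm
    obtain ⟨k, hk, h⟩ := hM g
    exact Set.mem_iUnion₂.2 ⟨k, hk, h⟩
  have e2 : Set.range f = ⋃ k ∈ M, f '' {g | k * g = f g} := by
    rw [← Set.image_univ, e1, Set.image_iUnion₂]
  rw [e2, e1, fol_sum μ hadd _ hP, fol_sum μ hadd (fun k => f '' {g | k * g = f g})
    fun k k' hk => (Set.disjoint_image_iff hf).2 (hP k k' hk)]
  refine Finset.sum_congr rfl fun k _ => ?_
  rw [← hI, hinv]

theorem fol_double {G : Type} [Group G] [DecidableEq G] (μ : Set G → ℝ) (h0 : ∀ A, 0 ≤ μ A)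
    (h1 : μ Set.univ = 1) (hadd : ∀ A B : Set G, Disjoint A B → μ (A ∪ B) = μ A + μ B)
    (hinv : ∀ (g : G) (A : Set G), μ ((fun x => g * x) '' A) = μ A) (M : Finset G)
    (hM : ∀ F : Finset G, 2 * F.card ≤ (M * F).card) : False := by
  obtain ⟨f, hf, hft⟩ := (Finset.all_card_le_biUnion_card_iff_exists_injective
    (fun x : G × Bool => M.image fun k => k * x.1)).1 (by
    intro s
    have a1 : s ⊆ s.image Prod.fst ×ˢ Finset.univ := fun x hx =>
      Finset.mem_product.2 ⟨Finset.mem_image_of_mem _ hx, Finset.mem_univ _⟩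
    have a2 := Finset.card_le_card a1
    rw [Finset.card_product, Finset.card_univ, Fintype.card_bool, mul_comm] at a2
    refine a2.trans ((hM _).trans (Finset.card_le_card fun x hx => ?_))
    obtain ⟨k, hk, z, hz, rfl⟩ := Finset.mem_mul.1 hx
    obtain ⟨p, hp, rfl⟩ := Finset.mem_image.1 hz
    exact Finset.mem_biUnion.2 ⟨p, hp, Finset.mem_image_of_mem _ hk⟩)
  have hr : ∀ i : Bool, μ (Set.range fun g => f (g, i)) = 1 := fun i => by
    rw [fol_range μ hadd hinv M (fun g => f (g, i)) (fun g g' h => congrArg Prod.fst (hf h))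
      fun g => Finset.mem_image.1 (hft (g, i)), h1]
  have hd : Disjoint (Set.range fun g => f (g, false)) (Set.range fun g => f (g, true)) := by
    refine Set.disjoint_left.2 ?_
    rintro _ ⟨g, rfl⟩ ⟨g', h⟩
    exact Bool.noConfusion (congrArg Prod.snd (hf h))
  have b1 := hadd _ _ hd
  have b2 := hadd ((Set.range fun g => f (g, false)) ∪ Set.range fun g => f (g, true)) _
    disjoint_compl_right
  rw [Set.union_compl_self, h1, b1, hr, hr] at b2
  have b3 := h0 ((Set.range fun g => f (g, false)) ∪ Set.range fun g => f (g, true))ᶜ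
  linarith

theorem fol_left {G : Type} [Group G] [DecidableEq G] (μ : Set G → ℝ) (h0 : ∀ A, 0 ≤ μ A)
    (h1 : μ Set.univ = 1) (hadd : ∀ A B : Set G, Disjoint A B → μ (A ∪ B) = μ A + μ B)
    (hinv : ∀ (g : G) (A : Set G), μ ((fun x => g * x) '' A) = μ A) (K : Finset G) {ε : ℝ}
    (hε : 0 < ε) : ∃ F : Finset G, F.Nonempty ∧
      ∀ k ∈ K, ((F.filter fun g => k * g ∉ F).card : ℝ) ≤ ε * F.card := by
  by_contra hn
  push Not at hn
  have step : ∀ F : Finset G, (1 + ε) * F.card ≤ (insert 1 K * F).card := by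
    intro F
    rcases F.eq_empty_or_nonempty with rfl | hF
    · simp
    obtain ⟨k, hk, hlt⟩ := hn F hF
    have a1 : F ∪ (F.filter fun g => k * g ∉ F).image (fun g => k * g) ⊆ insert 1 K * F := by
      intro x hx
      rcases Finset.mem_union.1 hx with hx | hx
      · exact Finset.mem_mul.2 ⟨1, Finset.mem_insert_self _ _, x, hx, one_mul x⟩
      · obtain ⟨g, hg, rfl⟩ := Finset.mem_image.1 hx
        exact Finset.mul_mem_mul (Finset.mem_insert_of_mem hk) (Finset.mem_filter.1 hg).1
    have a2 : Disjoint F ((F.filter fun g => k * g ∉ F).image fun g => k * g) := by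
      refine Finset.disjoint_left.2 fun x hx hx' => ?_
      obtain ⟨g, hg, rfl⟩ := Finset.mem_image.1 hx'
      exact (Finset.mem_filter.1 hg).2 hx
    have a3 := Finset.card_le_card a1
    rw [Finset.card_union_of_disjoint a2,
      Finset.card_image_of_injective _ (mul_right_injective k)] at a3
    have a4 : (F.card : ℝ) + (F.filter fun g => k * g ∉ F).card ≤ (insert 1 K * F).card := by
      exact_mod_cast a3
    linarith
  have iter : ∀ (m : ℕ) (F : Finset G), (1 + ε) ^ m * F.card ≤ (insert 1 K ^ m * F).card := by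
    intro m F
    induction m with
    | zero => simp
    | succ m ih =>
      rw [pow_succ', pow_succ', mul_assoc, mul_assoc]
      exact (mul_le_mul_of_nonneg_left ih (by linarith)).trans (step _)
  obtain ⟨m, hm⟩ := pow_unbounded_of_one_lt (2 : ℝ) (show 1 < 1 + ε by linarith)
  refine fol_double μ h0 h1 hadd hinv (insert 1 K ^ m) fun F => ?_
  have a5 := (mul_le_mul_of_nonneg_right hm.le (Nat.cast_nonneg F.card)).trans (iter m F)
  exact_mod_cast a5

theorem fol_of_mean {G : Type} [Group G] (μ : Set G → ℝ) (h0 : ∀ A, 0 ≤ μ A)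
    (h1 : μ Set.univ = 1) (hadd : ∀ A B : Set G, Disjoint A B → μ (A ∪ B) = μ A + μ B)
    (hinv : ∀ (g : G) (A : Set G), μ ((fun x => g * x) '' A) = μ A) : Fol G := by
  classical
  intro K ε hε
  obtain ⟨F, hF, h⟩ := fol_left μ h0 h1 hadd hinv K⁻¹ hε
  refine ⟨F⁻¹, hF.inv, fun k hk => ?_⟩
  rw [Finset.card_inv]
  refine le_trans (Nat.cast_le.2 ?_) (h k⁻¹ (Finset.inv_mem_inv hk))
  refine Finset.card_le_card_of_injOn (fun g => g⁻¹) (fun g hg => ?_) inv_injective.injOn
  obtain ⟨g1, g2⟩ := Finset.mem_filter.1 hg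
  refine Finset.mem_filter.2 ⟨Finset.mem_inv'.1 g1, fun g3 => g2 (Finset.mem_inv'.2 ?_)⟩
  rwa [mul_inv_rev]

end Pool.Agent.Lib.MP_7bd500_al.VF
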