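import Pool.Agent.Lib.MP_7bd500_al.VFBas

/-
Choosing one element of each set so that nearby sets get the same element.
-/

set_option autoImplicit false

namespace Pool.Agent.Lib.MP_7bd500_al.VF

open Classical in
/-- The orders in which `u` comes first in `B`. -/
noncomputable def hash_first {V : Type} [Fintype V] (e : V → ℕ) (B : Finset V) (u : V) :
    Finset (Equiv.Perm V) := Finset.univ.filter fun ρ => ∀ v ∈ B, e (ρ u) ≤ e (ρ v)

theorem hash_mem {V : Type} [Fintype V] (e : V → ℕ) (B : Finset V) (u : V) (ρ : Equiv.Perm V) :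
    ρ ∈ hash_first e B u ↔ ∀ v ∈ B, e (ρ u) ≤ e (ρ v) := by
  simp [hash_first]

theorem hash_le {V : Type} [Fintype V] [DecidableEq V] (e : V → ℕ) (B : Finset V) {u w : V}
    (hu : u ∈ B) (hw : w ∈ B) : (hash_first e B u).card ≤ (hash_first e B w).card := by
  refine Finset.card_le_card_of_injOn (fun ρ => ρ * Equiv.swap u w) (fun ρ hρ => ?_)
    fun ρ _ σ _ h => mul_right_cancel h
  have h1 := (hash_mem e B u ρ).1 hρ
  refine (hash_mem e B w _).2 fun v hv => ?_
  simp only [Equiv.Perm.mul_apply, Equiv.swap_apply_right]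
  refine h1 _ ?_
  rw [Equiv.swap_apply_def]
  split_ifs <;> assumption

theorem hash_mul {V : Type} [Fintype V] [DecidableEq V] {e : V → ℕ} (he : Function.Injective e)
    (B : Finset V) {u : V} (hu : u ∈ B) :
    B.card * (hash_first e B u).card ≤ Fintype.card (Equiv.Perm V) := by
  calc B.card * (hash_first e B u).card ≤ ∑ w ∈ B, (hash_first e B w).card := by
        rw [← smul_eq_mul]
        exact Finset.card_nsmul_le_sum _ _ _ fun w hw => hash_le e B hu hw
    _ = (B.biUnion (hash_first e B)).card := by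
        refine (Finset.card_biUnion fun a ha b hb hab => ?_).symm
        refine Finset.disjoint_left.2 fun ρ h1 h2 => hab ?_
        exact ρ.injective (he (le_antisymm ((hash_mem e B a ρ).1 h1 b hb)
          ((hash_mem e B b ρ).1 h2 a ha)))
    _ ≤ _ := Finset.card_le_univ _

theorem hash_pair {V : Type} [Fintype V] [DecidableEq V] {e : V → ℕ} (he : Function.Injective e)
    {A B : Finset V} {d : ℕ} (hd : 0 < d) (hA : A.card = d) (hB : B.card = d)
    {a b : Equiv.Perm V → V} (ha : ∀ ρ, a ρ ∈ A ∧ ∀ v ∈ A, e (ρ (a ρ)) ≤ e (ρ v))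
    (hb : ∀ ρ, b ρ ∈ B ∧ ∀ v ∈ B, e (ρ (b ρ)) ≤ e (ρ v)) :
    ((Finset.univ.filter fun ρ => a ρ ≠ b ρ).card : ℝ) ≤
      Fintype.card (Equiv.Perm V) * (2 * ((d : ℝ) - (A ∩ B).card) / d) := by
  have h1 : (Finset.univ.filter fun ρ => a ρ ≠ b ρ) ⊆
      ((A ∪ B) \ (A ∩ B)).biUnion (hash_first e (A ∪ B)) := by
    intro ρ hρ
    have hne := (Finset.mem_filter.1 hρ).2
    rcases le_total (e (ρ (a ρ))) (e (ρ (b ρ))) with h | h
    · refine Finset.mem_biUnion.2 ⟨a ρ, Finset.mem_sdiff.2 ⟨Finset.mem_union_left _ (ha ρ).1,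
        fun h2 => hne ?_⟩, (hash_mem _ _ _ _).2 fun v hv => ?_⟩
      · exact ρ.injective (he (le_antisymm h ((hb ρ).2 _ (Finset.mem_inter.1 h2).2)))
      · rcases Finset.mem_union.1 hv with h3 | h3
        · exact (ha ρ).2 v h3
        · exact h.trans ((hb ρ).2 v h3)
    · refine Finset.mem_biUnion.2 ⟨b ρ, Finset.mem_sdiff.2 ⟨Finset.mem_union_right _ (hb ρ).1,
        fun h2 => hne ?_⟩, (hash_mem _ _ _ _).2 fun v hv => ?_⟩
      · exact ρ.injective (he (le_antisymm ((ha ρ).2 _ (Finset.mem_inter.1 h2).1) h))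
      · rcases Finset.mem_union.1 hv with h3 | h3
        · exact h.trans ((ha ρ).2 v h3)
        · exact (hb ρ).2 v h3
  have hd' : (0 : ℝ) < d := Nat.cast_pos.2 hd
  have h2 : ∀ u ∈ (A ∪ B) \ (A ∩ B),
      ((hash_first e (A ∪ B) u).card : ℝ) ≤ Fintype.card (Equiv.Perm V) / d := by
    intro u hu
    have h3 := hash_mul he (A ∪ B) (Finset.mem_sdiff.1 hu).1
    have h4 : d ≤ (A ∪ B).card := hA ▸ Finset.card_le_card Finset.subset_union_left
    rw [le_div_iff₀ hd', mul_comm]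
    exact_mod_cast (Nat.mul_le_mul_right _ h4).trans h3
  have h5 : (((A ∪ B) \ (A ∩ B)).card : ℝ) = 2 * ((d : ℝ) - (A ∩ B).card) := by
    have h6 := Finset.card_union_add_card_inter A B
    have h7 := Finset.card_sdiff_add_card_eq_card
      (Finset.inter_subset_union : A ∩ B ⊆ A ∪ B)
    have h8 : (((A ∪ B) \ (A ∩ B)).card : ℝ) + (A ∩ B).card + (A ∩ B).card = d + d := by
      exact_mod_cast (by omega : ((A ∪ B) \ (A ∩ B)).card + (A ∩ B).card + (A ∩ B).card = d + d)
    linarith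
  calc ((Finset.univ.filter fun ρ => a ρ ≠ b ρ).card : ℝ)
      ≤ ∑ u ∈ (A ∪ B) \ (A ∩ B), ((hash_first e (A ∪ B) u).card : ℝ) := by
        exact_mod_cast (Finset.card_le_card h1).trans Finset.card_biUnion_le
    _ ≤ ((A ∪ B) \ (A ∩ B)).card • ((Fintype.card (Equiv.Perm V) : ℝ) / d) :=
        Finset.sum_le_card_nsmul _ _ _ h2
    _ = _ := by
        rw [nsmul_eq_mul, h5]
        ring

theorem hash_fin {X V I : Type} [Fintype X] [Fintype V] [DecidableEq V] (T : Finset I)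
    (f : I → X → X) (A : X → Finset V) (d : ℕ) (hd : 0 < d) (hA : ∀ x, (A x).card = d) :
    ∃ c : X → V, (∀ x, c x ∈ A x) ∧
      ∑ i ∈ T, cnt (fun x => c x ≠ c (f i x))
        ≤ ∑ i ∈ T, ∑ x, 2 * ((d : ℝ) - (A x ∩ A (f i x)).card) / d := by
  obtain ⟨e, he⟩ := exists_injective_nat V
  have h1 : ∀ (ρ : Equiv.Perm V) (x : X), ∃ u ∈ A x, ∀ v ∈ A x, e (ρ u) ≤ e (ρ v) := fun ρ x =>
    Finset.exists_min_image (A x) (fun v => e (ρ v)) (Finset.card_pos.1 (by rw [hA]; exact hd))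
  choose c hc1 hc2 using h1
  obtain ⟨ρ, -, hρ⟩ := Finset.exists_le_of_sum_le (s := (Finset.univ : Finset (Equiv.Perm V)))
    (f := fun ρ => ∑ i ∈ T, cnt (fun x => c ρ x ≠ c ρ (f i x)))
    (g := fun _ => ∑ i ∈ T, ∑ x, 2 * ((d : ℝ) - (A x ∩ A (f i x)).card) / d)
    Finset.univ_nonempty (by
      rw [Finset.sum_comm, Finset.sum_const, Finset.card_univ, nsmul_eq_mul, Finset.mul_sum]
      refine Finset.sum_le_sum fun i _ => ?_
      rw [Finset.mul_sum]
      simp only [cnt_eq_filter, Finset.card_filter, Nat.cast_sum]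
      rw [Finset.sum_comm]
      refine Finset.sum_le_sum fun x _ => ?_
      have h2 := hash_pair he hd (hA x) (hA (f i x)) (a := fun ρ => c ρ x)
        (b := fun ρ => c ρ (f i x)) (fun ρ => ⟨hc1 ρ x, hc2 ρ x⟩) fun ρ => ⟨hc1 ρ _, hc2 ρ _⟩
      rw [Finset.card_filter, Nat.cast_sum] at h2
      exact h2)
  exact ⟨c ρ, hc1 ρ, hρ⟩

theorem exists_choice {X U I : Type} [Fintype X] [DecidableEq U] (T : Finset I) (f : I → X → X)
    (A : X → Finset U) (d : ℕ) (hd : 0 < d) (hA : ∀ x, (A x).card = d) :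
    ∃ c : X → U, (∀ x, c x ∈ A x) ∧
      ∑ i ∈ T, cnt (fun x => c x ≠ c (f i x))
        ≤ ∑ i ∈ T, ∑ x, 2 * ((d : ℝ) - (A x ∩ A (f i x)).card) / d := by
  have key : ∀ (x : X) (B : Finset U), B ⊆ A x →
      (B.subtype (· ∈ Finset.univ.biUnion A)).card = B.card := by
    intro x B hB
    rw [Finset.card_subtype, Finset.filter_true_of_mem]
    exact fun u hu => Finset.mem_biUnion.2 ⟨x, Finset.mem_univ _, hB hu⟩
  obtain ⟨c, hc1, hc2⟩ := hash_fin (V := {u // u ∈ Finset.univ.biUnion A}) T f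
    (fun x => (A x).subtype (· ∈ Finset.univ.biUnion A)) d hd
    fun x => (key x _ subset_rfl).trans (hA x)
  refine ⟨fun x => (c x).1, fun x => Finset.mem_subtype.1 (hc1 x), ?_⟩
  simp only [ne_eq, Subtype.val_inj]
  refine hc2.trans (le_of_eq ?_)
  refine Finset.sum_congr rfl fun i _ => Finset.sum_congr rfl fun x _ => ?_
  rw [← key x (A x ∩ A (f i x)) Finset.inter_subset_left]
  congr 5
  ext u
  simp

end Pool.Agent.Lib.MP_7bd500_al.VF
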