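import Pool.Agent.Lib.MP_7bd500_al.VFBas

/-
Limits of empirical measures on the subsets of a countable set.
-/

set_option autoImplicit false

namespace Pool.Agent.Lib.MP_7bd500_al.VF

open Filter Topology MeasureTheory

/-- The empirical measure of a finite family. -/
theorem lima_emp {E : Type} [MeasurableSpace E] [Nonempty E] (Y : Type) [Finite Y] (e : Y → E) :
    ∃ ν : ProbabilityMeasure E, Nonempty Y → ∀ C : Set E, MeasurableSet C →
      (ν : Measure E).real C = fr fun y => e y ∈ C := by
  classical
  by_cases hY : Nonempty Y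
  · let _ : MeasurableSpace Y := ⊤
    have : Fintype Y := Fintype.ofFinite Y
    have hm : Measurable e := measurable_from_top
    refine ⟨⟨(ProbabilityTheory.uniformOn (Set.univ : Set Y)).map e,
      Measure.isProbabilityMeasure_map hm.aemeasurable⟩, fun _ C hC => ?_⟩
    show ((ProbabilityTheory.uniformOn (Set.univ : Set Y)).map e).real C = _
    have e1 : e ⁻¹' C = ((Finset.univ.filter fun y => e y ∈ C : Finset Y) : Set Y) := by
      ext y
      simp
    rw [Measure.real, Measure.map_apply hm hC, ProbabilityTheory.uniformOn_univ, e1,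
      Measure.count_apply_finset, fr_eq, cnt_eq_filter, Nat.card_eq_fintype_card,
      ENNReal.toReal_div, ENNReal.toReal_natCast, ENNReal.toReal_natCast]
  · exact ⟨⟨Measure.dirac (Classical.arbitrary E), inferInstance⟩, fun h => absurd h hY⟩

theorem lima_clopen {G : Type} (W : Finset G) (P : Set G → Prop)
    (h : ∀ A B : Set G, (∀ g ∈ W, (g ∈ A ↔ g ∈ B)) → P A → P B) :
    IsClopen {e : G → Bool | P {g | e g = true}} := by
  let r : (G → Bool) → (W → Bool) := fun e g => e g
  have hr : Continuous r := continuous_pi fun g => continuous_apply _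
  have e1 : {e : G → Bool | P {g | e g = true}} =
      r ⁻¹' (r '' {e : G → Bool | P {g | e g = true}}) := by
    refine Set.Subset.antisymm (Set.subset_preimage_image _ _) ?_
    rintro e ⟨e', he', hee⟩
    refine h _ _ (fun g hg => ?_) he'
    have : e' g = e g := congrFun hee ⟨g, hg⟩
    show e' g = true ↔ e g = true
    rw [this]
  rw [e1]
  exact (isClopen_discrete _).preimage hr

theorem lima_meas {G : Type} (W : Finset G) (P : Set G → Prop)
    (h : ∀ A B : Set G, (∀ g ∈ W, (g ∈ A ↔ g ∈ B)) → P A → P B) : MeasurableSet {A | P A} := by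
  let r : Set G → (W → Prop) := fun A g => (g : G) ∈ A
  have hr : Measurable r := measurable_pi_lambda _ fun g => measurable_set_mem _
  have e1 : {A | P A} = r ⁻¹' (r '' {A | P A}) := by
    refine Set.Subset.antisymm (Set.subset_preimage_image _ _) ?_
    rintro A ⟨B, hB, hAB⟩
    refine h _ _ (fun g hg => ?_) hB
    exact iff_of_eq (congrFun hAB ⟨g, hg⟩)
  rw [e1]
  exact hr (Set.toFinite _).measurableSet

theorem exists_limit {G : Type} [Countable G] (U : Ultrafilter ℕ) (X : ℕ → Type)
    [∀ n, Finite (X n)] (hne : ∀ᶠ n in (U : Filter ℕ), Nonempty (X n)) (f : ∀ n, X n → Set G) :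
    ∃ μ : Measure (Set G), IsProbabilityMeasure μ ∧ ∀ (W : Finset G) (P : Set G → Prop),
      (∀ A B : Set G, (∀ g ∈ W, (g ∈ A ↔ g ∈ B)) → P A → P B) →
      Tendsto (fun n => fr fun x => P (f n x)) (U : Filter ℕ) (𝓝 (μ.real {A | P A})) := by
  classical
  choose ν hν using fun n => lima_emp (E := G → Bool) (X n) (fun x g => decide (g ∈ f n x))
  obtain ⟨m, -, hm⟩ := isCompact_univ.ultrafilter_le_nhds (U.map ν) (by simp)
  have hm' : Tendsto ν (U : Filter ℕ) (𝓝 m) := hm
  let s : (G → Bool) → Set G := fun e => {g | e g = true}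
  have hs : Measurable s := measurable_set_iff.2 fun g =>
    (measurable_of_finite (fun b : Bool => b = true)).comp (measurable_pi_apply g)
  refine ⟨(m : Measure (G → Bool)).map s, Measure.isProbabilityMeasure_map hs.aemeasurable,
    fun W P hP => ?_⟩
  have hC := lima_clopen W P hP
  have h1 := ProbabilityMeasure.tendsto_measure_of_isClopen_of_tendsto hm' hC
  have h2 := NNReal.tendsto_coe.2 h1
  have e1 : ((m : Measure (G → Bool)).map s).real {A | P A} =
      ((m {e : G → Bool | P {g | e g = true}} : NNReal) : ℝ) := by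
    rw [Measure.real, Measure.map_apply hs (lima_meas W P hP)]
    rfl
  rw [e1]
  refine h2.congr' (hne.mono fun n hn => ?_)
  have h3 := hν n hn _ hC.isOpen.measurableSet
  have e2 : ∀ x, {g | decide (g ∈ f n x) = true} = f n x := fun x => by
    ext g
    simp
  simp only [Set.mem_ofPred_eq, e2] at h3
  exact h3

/-- Two probability measures that agree on the sets `{A | W ⊆ A}` are equal. -/
theorem measure_ext {G : Type} (μ ν : Measure (Set G)) [IsProbabilityMeasure μ]
    [IsProbabilityMeasure ν]
    (h : ∀ W : Finset G, μ.real {A | ∀ g ∈ W, g ∈ A} = ν.real {A | ∀ g ∈ W, g ∈ A}) : μ = ν := by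
  classical
  refine ext_of_generate_finite
    (Set.range fun W : Finset G => {A : Set G | ∀ g ∈ W, g ∈ A}) ?_ ?_ ?_ (by simp)
  · refine le_antisymm ?_ (MeasurableSpace.generateFrom_le ?_)
    · have key : @Measurable (Set G) (Set G) (MeasurableSpace.generateFrom
          (Set.range fun W : Finset G => {A : Set G | ∀ g ∈ W, g ∈ A})) _ id := by
        let _ : MeasurableSpace (Set G) := MeasurableSpace.generateFrom
          (Set.range fun W : Finset G => {A : Set G | ∀ g ∈ W, g ∈ A})
        refine (@measurable_set_iff _ _ _ _).2 fun g => measurableSet_setOfPred.1 ?_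
        refine MeasurableSpace.measurableSet_generateFrom ⟨{g}, ?_⟩
        ext A
        simp
      exact fun S hS => key hS
    · rintro _ ⟨W, rfl⟩
      exact lima_meas W _ fun A B hAB hA g hg => (hAB g hg).1 (hA g hg)
  · rintro _ ⟨W, rfl⟩ _ ⟨W', rfl⟩ -
    refine ⟨W ∪ W', ?_⟩
    ext A
    simp only [Finset.mem_union, Set.mem_ofPred_eq, Set.mem_inter_iff]
    exact ⟨fun h => ⟨fun g hg => h g (.inl hg), fun g hg => h g (.inr hg)⟩,
      fun h g hg => hg.elim (h.1 g) (h.2 g)⟩
  · rintro _ ⟨W, rfl⟩
    exact (measureReal_eq_measureReal_iff (measure_ne_top _ _) (measure_ne_top _ _)).1 (h W)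

/-- A property that depends on finitely many points is measurable. -/
theorem measurableSet_of_fin {G : Type} (W : Finset G) (P : Set G → Prop)
    (h : ∀ A B : Set G, (∀ g ∈ W, (g ∈ A ↔ g ∈ B)) → P A → P B) : MeasurableSet {A | P A} := by
  exact lima_meas W P h

end Pool.Agent.Lib.MP_7bd500_al.VF
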