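import Pool.Agent.Lib.MP_7bd500_al.VFLimA

/-
If every invariant random subgroup lives on limits of finite index subgroups, few points are bad.
-/

set_option autoImplicit false

namespace Pool.Agent.Lib.MP_7bd500_al.VF

open Filter Topology MeasureTheory

theorem limb_key {S G : Type} [Group G] {π : FreeGroup S →* G} {X : ℕ → Type}
    {φ : ∀ n, FreeGroup S →* Equiv.Perm (X n)} (hφ : Asym π X φ) {w w' : FreeGroup S}
    (h : π w = π w') : Tendsto (fun n => fr fun y => φ n w y ≠ φ n w' y) atTop (𝓝 0) := by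
  have h1 : w'⁻¹ * w ∈ π.ker := by rw [MonoidHom.mem_ker, map_mul, map_inv, h, inv_mul_cancel]
  refine (hφ _ h1).congr fun n => ?_
  congr 1
  funext y
  rw [map_mul, map_inv, Equiv.Perm.mul_apply, ne_eq, ne_eq, Equiv.Perm.inv_eq_iff_eq]

theorem limb_le {l : Filter ℕ} [l.NeBot] {X : ℕ → Type} [∀ n, Finite (X n)]
    {p q r : ∀ n, X n → Prop} {a b : ℝ} (hp : Tendsto (fun n => fr (p n)) l (𝓝 a))
    (hq : Tendsto (fun n => fr (q n)) l (𝓝 b)) (hr : Tendsto (fun n => fr (r n)) l (𝓝 0))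
    (h : ∀ n x, p n x → q n x ∨ r n x) : a ≤ b := by
  have h1 := hq.add hr
  rw [add_zero] at h1
  exact le_of_tendsto_of_tendsto' hp h1 fun n => fr_le_add (h n)

theorem limb_irs {S G : Type} [Group G] [Countable G] {π : FreeGroup S →* G} {X : ℕ → Type}
    [∀ n, Finite (X n)] {φ : ∀ n, FreeGroup S →* Equiv.Perm (X n)} (hφ : Asym π X φ)
    {σ : G → FreeGroup S} (hσ : ∀ g, π (σ g) = g) {l : Filter ℕ} [l.NeBot] (hl : l ≤ atTop)
    {μ : Measure (Set G)} [IsProbabilityMeasure μ]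
    (hμ : ∀ (W : Finset G) (P : Set G → Prop),
      (∀ A B : Set G, (∀ g ∈ W, (g ∈ A ↔ g ∈ B)) → P A → P B) →
      Tendsto (fun n => fr fun x => P {g | φ n (σ g) x = x}) l (𝓝 (μ.real {A | P A}))) :
    IRS μ := by
  classical
  have null : ∀ (W : Finset G) (P : Set G → Prop) (w w' : FreeGroup S),
      (∀ A B : Set G, (∀ g ∈ W, (g ∈ A ↔ g ∈ B)) → P A → P B) → π w = π w' →
      (∀ n x, P {g | φ n (σ g) x = x} → φ n w x ≠ φ n w' x) → ∀ᵐ A ∂μ, ¬ P A := by
    intro W P w w' h1 h2 h3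
    have h4 : μ.real {A | P A} ≤ 0 := le_of_tendsto_of_tendsto' (hμ W P h1)
      ((limb_key hφ h2).mono_left hl) fun n => fr_mono (h3 n)
    have h5 : μ {A | P A} = 0 :=
      (measureReal_eq_zero_iff (measure_ne_top _ _)).1 (le_antisymm h4 measureReal_nonneg)
    rw [ae_iff]
    simpa only [not_not] using h5
  refine ⟨inferInstance, ?_, fun a => ?_⟩
  · have h1 : ∀ᵐ A ∂μ, ¬ (1 : G) ∉ A := null {1} (fun A => (1 : G) ∉ A) (σ 1) 1
      (fun A B h hA hB => hA ((h 1 (by simp)).2 hB)) (by rw [hσ, map_one])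
      fun n x hx => by simpa using hx
    have h2 : ∀ g h : G, ∀ᵐ A ∂μ, ¬ (g ∈ A ∧ h ∈ A ∧ g * h⁻¹ ∉ A) := fun g h =>
      null {g, h, g * h⁻¹} (fun A => g ∈ A ∧ h ∈ A ∧ g * h⁻¹ ∉ A) (σ (g * h⁻¹)) (σ g * (σ h)⁻¹)
        (fun A B e hA => ⟨(e g (by simp)).1 hA.1, (e h (by simp)).1 hA.2.1,
          fun hB => hA.2.2 ((e _ (by simp)).2 hB)⟩)
        (by rw [map_mul, map_inv, hσ, hσ, hσ])
        fun n x hx e => hx.2.2 (by
          have e1 : φ n (σ g) x = x := hx.1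
          have e2 : (φ n (σ h))⁻¹ x = x := Equiv.Perm.inv_eq_iff_eq.2 hx.2.1.symm
          change φ n (σ (g * h⁻¹)) x = x
          rw [e, map_mul, map_inv, Equiv.Perm.mul_apply, e2, e1])
    filter_upwards [h1, ae_all_iff.2 fun g => ae_all_iff.2 (h2 g)] with A e1 e2
    refine ⟨Subgroup.ofDiv A ⟨1, not_not.1 e1⟩ fun g hg h hh => ?_, rfl⟩
    by_contra hc
    exact e2 g h ⟨hg, hh, hc⟩
  · have hm : Measurable fun A : Set G => {g | a * g * a⁻¹ ∈ A} :=
      measurable_set_iff.2 fun g => measurable_set_mem _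
    have := Measure.isProbabilityMeasure_map (μ := μ) hm.aemeasurable
    refine measure_ext _ _ fun W => ?_
    have f1 : ∀ A B : Set G, (∀ g ∈ W, (g ∈ A ↔ g ∈ B)) → (∀ g ∈ W, g ∈ A) → ∀ g ∈ W, g ∈ B :=
      fun A B e hA g hg => (e g hg).1 (hA g hg)
    rw [map_measureReal_apply hm (measurableSet_of_fin W _ f1)]
    have t1 := hμ (W.image fun g => a * g * a⁻¹) (fun A => ∀ g ∈ W, a * g * a⁻¹ ∈ A)
      fun A B e hA g hg => (e _ (Finset.mem_image_of_mem _ hg)).1 (hA g hg)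
    have t2 : Tendsto (fun n => fr fun x => ∀ g ∈ W,
        φ n (σ g) ((φ n (σ a))⁻¹ x) = (φ n (σ a))⁻¹ x) l (𝓝 (μ.real {A | ∀ g ∈ W, g ∈ A})) :=
      (hμ W _ f1).congr fun n =>
        (fr_comp_perm (φ n (σ a))⁻¹ fun x => ∀ g ∈ W, φ n (σ g) x = x).symm
    have t3 : Tendsto (fun n => fr fun x => ∃ g ∈ W,
        φ n (σ (a * g * a⁻¹)) x ≠ φ n (σ a * σ g * (σ a)⁻¹) x) l (𝓝 0) :=
      tendsto_fr_of_exists W (fun n x hx => hx) fun g _ => (limb_key hφ (by
        rw [map_mul, map_mul, map_inv, hσ, hσ, hσ])).mono_left hl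
    have key : ∀ n x g, φ n (σ a * σ g * (σ a)⁻¹) x = x ↔
        φ n (σ g) ((φ n (σ a))⁻¹ x) = (φ n (σ a))⁻¹ x := fun n x g => by
      rw [map_mul, map_mul, map_inv, Equiv.Perm.mul_apply, Equiv.Perm.mul_apply,
        Equiv.Perm.eq_inv_iff_eq]
    refine le_antisymm (limb_le t1 t2 t3 fun n x hx => ?_) (limb_le t2 t1 t3 fun n x hx => ?_)
    · refine or_iff_not_imp_right.2 fun hc g hg => (key n x g).1 ?_
      push Not at hc
      rw [← hc g hg]
      exact hx g hg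
    · refine or_iff_not_imp_right.2 fun hc g hg => ?_
      push Not at hc
      exact (hc g hg).trans ((key n x g).2 (hx g hg))

theorem bad_small {S G : Type} [Group G] [Countable G] (π : FreeGroup S →* G)
    (hπ : Function.Surjective π) (hG : ∀ μ : Measure (Set G), IRS μ → ∀ᵐ A ∂μ, Lim A)
    (X : ℕ → Type) [∀ n, Finite (X n)] (φ : ∀ n, FreeGroup S →* Equiv.Perm (X n))
    (hφ : Asym π X φ) (W : Finset (FreeGroup S)) :
    Tendsto (fun n => fr (Bad π (φ n) W)) atTop (𝓝 0) := by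
  classical
  refine (tendsto_iff_ultrafilter _ _ _).2 fun U hU => ?_
  by_cases hne : ∀ᶠ n in (U : Filter ℕ), Nonempty (X n)
  swap
  · refine tendsto_const_nhds.congr' ?_
    filter_upwards [Ultrafilter.eventually_not.2 hne] with n hn
    have : IsEmpty (X n) := not_nonempty_iff.1 hn
    simp [fr]
  choose σ hσ using hπ
  obtain ⟨μ, hp, hμ⟩ := exists_limit U X hne fun n x => {g | φ n (σ g) x = x}
  have h1 := hG μ (limb_irs hφ hσ hU hμ)
  have t1 := hμ (W.image π)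
    (fun A => ¬ ∃ L : Subgroup G, L.FiniteIndex ∧ ∀ g ∈ W.image π, (g ∈ L ↔ g ∈ A))
    fun A B e hA ⟨L, h2, h3⟩ => hA ⟨L, h2, fun g hg => (h3 g hg).trans (e g hg).symm⟩
  have h2 : μ.real {A | ¬ ∃ L : Subgroup G, L.FiniteIndex ∧
      ∀ g ∈ W.image π, (g ∈ L ↔ g ∈ A)} = 0 :=
    (measureReal_eq_zero_iff (measure_ne_top _ _)).2
      (ae_iff.1 (h1.mono fun A hA => hA (W.image π)))
  have t2 : Tendsto (fun n => fr fun x => ∃ w ∈ W, φ n (σ (π w)) x ≠ φ n w x) (U : Filter ℕ)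
      (𝓝 0) :=
    tendsto_fr_of_exists W (fun n x hx => hx) fun w _ => (limb_key hφ (hσ _)).mono_left hU
  have t3 := t1.add t2
  rw [h2, add_zero] at t3
  refine squeeze_zero (fun n => fr_nonneg _) (fun n => fr_le_add fun x hx => ?_) t3
  refine or_iff_not_imp_right.2 fun hc ⟨L, h3, h4⟩ => hx ⟨L, h3, fun w hw => ?_⟩
  push Not at hc
  rw [h4 _ (Finset.mem_image_of_mem _ hw), ← hc w hw]
  rfl

end Pool.Agent.Lib.MP_7bd500_al.VF
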